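import Mathlib

set_option autoImplicit false

open Finset

namespace Pool.Agent.H164R3.Amen

lemma rpow_add_le' {p x y : ℝ} (hp : 0 < p) (hp1 : p ≤ 1) (hx : 0 ≤ x) (hy : 0 ≤ y) :
    (x + y) ^ p ≤ x ^ p + y ^ p := by
  have := NNReal.rpow_add_le_add_rpow ⟨x, hx⟩ ⟨y, hy⟩ hp.le hp1
  exact_mod_cast this

lemma abs_add_rpow_le {p x y : ℝ} (hp : 0 < p) (hp1 : p ≤ 1) :
    |x + y| ^ p ≤ |x| ^ p + |y| ^ p :=
  (Real.rpow_le_rpow (abs_nonneg _) (abs_add_le x y) hp.le).trans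
    (rpow_add_le' hp hp1 (abs_nonneg _) (abs_nonneg _))

lemma abs_sum_rpow_le {p : ℝ} (hp : 0 < p) (hp1 : p ≤ 1) {ι : Type*} (s : Finset ι) (x : ι → ℝ) :
    |∑ i ∈ s, x i| ^ p ≤ ∑ i ∈ s, |x i| ^ p := by
  classical
  induction s using Finset.induction_on with
  | empty => simp [Real.zero_rpow hp.ne']
  | insert a s ha ih =>
    rw [sum_insert ha, sum_insert ha]
    exact (abs_add_rpow_le hp hp1).trans (by linarith)

lemma sum_rpow_le {p : ℝ} (hp : 0 < p) (hp1 : p ≤ 1) {ι : Type*} (s : Finset ι) (x : ι → ℝ)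
    (hx : ∀ i ∈ s, 0 ≤ x i) : (∑ i ∈ s, x i) ^ p ≤ ∑ i ∈ s, x i ^ p := by
  have h := abs_sum_rpow_le hp hp1 s x
  rw [abs_of_nonneg (sum_nonneg hx)] at h
  refine h.trans (le_of_eq (sum_congr rfl fun i hi => ?_))
  rw [abs_of_nonneg (hx i hi)]

/-- chord inequality for `x ↦ x ^ p` on `[1, b]` -/
lemma chord {p b g : ℝ} (hp : 0 < p) (hp1 : p ≤ 1) (hb : 1 < b) (h1 : 1 ≤ g) (h2 : g ≤ b) :
    1 + (b ^ p - 1) / (b - 1) * (g - 1) ≤ g ^ p := by
  have hc := (Real.concaveOn_rpow hp.le hp1).2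
    (show (1 : ℝ) ∈ Set.Ici (0 : ℝ) by simp)
    (show b ∈ Set.Ici (0 : ℝ) by simp only [Set.mem_Ici]; linarith)
    (show 0 ≤ 1 - (g - 1) / (b - 1) by
      rw [sub_nonneg, div_le_one (by linarith)]; linarith)
    (show 0 ≤ (g - 1) / (b - 1) from div_nonneg (by linarith) (by linarith)) (by ring)
  have hb' : b - 1 ≠ 0 := by linarith
  have e : (1 - (g - 1) / (b - 1)) • (1 : ℝ) + ((g - 1) / (b - 1)) • b = g := by
    simp only [smul_eq_mul]; field_simp; ring
  rw [e] at hc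
  simp only [Real.one_rpow, smul_eq_mul] at hc
  refine le_trans (le_of_eq ?_) hc
  field_simp; ring

lemma cluster {n : ℕ} (hn : 2 ≤ n) {p β γ : ℝ} (hp : 0 < p) (hp1 : p ≤ 1) (hβ : 0 ≤ β)
    (hβγ : β ≤ γ) (hC : γ * ((n : ℝ) ^ p - 1) ≤ (γ - β) * (n - 1)) (a g : Fin n → ℝ)
    (ha : ∀ j, 0 ≤ a j) (hg : ∀ j, 0 ≤ g j) (hag : ∀ j, 1 ≤ a j + g j)
    (hsum : (n : ℝ) ≤ ∑ j, g j) :
    β * (n - 1) + γ * (n : ℝ) ^ p ≤ ∑ j, (β * a j ^ p + γ * g j ^ p) := by
  have hn' : (2 : ℝ) ≤ n := by exact_mod_cast hn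
  have hγ : 0 ≤ γ := hβ.trans hβγ
  have hterm : ∀ j, β ≤ β * a j ^ p + γ * g j ^ p := by
    intro j
    have h1 : (1 : ℝ) ≤ a j ^ p + g j ^ p := by
      calc (1 : ℝ) = 1 ^ p := (Real.one_rpow p).symm
        _ ≤ (a j + g j) ^ p := Real.rpow_le_rpow zero_le_one (hag j) hp.le
        _ ≤ _ := rpow_add_le' hp hp1 (ha j) (hg j)
    have h2 : 0 ≤ g j ^ p := Real.rpow_nonneg (hg j) p
    nlinarith [mul_le_mul_of_nonneg_right hβγ h2]
  by_cases hex : ∃ j0, (n : ℝ) ≤ g j0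
  · obtain ⟨j0, hj0⟩ := hex
    rw [← Finset.add_sum_erase _ _ (mem_univ j0)]
    have h1 : γ * (n : ℝ) ^ p ≤ β * a j0 ^ p + γ * g j0 ^ p := by
      have h2 : (n : ℝ) ^ p ≤ g j0 ^ p := Real.rpow_le_rpow (by linarith) hj0 hp.le
      have h3 : 0 ≤ a j0 ^ p := Real.rpow_nonneg (ha j0) p
      nlinarith [mul_le_mul_of_nonneg_left h2 hγ, mul_nonneg hβ h3]
    have h4 : β * (n - 1) ≤ ∑ j ∈ univ.erase j0, (β * a j ^ p + γ * g j ^ p) := by
      calc β * (n - 1) = ∑ j ∈ univ.erase j0, β := by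
            rw [sum_const, card_erase_of_mem (mem_univ _), card_univ, Fintype.card_fin, nsmul_eq_mul,
              Nat.cast_sub (by omega)]
            push_cast; ring
        _ ≤ _ := sum_le_sum fun j _ => hterm j
    linarith
  · push Not at hex
    set σ : ℝ := ((n : ℝ) ^ p - 1) / (n - 1) with hσ
    have hn1 : (0 : ℝ) < n - 1 := by linarith
    have hσ0 : 0 ≤ σ := by
      apply div_nonneg _ hn1.le
      have : (1 : ℝ) ≤ (n : ℝ) ^ p := Real.one_le_rpow (by linarith) hp.le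
      linarith
    have hσ1 : γ * σ ≤ γ - β := by
      rw [hσ, ← mul_div_assoc, div_le_iff₀ hn1]; exact hC
    have hσn : σ * (n - 1) = (n : ℝ) ^ p - 1 := by rw [hσ]; field_simp
    have hlow : ∀ j, β + (γ - β) * min (g j) 1 + γ * σ * max (g j - 1) 0
        ≤ β * a j ^ p + γ * g j ^ p := by
      intro j
      rcases le_or_gt (g j) 1 with h | h
      · rw [min_eq_left h, max_eq_right (by linarith)]
        have h1 : 1 - g j ≤ a j ^ p := by
          calc 1 - g j = (1 - g j) ^ (1 : ℝ) := (Real.rpow_one _).symm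
            _ ≤ (1 - g j) ^ p :=
                Real.rpow_le_rpow_of_exponent_ge' (by linarith) (by linarith [hg j]) hp.le hp1
            _ ≤ a j ^ p := Real.rpow_le_rpow (by linarith) (by linarith [hag j]) hp.le
        have h2 : g j ≤ g j ^ p := by
          calc g j = (g j) ^ (1 : ℝ) := (Real.rpow_one _).symm
            _ ≤ (g j) ^ p :=
                Real.rpow_le_rpow_of_exponent_ge' (hg j) h hp.le hp1
        nlinarith [mul_le_mul_of_nonneg_left h1 hβ, mul_le_mul_of_nonneg_left h2 hγ]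
      · rw [min_eq_right h.le, max_eq_left (by linarith)]
        have h1 := chord hp hp1 (by linarith : (1 : ℝ) < n) h.le (hex j).le
        rw [← hσ] at h1
        have h3 : 0 ≤ a j ^ p := Real.rpow_nonneg (ha j) p
        nlinarith [mul_le_mul_of_nonneg_left h1 hγ, mul_nonneg hβ h3]
    refine le_trans ?_ (sum_le_sum fun j _ => hlow j)
    rw [sum_add_distrib, sum_add_distrib, ← mul_sum, ← mul_sum, sum_const, card_univ,
      Fintype.card_fin, nsmul_eq_mul]
    set m := ∑ j, min (g j) 1 with hm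
    set e := ∑ j, max (g j - 1) 0 with he
    have hme : (n : ℝ) ≤ m + e := by
      refine hsum.trans (le_of_eq ?_)
      rw [hm, he, ← sum_add_distrib]
      refine sum_congr rfl fun j _ => ?_
      rcases le_or_gt (g j) 1 with h | h
      · rw [min_eq_left h, max_eq_right (by linarith)]; ring
      · rw [min_eq_right h.le, max_eq_left (by linarith)]; ring
    have hm1 : 1 ≤ m := by
      by_cases hall : ∀ j, g j ≤ 1
      · have : m = ∑ j, g j := sum_congr rfl fun j _ => min_eq_left (hall j)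
        rw [this]; linarith
      · push Not at hall
        obtain ⟨j, hj⟩ := hall
        calc (1 : ℝ) = min (g j) 1 := (min_eq_right hj.le).symm
          _ ≤ m := single_le_sum (f := fun j => min (g j) 1)
              (fun i _ => le_min (hg i) zero_le_one) (mem_univ j)
    have h5 : 0 ≤ γ * σ := mul_nonneg hγ hσ0
    have h6 : γ * (n : ℝ) ^ p = γ + γ * σ * (n - 1) := by
      rw [mul_assoc, hσn]; ring
    rw [h6]
    nlinarith [mul_le_mul_of_nonneg_left hme h5, mul_le_mul_of_nonneg_right hσ1 (by linarith : 0 ≤ m - 1)]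

end Pool.Agent.H164R3.Amen
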