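import Mathlib

set_option autoImplicit false

open scoped ENNReal

namespace Pool.Agent.H164R3.Amen

/-- `(M, d)` is an `r`-metric space: `d` takes values in `[0, ∞)` and `d ^ r` is a metric. -/
structure IsRMetric (r : ℝ) {M : Type} (d : M → M → ℝ) : Prop where
  nonneg : ∀ x y, 0 ≤ d x y
  eq_zero_iff : ∀ x y, d x y = 0 ↔ x = y
  symm : ∀ x y, d x y = d y x
  triangle : ∀ x y z, d x z ^ r ≤ d x y ^ r + d y z ^ r

/-- `(Y, N)` is a `p`-Banach space: `N` is a `p`-norm on the real vector space `Y` and `Y` is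
complete for it (every Cauchy sequence converges). -/
structure IsPBanach (p : ℝ) {Y : Type} [AddCommGroup Y] [Module ℝ Y] (N : Y → ℝ) : Prop where
  nonneg : ∀ y, 0 ≤ N y
  eq_zero_iff : ∀ y, N y = 0 ↔ y = 0
  smul : ∀ (t : ℝ) (y : Y), N (t • y) = |t| * N y
  add : ∀ x y, N (x + y) ^ p ≤ N x ^ p + N y ^ p
  complete : ∀ u : ℕ → Y, (∀ ε > 0, ∃ K, ∀ m ≥ K, ∀ n ≥ K, N (u m - u n) < ε) →
    ∃ y, ∀ ε > 0, ∃ K, ∀ n ≥ K, N (u n - y) < ε

/-- The norm in the Lipschitz-free `p`-space of the pointed space `(M, d, o)` of the element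
`∑ x, μ x δ(x)`: the supremum of `‖∑ x, μ x f(x)‖_Y` over all `p`-Banach spaces `(Y, N)` and
all `1`-Lipschitz maps `f : M → Y` with `f o = 0`. -/
noncomputable def freeNorm (p : ℝ) {M : Type} (d : M → M → ℝ) (o : M) (μ : M →₀ ℝ) : ℝ≥0∞ :=
  ⨆ (Y : Type) (_ : AddCommGroup Y) (_ : Module ℝ Y) (N : Y → ℝ) (_ : IsPBanach p N)
    (f : M → Y) (_ : f o = 0) (_ : ∀ x y, N (f x - f y) ≤ d x y),
    ENNReal.ofReal (N (μ.sum fun x a => a • f x))

/-- `am_p(S, M)` for a subset `S` of `M` containing the base point `o`: the supremum of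
`‖μ‖_{F_p(S)} / ‖μ‖_{F_p(M)}` over all nonzero `μ` in the span of `δ(S)` (`μ = ∑ μ x δ(x)`
is nonzero exactly if `μ x ≠ 0` for some `x ≠ o`, because `δ(o) = 0`). -/
noncomputable def am (p : ℝ) {M : Type} (d : M → M → ℝ) (o : M) (S : Set M) (ho : o ∈ S) :
    ℝ≥0∞ :=
  ⨆ (μ : S →₀ ℝ) (_ : ∃ x : S, (x : M) ≠ o ∧ μ x ≠ 0),
    freeNorm p (fun x y : S => d x y) ⟨o, ho⟩ μ / freeNorm p d o (μ.mapDomain Subtype.val)

/-- `A_p^q(n)`: the supremum of `am_p(S, M)` over all finite pointed `q`-metric spaces `M` and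
subsets `S` containing the base point with `n + 1` elements. -/
noncomputable def A (p q : ℝ) (n : ℕ) : ℝ≥0∞ :=
  ⨆ (M : Type) (_ : Finite M) (d : M → M → ℝ) (_ : IsRMetric q d) (o : M) (S : Set M)
    (ho : o ∈ S) (_ : S.ncard = n + 1), am p d o S ho

end Pool.Agent.H164R3.Amen
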