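import Pool.Agent.H164R3.AmCombi
import Pool.Agent.H164R3.AmDefs

set_option autoImplicit false
set_option linter.unusedSectionVars false

open Finset

namespace Pool.Agent.H164R3.Amen

section flow
variable {L : Type} [Fintype L] [DecidableEq L]

/-- divergence of a flow at a leaf -/
def dv (F : Option L → Option L → ℝ) (x : L) : ℝ := ∑ u, (F u (some x) - F (some x) u)

/-- cost -/
noncomputable def cost (p : ℝ) (w : Option L → Option L → ℝ) (F : Option L → Option L → ℝ) : ℝ :=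
  ∑ u, ∑ v, |F u v| ^ p * w u v

/-- infimum of costs of flows with divergence `y` -/
noncomputable def Ψ (p : ℝ) (w : Option L → Option L → ℝ) (y : L → ℝ) : ℝ :=
  sInf {c | ∃ F, dv F = y ∧ cost p w F = c}

lemma cost_nonneg {p : ℝ} {w : Option L → Option L → ℝ} (hw : ∀ u v, 0 ≤ w u v)
    (F : Option L → Option L → ℝ) : 0 ≤ cost p w F :=
  sum_nonneg fun _ _ => sum_nonneg fun _ _ =>
    mul_nonneg (Real.rpow_nonneg (abs_nonneg _) _) (hw _ _)

lemma Ψ_bdd {p : ℝ} {w : Option L → Option L → ℝ} (hw : ∀ u v, 0 ≤ w u v) (y : L → ℝ) :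
    BddBelow {c | ∃ F, dv F = y ∧ cost p w F = c} :=
  ⟨0, by rintro c ⟨F, _, rfl⟩; exact cost_nonneg hw F⟩

/-- the star flow -/
def star (y : L → ℝ) : Option L → Option L → ℝ
  | none, some x => y x
  | _, _ => 0

lemma dv_star (y : L → ℝ) : dv (star y) = y := by
  funext x
  rw [dv, Fintype.sum_option]
  simp [star]

lemma Ψ_nonempty (p : ℝ) (w : Option L → Option L → ℝ) (y : L → ℝ) :
    {c | ∃ F, dv F = y ∧ cost p w F = c}.Nonempty := ⟨_, star y, dv_star y, rfl⟩

lemma Ψ_le {p : ℝ} {w : Option L → Option L → ℝ} (hw : ∀ u v, 0 ≤ w u v) {y : L → ℝ}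
    {F : Option L → Option L → ℝ} (hF : dv F = y) : Ψ p w y ≤ cost p w F :=
  csInf_le (Ψ_bdd hw y) ⟨F, hF, rfl⟩

lemma le_Ψ {p : ℝ} {w : Option L → Option L → ℝ} {y : L → ℝ} {c : ℝ}
    (h : ∀ F, dv F = y → c ≤ cost p w F) : c ≤ Ψ p w y :=
  le_csInf (Ψ_nonempty p w y) (by rintro _ ⟨F, hF, rfl⟩; exact h F hF)

lemma Ψ_nonneg {p : ℝ} {w : Option L → Option L → ℝ} (hw : ∀ u v, 0 ≤ w u v) (y : L → ℝ) :
    0 ≤ Ψ p w y := le_Ψ fun F _ => cost_nonneg hw F

lemma coord_le {p : ℝ} (hp : 0 < p) (hp1 : p ≤ 1) {w : Option L → Option L → ℝ}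
    (hw : ∀ u v, 0 ≤ w u v) (hw1 : ∀ u v, u ≠ v → 1 ≤ w u v) (y : L → ℝ) (x : L) :
    |y x| ^ p ≤ Ψ p w y := by
  refine le_Ψ fun F hF => ?_
  have h1 : y x = ∑ u, (F u (some x) - F (some x) u) := by rw [← hF]; rfl
  have h2 : ∑ u, (F u (some x) - F (some x) u)
      = ∑ u ∈ univ.erase (some x), (F u (some x) - F (some x) u) := by
    rw [← Finset.add_sum_erase _ _ (mem_univ (some x)), sub_self, zero_add]
  rw [h1, h2]
  refine (abs_sum_rpow_le hp hp1 _ _).trans ?_
  have h3 : ∀ u ∈ univ.erase (some x), |F u (some x) - F (some x) u| ^ p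
      ≤ |F u (some x)| ^ p * w u (some x) + |F (some x) u| ^ p * w (some x) u := by
    intro u hu
    have hne : u ≠ some x := ne_of_mem_erase hu
    have h4 : |F u (some x) - F (some x) u| ^ p ≤ |F u (some x)| ^ p + |F (some x) u| ^ p := by
      have := abs_add_rpow_le (x := F u (some x)) (y := - F (some x) u) hp hp1
      rwa [abs_neg, ← sub_eq_add_neg] at this
    have h5 := hw1 _ _ hne
    have h6 := hw1 _ _ hne.symm
    have h7 : 0 ≤ |F u (some x)| ^ p := Real.rpow_nonneg (abs_nonneg _) _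
    have h8 : 0 ≤ |F (some x) u| ^ p := Real.rpow_nonneg (abs_nonneg _) _
    nlinarith
  refine (sum_le_sum h3).trans ?_
  rw [sum_add_distrib]
  -- split cost
  have hA : ∑ u ∈ univ.erase (some x), |F (some x) u| ^ p * w (some x) u
      ≤ ∑ v, |F (some x) v| ^ p * w (some x) v :=
    sum_le_sum_of_subset_of_nonneg (erase_subset _ _) fun _ _ _ =>
      mul_nonneg (Real.rpow_nonneg (abs_nonneg _) _) (hw _ _)
  have hB : ∑ u ∈ univ.erase (some x), |F u (some x)| ^ p * w u (some x)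
      ≤ ∑ u ∈ univ.erase (some x), ∑ v, |F u v| ^ p * w u v :=
    sum_le_sum fun u _ => single_le_sum (f := fun v => |F u v| ^ p * w u v)
      (fun _ _ => mul_nonneg (Real.rpow_nonneg (abs_nonneg _) _) (hw _ _)) (mem_univ _)
  have hC : cost p w F = (∑ v, |F (some x) v| ^ p * w (some x) v)
      + ∑ u ∈ univ.erase (some x), ∑ v, |F u v| ^ p * w u v := by
    rw [cost, ← Finset.add_sum_erase _ _ (mem_univ (some x))]
  rw [hC]; linarith

lemma cost_add {p : ℝ} (hp : 0 < p) (hp1 : p ≤ 1) {w : Option L → Option L → ℝ}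
    (hw : ∀ u v, 0 ≤ w u v) (F G : Option L → Option L → ℝ) :
    cost p w (fun u v => F u v + G u v) ≤ cost p w F + cost p w G := by
  rw [cost, cost, cost, ← sum_add_distrib]
  refine sum_le_sum fun u _ => ?_
  rw [← sum_add_distrib]
  refine sum_le_sum fun v _ => ?_
  have := abs_add_rpow_le (x := F u v) (y := G u v) hp hp1
  calc |F u v + G u v| ^ p * w u v ≤ (|F u v| ^ p + |G u v| ^ p) * w u v :=
        mul_le_mul_of_nonneg_right this (hw _ _)
    _ = _ := by ring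

lemma dv_add (F G : Option L → Option L → ℝ) :
    dv (fun u v => F u v + G u v) = dv F + dv G := by
  funext x
  simp only [dv, Pi.add_apply, ← sum_add_distrib]
  refine sum_congr rfl fun u _ => ?_
  ring

lemma dv_smul (t : ℝ) (F : Option L → Option L → ℝ) :
    dv (fun u v => t * F u v) = t • dv F := by
  funext x
  simp only [dv, Pi.smul_apply, smul_eq_mul, mul_sum]
  refine sum_congr rfl fun u _ => ?_
  ring

lemma cost_smul {p : ℝ} {w : Option L → Option L → ℝ} (t : ℝ)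
    (F : Option L → Option L → ℝ) :
    cost p w (fun u v => t * F u v) = |t| ^ p * cost p w F := by
  simp only [cost, mul_sum]
  refine sum_congr rfl fun u _ => sum_congr rfl fun v _ => ?_
  rw [abs_mul, Real.mul_rpow (abs_nonneg _) (abs_nonneg _)]
  ring

lemma Ψ_add {p : ℝ} (hp : 0 < p) (hp1 : p ≤ 1) {w : Option L → Option L → ℝ}
    (hw : ∀ u v, 0 ≤ w u v) (y z : L → ℝ) : Ψ p w (y + z) ≤ Ψ p w y + Ψ p w z := by
  have h1 : ∀ F G, dv F = y → dv G = z → Ψ p w (y + z) ≤ cost p w F + cost p w G := by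
    intro F G hF hG
    refine (Ψ_le hw (F := fun u v => F u v + G u v) ?_).trans (cost_add hp hp1 hw F G)
    rw [dv_add, hF, hG]
  have h2 : ∀ G, dv G = z → Ψ p w (y + z) - cost p w G ≤ Ψ p w y := fun G hG =>
    le_Ψ fun F hF => by linarith [h1 F G hF hG]
  have h3 : Ψ p w (y + z) - Ψ p w y ≤ Ψ p w z := le_Ψ fun G hG => by linarith [h2 G hG]
  linarith

lemma Ψ_smul_le {p : ℝ} {w : Option L → Option L → ℝ}
    (hw : ∀ u v, 0 ≤ w u v) {t : ℝ} (ht : t ≠ 0) (y : L → ℝ) :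
    Ψ p w (t • y) ≤ |t| ^ p * Ψ p w y := by
  have h0 : 0 < |t| ^ p := Real.rpow_pos_of_pos (abs_pos.mpr ht) p
  rw [← div_le_iff₀' h0]
  refine le_Ψ fun F hF => ?_
  rw [div_le_iff₀' h0, ← cost_smul]
  exact Ψ_le hw (by rw [dv_smul, hF])

lemma Ψ_smul {p : ℝ} (hp : 0 < p) {w : Option L → Option L → ℝ}
    (hw : ∀ u v, 0 ≤ w u v) (t : ℝ) (y : L → ℝ) :
    Ψ p w (t • y) = |t| ^ p * Ψ p w y := by
  rcases eq_or_ne t 0 with rfl | ht
  · rw [abs_zero, Real.zero_rpow hp.ne', zero_mul, zero_smul]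
    refine le_antisymm ?_ (Ψ_nonneg hw _)
    have : cost p w (fun _ _ => (0 : ℝ)) = 0 := by
      simp [cost, Real.zero_rpow hp.ne']
    rw [← this]
    refine Ψ_le hw ?_
    funext x; simp [dv]
  · refine le_antisymm (Ψ_smul_le hw ht y) ?_
    have h1 := Ψ_smul_le (p := p) hw (inv_ne_zero ht) (t • y)
    rw [smul_smul, inv_mul_cancel₀ ht, one_smul, abs_inv, Real.inv_rpow (abs_nonneg _)] at h1
    have h0 : 0 < |t| ^ p := Real.rpow_pos_of_pos (abs_pos.mpr ht) p
    calc |t| ^ p * Ψ p w y ≤ |t| ^ p * ((|t| ^ p)⁻¹ * Ψ p w (t • y)) := by gcongr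
      _ = Ψ p w (t • y) := by field_simp

lemma Ψ_le_star {p : ℝ} (hp : 0 < p) {w : Option L → Option L → ℝ}
    (hw : ∀ u v, 0 ≤ w u v) (y : L → ℝ) :
    Ψ p w y ≤ ∑ x, |y x| ^ p * w none (some x) := by
  refine (Ψ_le hw (dv_star y)).trans (le_of_eq ?_)
  rw [cost, Fintype.sum_option]
  simp [star, Fintype.sum_option, Real.zero_rpow hp.ne']

/-- the `p`-norm -/
noncomputable def NY (p : ℝ) (w : Option L → Option L → ℝ) (y : L → ℝ) : ℝ := (Ψ p w y) ^ (1 / p)

lemma NY_rpow {p : ℝ} (hp : 0 < p) {w : Option L → Option L → ℝ}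
    (hw : ∀ u v, 0 ≤ w u v) (y : L → ℝ) : NY p w y ^ p = Ψ p w y := by
  rw [NY, ← Real.rpow_mul (Ψ_nonneg hw y), one_div_mul_cancel hp.ne', Real.rpow_one]

lemma NY_le_iff {p : ℝ} (hp : 0 < p) {w : Option L → Option L → ℝ}
    (hw : ∀ u v, 0 ≤ w u v) (y : L → ℝ) {c : ℝ} (hc : 0 ≤ c) : NY p w y ≤ c ↔ Ψ p w y ≤ c ^ p := by
  rw [← NY_rpow hp hw]
  exact (Real.rpow_le_rpow_iff (Real.rpow_nonneg (Ψ_nonneg hw y) _) hc hp).symm

theorem isPBanach_NY {p : ℝ} (hp : 0 < p) (hp1 : p ≤ 1) {w : Option L → Option L → ℝ}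
    (hw : ∀ u v, 0 ≤ w u v) (hw1 : ∀ u v, u ≠ v → 1 ≤ w u v) :
    IsPBanach p (NY p w) := by
  have hcoord : ∀ (y : L → ℝ) (x : L), |y x| ≤ NY p w y := by
    intro y x
    have h := coord_le hp hp1 hw hw1 y x
    rw [← NY_rpow hp hw] at h
    exact (Real.rpow_le_rpow_iff (abs_nonneg _) (Real.rpow_nonneg (Ψ_nonneg hw y) _) hp).mp h
  refine ⟨fun y => Real.rpow_nonneg (Ψ_nonneg hw y) _, ?_, ?_, ?_, ?_⟩
  · intro y
    constructor
    · intro h
      funext x
      have := hcoord y x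
      rw [h] at this
      exact abs_nonpos_iff.mp this
    · rintro rfl
      have h := Ψ_smul hp hw 0 (0 : L → ℝ)
      rw [abs_zero, Real.zero_rpow hp.ne', zero_mul, zero_smul] at h
      rw [NY, h, Real.zero_rpow (by positivity)]
  · intro t y
    rw [NY, NY, Ψ_smul hp hw, Real.mul_rpow (Real.rpow_nonneg (abs_nonneg _) _) (Ψ_nonneg hw y),
      ← Real.rpow_mul (abs_nonneg _), mul_one_div_cancel hp.ne', Real.rpow_one]
  · intro x y
    rw [NY_rpow hp hw, NY_rpow hp hw, NY_rpow hp hw]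
    exact Ψ_add hp hp1 hw x y
  · intro u hu
    -- coordinatewise limits
    have hc : ∀ x : L, ∃ l, Filter.Tendsto (fun n => u n x) Filter.atTop (nhds l) := by
      intro x
      apply cauchySeq_tendsto_of_complete
      rw [Metric.cauchySeq_iff]
      intro ε hε
      obtain ⟨K, hK⟩ := hu ε hε
      refine ⟨K, fun m hm n hn => ?_⟩
      rw [Real.dist_eq]
      exact lt_of_le_of_lt (hcoord (u m - u n) x) (hK m hm n hn)
    choose l hl using hc
    refine ⟨l, fun ε hε => ?_⟩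
    have h1 : Filter.Tendsto (fun n => ∑ x, |(u n - l) x| ^ p * w none (some x)) Filter.atTop
        (nhds (∑ x : L, (0 : ℝ) ^ p * w none (some x))) := by
      apply tendsto_finsetSum
      intro x _
      apply Filter.Tendsto.mul_const
      have h2 : Filter.Tendsto (fun n => |(u n - l) x|) Filter.atTop (nhds 0) := by
        have := ((hl x).sub_const (l x)).abs
        simpa using this
      exact h2.rpow_const (Or.inr hp.le)
    simp only [Real.zero_rpow hp.ne', zero_mul, sum_const_zero] at h1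
    have h3 := h1.eventually (gt_mem_nhds (show (0 : ℝ) < ε ^ p by positivity))
    rw [Filter.eventually_atTop] at h3
    obtain ⟨K, hK⟩ := h3
    refine ⟨K, fun n hn => ?_⟩
    have h4 : Ψ p w (u n - l) < ε ^ p := (Ψ_le_star hp hw _).trans_lt (hK n hn)
    rw [← NY_rpow hp hw] at h4
    exact (Real.rpow_lt_rpow_iff (Real.rpow_nonneg (Ψ_nonneg hw _) _) hε.le hp).mp h4

end flow

end Pool.Agent.H164R3.Amen
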