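import Pool.Agent.H164R3.AmFlow

set_option autoImplicit false

open Finset

namespace Pool.Agent.H164R3.Amen

/-- Lower bound for the cost of a flow delivering one unit at each of the `n * n` leaves. -/
theorem flow_lower {n : ℕ} (hn : 2 ≤ n) {p β γ : ℝ} (hp : 0 < p) (hp1 : p ≤ 1) (hβ : 0 ≤ β)
    (hβγ : β ≤ γ) (hC : γ * ((n : ℝ) ^ p - 1) ≤ (γ - β) * (n - 1))
    {w : Option (Fin n × Fin n) → Option (Fin n × Fin n) → ℝ}
    (hw : ∀ u v, 0 ≤ w u v) (hsymm : ∀ u v, w u v = w v u)
    (h0 : ∀ x, γ ≤ w none (some x))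
    (h1 : ∀ x y : Fin n × Fin n, x.1 ≠ y.1 → γ ≤ w (some x) (some y))
    (h2 : ∀ x y : Fin n × Fin n, x ≠ y → β ≤ w (some x) (some y))
    (F : Option (Fin n × Fin n) → Option (Fin n × Fin n) → ℝ) (hF : ∀ x, dv F x = 1) :
    n * (β * (n - 1) + γ * (n : ℝ) ^ p) ≤ cost p w F := by
  classical
  set ν : Option (Fin n × Fin n) → Option (Fin n × Fin n) → ℝ := fun u v => F u v - F v u with hν
  set I : Option (Fin n × Fin n) → Option (Fin n × Fin n) → ℝ := fun u v => max (ν u v) 0 with hI
  have hI0 : ∀ u v, 0 ≤ I u v := fun u v => le_max_right _ _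
  have hIν : ∀ u v, ν u v ≤ I u v := fun u v => le_max_left _ _
  have hIself : ∀ u, I u u = 0 := fun u => by simp [hI, hν]
  have hγ : 0 ≤ γ := hβ.trans hβγ
  -- step 1: cost F ≥ ∑ I^p w
  have step1 : ∑ u, ∑ v, I u v ^ p * w u v ≤ cost p w F := by
    have e1 : cost p w F = ∑ u, ∑ v, |F v u| ^ p * w u v := by
      rw [cost, sum_comm]
      refine sum_congr rfl fun u _ => sum_congr rfl fun v _ => ?_
      rw [hsymm v u]
    have e2 : ∑ u, ∑ v, I u v ^ p * w u v = ∑ u, ∑ v, I v u ^ p * w u v := by
      rw [sum_comm]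
      refine sum_congr rfl fun u _ => sum_congr rfl fun v _ => ?_
      rw [hsymm v u]
    have h3 : ∀ u v, I u v ^ p + I v u ^ p ≤ |F u v| ^ p + |F v u| ^ p := by
      intro u v
      have h4 : |F u v - F v u| ^ p ≤ |F u v| ^ p + |F v u| ^ p := by
        have := abs_add_rpow_le (x := F u v) (y := - F v u) hp hp1
        rwa [abs_neg, ← sub_eq_add_neg] at this
      refine le_trans ?_ h4
      rcases le_total 0 (F u v - F v u) with h | h
      · have a1 : I u v = F u v - F v u := by simp only [hI, hν]; exact max_eq_left h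
        have a2 : I v u = 0 := by simp only [hI, hν]; exact max_eq_right (by linarith)
        rw [a1, a2, Real.zero_rpow hp.ne', abs_of_nonneg h, add_zero]
      · have a1 : I v u = -(F u v - F v u) := by
          simp only [hI, hν]; rw [max_eq_left (by linarith)]; ring
        have a2 : I u v = 0 := by simp only [hI, hν]; exact max_eq_right h
        rw [a1, a2, Real.zero_rpow hp.ne', abs_of_nonpos h, zero_add]
    have h5 : 2 * ∑ u, ∑ v, I u v ^ p * w u v ≤ 2 * cost p w F := by
      have e3 : 2 * ∑ u, ∑ v, I u v ^ p * w u v = ∑ u, ∑ v, (I u v ^ p + I v u ^ p) * w u v := by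
        rw [two_mul]
        nth_rewrite 2 [e2]
        simp only [← sum_add_distrib, add_mul]
      have e4 : 2 * cost p w F = ∑ u, ∑ v, (|F u v| ^ p + |F v u| ^ p) * w u v := by
        rw [two_mul]
        nth_rewrite 2 [e1]
        rw [cost]
        simp only [← sum_add_distrib, add_mul]
      rw [e3, e4]
      exact sum_le_sum fun u _ => sum_le_sum fun v _ => mul_le_mul_of_nonneg_right (h3 u v) (hw u v)
    linarith
  refine le_trans ?_ step1
  rw [sum_comm, Fintype.sum_option]
  have h6 : 0 ≤ ∑ u, I u none ^ p * w u none :=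
    sum_nonneg fun u _ => mul_nonneg (Real.rpow_nonneg (hI0 _ _) _) (hw _ _)
  have h7 : (n : ℝ) * (β * (n - 1) + γ * (n : ℝ) ^ p)
      ≤ ∑ y : Fin n × Fin n, ∑ u, I u (some y) ^ p * w u (some y) := by
    rw [Fintype.sum_prod_type]
    have e5 : (n : ℝ) * (β * (n - 1) + γ * (n : ℝ) ^ p)
        = ∑ _i : Fin n, (β * (n - 1) + γ * (n : ℝ) ^ p) := by
      rw [sum_const, card_univ, Fintype.card_fin, nsmul_eq_mul]
    rw [e5]
    refine sum_le_sum fun i _ => ?_
    -- cluster i
    set a : Fin n → ℝ := fun j => ∑ j', I (some (i, j')) (some (i, j)) with ha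
    set g : Fin n → ℝ := fun j => I none (some (i, j)) +
      ∑ i' ∈ univ.erase i, ∑ j', I (some (i', j')) (some (i, j)) with hg
    have ha0 : ∀ j, 0 ≤ a j := fun j => sum_nonneg fun _ _ => hI0 _ _
    have hg0 : ∀ j, 0 ≤ g j := fun j =>
      add_nonneg (hI0 _ _) (sum_nonneg fun _ _ => sum_nonneg fun _ _ => hI0 _ _)
    have hdv : ∀ j, 1 = ν none (some (i, j)) + (∑ j', ν (some (i, j')) (some (i, j))
        + ∑ i' ∈ univ.erase i, ∑ j', ν (some (i', j')) (some (i, j))) := by
      intro j
      rw [← hF (i, j), dv, Fintype.sum_option, Fintype.sum_prod_type,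
        ← Finset.add_sum_erase _ _ (mem_univ i)]
    have hag : ∀ j, 1 ≤ a j + g j := by
      intro j
      rw [hdv j]
      have b1 : ∑ j', ν (some (i, j')) (some (i, j)) ≤ a j := sum_le_sum fun _ _ => hIν _ _
      have b2 : ∑ i' ∈ univ.erase i, ∑ j', ν (some (i', j')) (some (i, j))
          ≤ ∑ i' ∈ univ.erase i, ∑ j', I (some (i', j')) (some (i, j)) :=
        sum_le_sum fun _ _ => sum_le_sum fun _ _ => hIν _ _
      have b3 := hIν none (some (i, j))
      simp only [hg]
      linarith
    have hsum : (n : ℝ) ≤ ∑ j, g j := by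
      have b4 : ∑ j : Fin n, (1 : ℝ) = n := by simp
      have b5 : ∑ j : Fin n, ∑ j', ν (some (i, j')) (some (i, j)) = 0 := by
        have : ∑ j : Fin n, ∑ j', ν (some (i, j')) (some (i, j))
            = - ∑ j : Fin n, ∑ j', ν (some (i, j')) (some (i, j)) := by
          nth_rewrite 1 [sum_comm]
          rw [← sum_neg_distrib]
          refine sum_congr rfl fun j _ => ?_
          rw [← sum_neg_distrib]
          refine sum_congr rfl fun j' _ => ?_
          simp only [hν]; ring
        linarith
      calc (n : ℝ) = ∑ j : Fin n, (1 : ℝ) := b4.symm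
        _ = ∑ j : Fin n, (ν none (some (i, j)) + (∑ j', ν (some (i, j')) (some (i, j))
              + ∑ i' ∈ univ.erase i, ∑ j', ν (some (i', j')) (some (i, j)))) :=
            sum_congr rfl fun j _ => hdv j
        _ = ∑ j : Fin n, (ν none (some (i, j))
              + ∑ i' ∈ univ.erase i, ∑ j', ν (some (i', j')) (some (i, j))) := by
            rw [sum_add_distrib, sum_add_distrib, b5, zero_add, ← sum_add_distrib]
        _ ≤ ∑ j, g j := sum_le_sum fun j _ => add_le_add (hIν _ _)
            (sum_le_sum fun _ _ => sum_le_sum fun _ _ => hIν _ _)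
    refine (cluster hn hp hp1 hβ hβγ hC a g ha0 hg0 hag hsum).trans ?_
    refine sum_le_sum fun j _ => ?_
    rw [Fintype.sum_option, Fintype.sum_prod_type, ← Finset.add_sum_erase _ _ (mem_univ i)]
    -- inside
    have c1 : β * a j ^ p ≤ ∑ j', I (some (i, j')) (some (i, j)) ^ p
        * w (some (i, j')) (some (i, j)) := by
      have c2 : a j ^ p ≤ ∑ j', I (some (i, j')) (some (i, j)) ^ p :=
        sum_rpow_le hp hp1 _ _ fun _ _ => hI0 _ _
      refine (mul_le_mul_of_nonneg_left c2 hβ).trans ?_
      rw [mul_sum]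
      refine sum_le_sum fun j' _ => ?_
      rcases eq_or_ne j' j with rfl | hne
      · rw [hIself, Real.zero_rpow hp.ne']; simp
      · have := h2 (i, j') (i, j) (by simpa using hne)
        rw [mul_comm]
        exact mul_le_mul_of_nonneg_left this (Real.rpow_nonneg (hI0 _ _) _)
    have c3 : γ * g j ^ p ≤ I none (some (i, j)) ^ p * w none (some (i, j))
        + ∑ i' ∈ univ.erase i, ∑ j', I (some (i', j')) (some (i, j)) ^ p
          * w (some (i', j')) (some (i, j)) := by
      have c4 : g j ^ p ≤ I none (some (i, j)) ^ p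
          + ∑ i' ∈ univ.erase i, ∑ j', I (some (i', j')) (some (i, j)) ^ p := by
        refine (rpow_add_le' hp hp1 (hI0 _ _)
          (sum_nonneg fun _ _ => sum_nonneg fun _ _ => hI0 _ _)).trans ?_
        have := (sum_rpow_le hp hp1 (univ.erase i) (fun i' => ∑ j', I (some (i', j')) (some (i, j)))
          (fun _ _ => sum_nonneg fun _ _ => hI0 _ _)).trans
          (sum_le_sum fun i' _ => sum_rpow_le hp hp1 univ
            (fun j' => I (some (i', j')) (some (i, j))) fun _ _ => hI0 _ _)
        linarith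
      refine (mul_le_mul_of_nonneg_left c4 hγ).trans ?_
      rw [mul_add, mul_sum]
      refine add_le_add ?_ (sum_le_sum fun i' hi' => ?_)
      · rw [mul_comm]
        exact mul_le_mul_of_nonneg_left (h0 _) (Real.rpow_nonneg (hI0 _ _) _)
      · rw [mul_sum]
        refine sum_le_sum fun j' _ => ?_
        rw [mul_comm]
        exact mul_le_mul_of_nonneg_left (h1 (i', j') (i, j) (ne_of_mem_erase hi'))
          (Real.rpow_nonneg (hI0 _ _) _)
    linarith
  linarith

end Pool.Agent.H164R3.Amen
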