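import Mathlib

set_option autoImplicit false

/-!
# Sparse transport representations (for the intersection property of free p-spaces)

helper164.  A signed measure on a finite set of points outside a closed set `Z`, whose
Kantorovich norm relative to `Z` is at most `V`, is `V` times a convex combination of at most
`|F| + 1` elementary transports.
-/

namespace Pool.Agent.H164R3.Fp

open Finset

/-- the elementary transports on the index set `F` (`0` is added for convenience) -/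
def atoms {F : Type} [DecidableEq F] (d : F → F → ℝ) (e : F → ℝ) : Set (F → ℝ) :=
  {v | v = 0 ∨ (∃ s t, s ≠ t ∧ v = (d s t)⁻¹ • (Pi.single s (1:ℝ) - Pi.single t (1:ℝ))) ∨
    (∃ s, v = (e s)⁻¹ • (Pi.single s (1:ℝ) : F → ℝ)) ∨
    (∃ s, v = -((e s)⁻¹ • (Pi.single s (1:ℝ) : F → ℝ)))}

lemma atoms_finite {F : Type} [Fintype F] [DecidableEq F] (d : F → F → ℝ) (e : F → ℝ) :
    (atoms d e).Finite := by
  have h1 : (Set.range fun q : F × F =>
      (d q.1 q.2)⁻¹ • (Pi.single q.1 (1:ℝ) - Pi.single q.2 (1:ℝ) : F → ℝ)).Finite :=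
    Set.finite_range _
  have h2 : (Set.range fun s : F => (e s)⁻¹ • (Pi.single s (1:ℝ) : F → ℝ)).Finite :=
    Set.finite_range _
  have h3 : (Set.range fun s : F => -((e s)⁻¹ • (Pi.single s (1:ℝ) : F → ℝ))).Finite :=
    Set.finite_range _
  refine ((Set.finite_singleton (0 : F → ℝ)).union (h1.union (h2.union h3))).subset ?_
  rintro v (h | ⟨s, t, -, h⟩ | ⟨s, h⟩ | ⟨s, h⟩)
  · left; exact h
  · right; left; exact ⟨(s, t), h.symm⟩
  · right; right; left; exact ⟨s, h.symm⟩
  · right; right; right; exact ⟨s, h.symm⟩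

/-- duality: a measure whose pairings with all admissible potentials are at most `V` is in
`V` times the convex hull of the elementary transports -/
lemma mem_hull {F : Type} [Fintype F] [DecidableEq F] (d : F → F → ℝ) (e : F → ℝ)
    (hd : ∀ s t, s ≠ t → 0 < d s t) (he : ∀ s, 0 < e s) (μ : F → ℝ) (V : ℝ) (hV : 0 < V)
    (h : ∀ g : F → ℝ, (∀ s t, s ≠ t → g s - g t ≤ d s t) → (∀ s, |g s| ≤ e s) →
      ∑ s, μ s * g s ≤ V) :
    V⁻¹ • μ ∈ convexHull ℝ (atoms d e) := by
  by_contra hx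
  have hcl : IsClosed (convexHull ℝ (atoms d e)) :=
    (Set.Finite.isCompact_convexHull (𝕜 := ℝ) (atoms_finite d e)).isClosed
  obtain ⟨f, u, hfu, hux⟩ := geometric_hahn_banach_closed_point (convex_convexHull ℝ _) hcl hx
  have hu : 0 < u := by
    have := hfu 0 (subset_convexHull ℝ _ (Or.inl rfl))
    simpa using this
  set g : F → ℝ := fun s => f (Pi.single s (1:ℝ)) with hg
  have hfv : ∀ v : F → ℝ, f v = ∑ s, v s * g s := by
    intro v
    have : v = ∑ s, v s • (Pi.single s (1:ℝ) : F → ℝ) := by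
      ext j
      simp [Finset.sum_apply, Pi.single_apply]
    conv_lhs => rw [this]
    rw [map_sum]
    refine Finset.sum_congr rfl fun s _ => ?_
    rw [map_smul, smul_eq_mul]
  have h1 : ∀ s t, s ≠ t → (u⁻¹ * g s) - (u⁻¹ * g t) ≤ d s t := by
    intro s t hst
    have h2 := hfu _ (subset_convexHull ℝ _ (Or.inr (Or.inl ⟨s, t, hst, rfl⟩)))
    rw [map_smul, map_sub, smul_eq_mul] at h2
    have h3 := hd s t hst
    have h4 : g s - g t < u * d s t := by
      have := mul_lt_mul_of_pos_left h2 h3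
      rw [← mul_assoc, mul_inv_cancel₀ h3.ne', one_mul] at this
      simp only [hg]; linarith
    rw [← mul_sub, inv_mul_le_iff₀ hu]
    exact h4.le
  have h5 : ∀ s, |u⁻¹ * g s| ≤ e s := by
    intro s
    have h3 := he s
    have h2 := hfu _ (subset_convexHull ℝ _ (Or.inr (Or.inr (Or.inl ⟨s, rfl⟩))))
    have h2' := hfu _ (subset_convexHull ℝ _ (Or.inr (Or.inr (Or.inr ⟨s, rfl⟩))))
    rw [map_smul, smul_eq_mul] at h2
    rw [map_neg, map_smul, smul_eq_mul] at h2'
    have h4 : g s < u * e s := by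
      have := mul_lt_mul_of_pos_left h2 h3
      rw [← mul_assoc, mul_inv_cancel₀ h3.ne', one_mul] at this
      simp only [hg]; linarith
    have h4' : -(g s) < u * e s := by
      have := mul_lt_mul_of_pos_left h2' h3
      rw [mul_neg, ← mul_assoc, mul_inv_cancel₀ h3.ne', one_mul] at this
      simp only [hg]; linarith
    rw [abs_le]
    constructor
    · rw [← neg_le_neg_iff, neg_neg, ← mul_neg, inv_mul_le_iff₀ hu]
      exact h4'.le
    · rw [inv_mul_le_iff₀ hu]; exact h4.le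
  have h6 := h (fun s => u⁻¹ * g s) h1 h5
  rw [map_smul, smul_eq_mul, hfv] at hux
  have h7 : ∑ s, μ s * (u⁻¹ * g s) = u⁻¹ * ∑ s, μ s * g s := by
    rw [Finset.mul_sum]; exact Finset.sum_congr rfl fun s _ => by ring
  rw [h7, inv_mul_le_iff₀ hu] at h6
  have h8 : u * V < ∑ s, μ s * g s := by
    have := mul_lt_mul_of_pos_left hux hV
    rw [← mul_assoc, mul_inv_cancel₀ hV.ne', one_mul] at this
    linarith
  linarith

/-- sparse version (Caratheodory) -/
lemma sparse {F : Type} [Fintype F] [DecidableEq F] (d : F → F → ℝ) (e : F → ℝ)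
    (hd : ∀ s t, s ≠ t → 0 < d s t) (he : ∀ s, 0 < e s) (μ : F → ℝ) (V : ℝ) (hV : 0 < V)
    (h : ∀ g : F → ℝ, (∀ s t, s ≠ t → g s - g t ≤ d s t) → (∀ s, |g s| ≤ e s) →
      ∑ s, μ s * g s ≤ V) :
    ∃ (t : Finset (F → ℝ)) (w : (F → ℝ) → ℝ), t.card ≤ Fintype.card F + 1 ∧
      (∀ y ∈ t, y ∈ atoms d e) ∧ (∀ y ∈ t, 0 ≤ w y) ∧ ∑ y ∈ t, w y = 1 ∧
      ∑ y ∈ t, (V * w y) • y = μ := by
  have h0 := mem_hull d e hd he μ V hV h
  rw [convexHull_eq_union] at h0
  simp only [Set.mem_iUnion] at h0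
  obtain ⟨t, hts, hind, hmem⟩ := h0
  rw [Finset.mem_convexHull'] at hmem
  obtain ⟨w, hw0, hw1, hw2⟩ := hmem
  refine ⟨t, w, ?_, fun y hy => hts hy, hw0, hw1, ?_⟩
  · have h1 := hind.card_le_finrank_succ
    have h2 : Module.finrank ℝ (vectorSpan ℝ (Set.range ((↑) : t → (F → ℝ)))) ≤
        Fintype.card F := by
      refine (Submodule.finrank_le _).trans ?_
      rw [Module.finrank_fintype_fun_eq_card]
    simp only [Fintype.card_coe] at h1
    omega
  · have h3 : ∑ y ∈ t, (V * w y) • y = V • ∑ y ∈ t, w y • y := by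
      rw [Finset.smul_sum]
      exact Finset.sum_congr rfl fun y _ => by rw [smul_smul]
    rw [h3, hw2, smul_smul, mul_inv_cancel₀ hV.ne', one_smul]

/-- `∑ wᵖ ≤ n^(1-p)` for weights of sum one -/
lemma sum_rpow_le {α : Type} (t : Finset α) (w : α → ℝ) (hw : ∀ y ∈ t, 0 ≤ w y)
    (h1 : ∑ y ∈ t, w y = 1) (p : ℝ) (hp : 0 < p) (hp1 : p ≤ 1) :
    ∑ y ∈ t, w y ^ p ≤ (t.card : ℝ) ^ (1 - p) := by
  have hne : t.Nonempty := by
    by_contra h; rw [Finset.not_nonempty_iff_eq_empty] at h; rw [h] at h1; simp at h1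
  have hn : (0:ℝ) < t.card := by exact_mod_cast hne.card_pos
  have hq : 1 ≤ 1 / p := by rw [le_div_iff₀ hp]; linarith
  have key := Real.rpow_arith_mean_le_arith_mean_rpow t (fun _ => (1:ℝ) / t.card)
    (fun y => w y ^ p) (fun _ _ => by positivity)
    (by rw [Finset.sum_const, nsmul_eq_mul]; field_simp)
    (fun y hy => Real.rpow_nonneg (hw y hy) p) hq
  have h2 : ∑ y ∈ t, (1:ℝ) / t.card * (w y ^ p) ^ (1 / p) = 1 / t.card := by
    rw [← Finset.mul_sum]
    have : ∑ y ∈ t, (w y ^ p) ^ (1 / p) = ∑ y ∈ t, w y := by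
      refine Finset.sum_congr rfl fun y hy => ?_
      rw [← Real.rpow_mul (hw y hy), mul_one_div, div_self hp.ne', Real.rpow_one]
    rw [this, h1, mul_one]
  rw [h2, ← Finset.mul_sum] at key
  set S := ∑ y ∈ t, w y ^ p with hS
  have hS0 : 0 ≤ S := Finset.sum_nonneg fun y hy => Real.rpow_nonneg (hw y hy) p
  have h3 : (1 / (t.card:ℝ) * S) ≤ (1 / (t.card:ℝ)) ^ p := by
    have := Real.rpow_le_rpow (by positivity) key hp.le
    rwa [← Real.rpow_mul (by positivity), one_div_mul_cancel hp.ne', Real.rpow_one] at this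
  rw [one_div, Real.inv_rpow hn.le, inv_mul_le_iff₀ hn] at h3
  refine h3.trans (le_of_eq ?_)
  rw [Real.rpow_sub hn, Real.rpow_one, div_eq_mul_inv]

end Pool.Agent.H164R3.Fp
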