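import Mathlib
import Pool.Agent.H164R3.FpSparse

set_option autoImplicit false

/-!
# Approximation by elements supported on a closed set (free p-spaces)

helper164.  `X` is a normed group in which `‖a • v‖ = |a|^p ‖v‖`; that is, `‖v‖ = N(v)^p` for a
`p`-norm `N`.
-/

namespace Pool.Agent.H164R3.Fp

open Finset Metric

/-- thresholds -/
lemma threshold {ι : Type} (t : ι → ℝ) (ht : ∀ i, 0 ≤ t i) (p : ℝ) (hp : 0 < p)
    (hs : Summable fun i => t i ^ p) (ε : ℝ) (hε : 0 < ε) :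
    ∃ (I : Finset ι) (θ : ℝ), 0 < θ ∧ θ ≤ 1 ∧ (∀ i, i ∉ I → t i ≤ θ) ∧
      ((I.card : ℝ) + 1) * θ ^ p ≤ (∑' i, t i ^ p) + 1 ∧
      ∑' i : {i // i ∉ I}, t i ^ p ≤ ε := by
  classical
  have h1 := tendsto_tsum_compl_atTop_zero (fun i => t i ^ p)
  have h2 : ∀ᶠ J : Finset ι in Filter.atTop, ∑' i : {i // i ∉ J}, t i ^ p < ε :=
    (h1.eventually (gt_mem_nhds hε))
  obtain ⟨J, hJ⟩ := h2.exists
  have h3 : ∃ θ : ℝ, 0 < θ ∧ θ ≤ 1 ∧ ∀ i ∈ J, 0 < t i → θ ≤ t i := by
    clear hJ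
    induction J using Finset.induction_on with
    | empty => exact ⟨1, one_pos, le_refl _, by simp⟩
    | insert a J _ ih =>
      obtain ⟨θ, hθ0, hθ1, hθ⟩ := ih
      by_cases ha : 0 < t a
      · refine ⟨min θ (t a), lt_min hθ0 ha, (min_le_left _ _).trans hθ1, ?_⟩
        intro i hi hti
        rcases Finset.mem_insert.1 hi with rfl | hi
        · exact min_le_right _ _
        · exact (min_le_left _ _).trans (hθ i hi hti)
      · refine ⟨θ, hθ0, hθ1, ?_⟩
        intro i hi hti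
        rcases Finset.mem_insert.1 hi with rfl | hi
        · exact absurd hti ha
        · exact hθ i hi hti
  obtain ⟨θ, hθ0, hθ1, hθ⟩ := h3
  have hfin : {i | θ ≤ t i}.Finite := by
    have h4 : ∀ᶠ i in Filter.cofinite, t i ^ p < θ ^ p :=
      hs.tendsto_cofinite_zero.eventually (gt_mem_nhds (Real.rpow_pos_of_pos hθ0 p))
    have h5 : {i | ¬ (t i ^ p < θ ^ p)}.Finite := h4
    refine h5.subset ?_
    intro i hi
    show ¬ (t i ^ p < θ ^ p)
    rw [not_lt]
    exact Real.rpow_le_rpow hθ0.le hi hp.le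
  set I := hfin.toFinset with hI
  have hmem : ∀ i, i ∈ I ↔ θ ≤ t i := fun i => by simp [hI]
  have hpos : ∀ i, 0 ≤ t i ^ p := fun i => Real.rpow_nonneg (ht i) p
  refine ⟨I, θ, hθ0, hθ1, ?_, ?_, ?_⟩
  · intro i hi
    rw [hmem, not_le] at hi
    exact hi.le
  · have h6 : ∑ i ∈ I, θ ^ p ≤ ∑ i ∈ I, t i ^ p :=
      Finset.sum_le_sum fun i hi => Real.rpow_le_rpow hθ0.le ((hmem i).1 hi) hp.le
    have h7 : ∑ i ∈ I, t i ^ p ≤ ∑' i, t i ^ p := hs.sum_le_tsum I fun i _ => hpos i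
    have h8 : θ ^ p ≤ 1 := Real.rpow_le_one hθ0.le hθ1 hp.le
    rw [Finset.sum_const, nsmul_eq_mul] at h6
    linarith
  · have h9 := hs.sum_add_tsum_subtype_compl I
    have h10 := hs.sum_add_tsum_subtype_compl J
    have h11 : ∑ i ∈ J, t i ^ p ≤ ∑ i ∈ I, t i ^ p := by
      have h12 : ∑ i ∈ J, t i ^ p = ∑ i ∈ J.filter (· ∈ I), t i ^ p := by
        rw [Finset.sum_filter]
        refine Finset.sum_congr rfl fun i hi => ?_
        split_ifs with hiI
        · rfl
        · have : t i = 0 := by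
            by_contra hne
            exact hiI ((hmem i).2 (hθ i hi (lt_of_le_of_ne (ht i) (Ne.symm hne))))
          rw [this, Real.zero_rpow hp.ne']
      rw [h12]
      refine Finset.sum_le_sum_of_subset_of_nonneg ?_ fun i _ _ => hpos i
      intro i hi
      exact (Finset.mem_filter.1 hi).2
    have : ∑' i : {i // i ∉ I}, t i ^ p ≤ ∑' i : {i // i ∉ J}, t i ^ p := by linarith
    exact this.trans hJ.le

variable {p : ℝ} {M X : Type} [MetricSpace M] [NormedAddCommGroup X] [Module ℝ X]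

/-- extension of a potential on finitely many points outside `Z` to a `1`-Lipschitz function
vanishing on `Z` -/
lemma extend (Z : Set M) (F : Set M) (hF : ∀ s ∈ F, s ∉ Z) (g : M → ℝ)
    (h1 : ∀ s ∈ F, ∀ t ∈ F, s ≠ t → g s - g t ≤ dist s t)
    (h2 : ∀ s ∈ F, |g s| ≤ infDist s Z) :
    ∃ f : M → ℝ, LipschitzWith 1 f ∧ (∀ z ∈ Z, f z = 0) ∧ ∀ s ∈ F, f s = g s := by
  classical
  set g' : M → ℝ := fun s => if s ∈ Z then 0 else g s with hg'
  have hlip : LipschitzOnWith 1 g' (F ∪ Z) := by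
    apply LipschitzOnWith.of_dist_le_mul
    intro s hs t ht
    rw [NNReal.coe_one, one_mul, Real.dist_eq]
    by_cases hsZ : s ∈ Z
    · by_cases htZ : t ∈ Z
      · simp only [hg', hsZ, htZ, if_true, sub_zero, abs_zero]; exact dist_nonneg
      · have htF : t ∈ F := ht.resolve_right htZ
        simp only [hg', hsZ, htZ, if_true, if_false, zero_sub, abs_neg]
        exact (h2 t htF).trans (by rw [dist_comm]; exact infDist_le_dist_of_mem hsZ)
    · have hsF : s ∈ F := hs.resolve_right hsZ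
      by_cases htZ : t ∈ Z
      · simp only [hg', hsZ, htZ, if_true, if_false, sub_zero]
        exact (h2 s hsF).trans (infDist_le_dist_of_mem htZ)
      · have htF : t ∈ F := ht.resolve_right htZ
        simp only [hg', hsZ, htZ, if_false]
        by_cases hst : s = t
        · subst hst; simp
        · rw [abs_le]
          constructor
          · have := h1 t htF s hsF (Ne.symm hst)
            rw [dist_comm] at this; linarith
          · exact h1 s hsF t htF hst
  obtain ⟨f, hf, hfe⟩ := hlip.extend_real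
  refine ⟨f, hf, fun z hz => ?_, fun s hs => ?_⟩
  · rw [← hfe (Or.inr hz)]; simp [hg', hz]
  · rw [← hfe (Or.inl hs)]; simp [hg', hF s hs]

lemma norm_sum_smul_le (hsm : ∀ (a : ℝ) (v : X), ‖a • v‖ = |a| ^ p * ‖v‖) {α : Type}
    (t : Finset α) (w : α → ℝ) (v : α → X) (C : ℝ) (hv : ∀ y ∈ t, ‖v y‖ ≤ C) :
    ‖∑ y ∈ t, w y • v y‖ ≤ C * ∑ y ∈ t, |w y| ^ p := by
  refine (norm_sum_le _ _).trans ?_
  rw [Finset.mul_sum]
  refine Finset.sum_le_sum fun y hy => ?_
  rw [hsm, mul_comm]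
  exact mul_le_mul_of_nonneg_right (hv y hy) (Real.rpow_nonneg (abs_nonneg _) _)

/-- every elementary transport is within `2` of the span of `δ(Z)` -/
lemma atom_approx (hp : 0 < p) (hp1 : p ≤ 1)
    (hsm : ∀ (a : ℝ) (v : X), ‖a • v‖ = |a| ^ p * ‖v‖) (δ : M → X)
    (hiso : ∀ x y, ‖δ x - δ y‖ = dist x y ^ p) (Z : Set M) (hZ : Z.Nonempty)
    (hZc : IsClosed Z) (F : Finset M) [DecidableEq F] (hF : ∀ s ∈ F, s ∉ Z) (v : F → ℝ)
    (hv : v ∈ atoms (fun s t : F => dist (s : M) t) (fun s => infDist (s : M) Z)) :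
    ∃ z ∈ Submodule.span ℝ (δ '' Z), ‖(∑ s : F, v s • δ s) - z‖ ≤ 2 := by
  have hsingle : ∀ s : F, ∑ j : F, (Pi.single s (1:ℝ) : F → ℝ) j • δ (j : M) = δ s := by
    intro s
    rw [Finset.sum_eq_single s]
    · rw [Pi.single_eq_same, one_smul]
    · intro j _ hj; rw [Pi.single_eq_of_ne hj, zero_smul]
    · intro h; exact absurd (Finset.mem_univ s) h
  have hpos : ∀ s : F, 0 < infDist (s : M) Z := fun s =>
    (hZc.notMem_iff_infDist_pos hZ).1 (hF s s.2)
  have hne : ∀ s : F, ∃ z ∈ Z, dist (s : M) z < 2 * infDist (s : M) Z := by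
    intro s
    apply (infDist_lt_iff hZ).1
    have := hpos s; linarith
  have h2p : (2:ℝ) ^ p ≤ 2 := by
    calc (2:ℝ) ^ p ≤ 2 ^ (1:ℝ) := Real.rpow_le_rpow_of_exponent_le (by norm_num) hp1
      _ = 2 := Real.rpow_one 2
  have key : ∀ (s : F) (c : ℝ), |c| = (infDist (s : M) Z)⁻¹ →
      ∃ z ∈ Submodule.span ℝ (δ '' Z), ‖c • δ (s : M) - z‖ ≤ 2 := by
    intro s c hc
    obtain ⟨z, hz, hd⟩ := hne s
    refine ⟨c • δ z, Submodule.smul_mem _ _ (Submodule.subset_span ⟨z, hz, rfl⟩), ?_⟩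
    have hpo := hpos s
    rw [← smul_sub, hsm, hiso, hc, ← Real.mul_rpow (inv_nonneg.2 hpo.le) dist_nonneg]
    refine (Real.rpow_le_rpow (by positivity) ?_ hp.le).trans h2p
    rw [inv_mul_le_iff₀ hpo]; linarith
  rcases hv with rfl | ⟨s, t, hst, rfl⟩ | ⟨s, rfl⟩ | ⟨s, rfl⟩
  · exact ⟨0, Submodule.zero_mem _, by simp⟩
  · refine ⟨0, Submodule.zero_mem _, ?_⟩
    have h1 : ∑ j : F, ((dist (s : M) (t : M))⁻¹ •
        (Pi.single s (1:ℝ) - Pi.single t (1:ℝ) : F → ℝ)) j • δ (j : M) =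
        (dist (s : M) (t : M))⁻¹ • (δ (s : M) - δ (t : M)) := by
      rw [← hsingle s, ← hsingle t, ← Finset.sum_sub_distrib, Finset.smul_sum]
      refine Finset.sum_congr rfl fun j _ => ?_
      rw [Pi.smul_apply, Pi.sub_apply, smul_eq_mul, mul_smul, sub_smul]
    have hne' : (s : M) ≠ t := fun h => hst (Subtype.ext h)
    have hd : 0 < dist (s : M) (t : M) := dist_pos.2 hne'
    rw [h1, sub_zero, hsm, hiso, ← Real.mul_rpow (abs_nonneg _) dist_nonneg,
      abs_of_pos (inv_pos.2 hd), inv_mul_cancel₀ hd.ne', Real.one_rpow]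
    norm_num
  · have h1 : ∑ j : F, ((infDist (s : M) Z)⁻¹ • (Pi.single s (1:ℝ) : F → ℝ)) j • δ (j : M) =
        (infDist (s : M) Z)⁻¹ • δ (s : M) := by
      conv_rhs => rw [← hsingle s]
      rw [Finset.smul_sum]
      refine Finset.sum_congr rfl fun j _ => ?_
      rw [Pi.smul_apply, smul_eq_mul, mul_smul]
    rw [h1]
    exact key s _ (abs_of_pos (inv_pos.2 (hpos s)))
  · have h1 : ∑ j : F, (-((infDist (s : M) Z)⁻¹ • (Pi.single s (1:ℝ) : F → ℝ))) j • δ (j : M) =
        (-(infDist (s : M) Z)⁻¹) • δ (s : M) := by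
      conv_rhs => rw [← hsingle s]
      rw [Finset.smul_sum]
      refine Finset.sum_congr rfl fun j _ => ?_
      rw [Pi.neg_apply, Pi.smul_apply, smul_eq_mul, ← neg_mul, mul_smul]
    rw [h1]
    exact key s _ (by rw [abs_neg]; exact abs_of_pos (inv_pos.2 (hpos s)))

/-- the sparse approximation of a finitely supported element -/
lemma finite_approx (hp : 0 < p) (hp1 : p ≤ 1)
    (hsm : ∀ (a : ℝ) (v : X), ‖a • v‖ = |a| ^ p * ‖v‖) (δ : M → X)
    (hiso : ∀ x y, ‖δ x - δ y‖ = dist x y ^ p) (Z : Set M) (hZ : Z.Nonempty)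
    (hZc : IsClosed Z) {ι : Type} (I : Finset ι) (a : ι → ℝ) (x y : ι → M) (V : ℝ) (hV : 0 < V)
    (h : ∀ f : M → ℝ, LipschitzWith 1 f → (∀ z ∈ Z, f z = 0) →
      ∑ i ∈ I, a i * (f (x i) - f (y i)) ≤ V) :
    ∃ z ∈ Submodule.span ℝ (δ '' Z),
      ‖(∑ i ∈ I, a i • (δ (x i) - δ (y i))) - z‖ ≤
        2 * (V ^ p * (2 * (I.card : ℝ) + 1) ^ (1 - p)) := by
  classical
  set F : Finset M := (I.image x ∪ I.image y).filter (· ∉ Z) with hFdef
  have hF : ∀ s ∈ F, s ∉ Z := fun s hs => (Finset.mem_filter.1 hs).2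
  have hcard : Fintype.card F ≤ 2 * I.card := by
    rw [Fintype.card_coe]
    calc F.card ≤ (I.image x ∪ I.image y).card := Finset.card_filter_le _ _
      _ ≤ (I.image x).card + (I.image y).card := Finset.card_union_le _ _
      _ ≤ I.card + I.card := Nat.add_le_add Finset.card_image_le Finset.card_image_le
      _ = 2 * I.card := by ring
  -- the vector of a point
  set e : M → F → ℝ := fun q s => if (s : M) = q then 1 else 0 with he
  set Ψ : (F → ℝ) →ₗ[ℝ] X :=
    { toFun := fun v => ∑ s : F, v s • δ s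
      map_add' := by
        intro v w; rw [← Finset.sum_add_distrib]
        exact Finset.sum_congr rfl fun s _ => by rw [Pi.add_apply, add_smul]
      map_smul' := by
        intro c v; rw [RingHom.id_apply, Finset.smul_sum]
        exact Finset.sum_congr rfl fun s _ => by
          rw [Pi.smul_apply, smul_eq_mul, mul_smul] } with hΨ
  have hΨa : ∀ v, Ψ v = ∑ s : F, v s • δ s := fun v => rfl
  have hmemF : ∀ i ∈ I, (x i ∈ F ∨ x i ∈ Z) ∧ (y i ∈ F ∨ y i ∈ Z) := by
    intro i hi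
    constructor
    · by_cases h : x i ∈ Z
      · right; exact h
      · left; exact Finset.mem_filter.2 ⟨Finset.mem_union_left _ (Finset.mem_image_of_mem _ hi), h⟩
    · by_cases h : y i ∈ Z
      · right; exact h
      · left; exact Finset.mem_filter.2 ⟨Finset.mem_union_right _ (Finset.mem_image_of_mem _ hi), h⟩
  have heF : ∀ q ∈ F, Ψ (e q) = δ q := by
    intro q hq
    rw [hΨa, Finset.sum_eq_single (⟨q, hq⟩ : F)]
    · simp [he]
    · intro s _ hs
      have : (s : M) ≠ q := fun h => hs (Subtype.ext h)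
      simp [he, this]
    · intro h; exact absurd (Finset.mem_univ _) h
  have heZ : ∀ q ∈ Z, e q = 0 := by
    intro q hq
    funext s
    have : (s : M) ≠ q := fun h => hF s s.2 (h ▸ hq)
    simp [he, this]
  have hdiff : ∀ q, (q ∈ F ∨ q ∈ Z) → δ q - Ψ (e q) ∈ Submodule.span ℝ (δ '' Z) := by
    rintro q (hq | hq)
    · rw [heF q hq, sub_self]; exact Submodule.zero_mem _
    · rw [heZ q hq, map_zero, sub_zero]; exact Submodule.subset_span ⟨q, hq, rfl⟩
  set μ : F → ℝ := ∑ i ∈ I, a i • (e (x i) - e (y i)) with hμ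
  have hμΨ : (∑ i ∈ I, a i • (δ (x i) - δ (y i))) - Ψ μ ∈ Submodule.span ℝ (δ '' Z) := by
    rw [hμ, map_sum, ← Finset.sum_sub_distrib]
    refine Submodule.sum_mem _ fun i hi => ?_
    rw [map_smul, ← smul_sub, map_sub]
    apply Submodule.smul_mem
    have : δ (x i) - δ (y i) - (Ψ (e (x i)) - Ψ (e (y i))) =
        (δ (x i) - Ψ (e (x i))) - (δ (y i) - Ψ (e (y i))) := by abel
    rw [this]
    exact Submodule.sub_mem _ (hdiff _ (hmemF i hi).1) (hdiff _ (hmemF i hi).2)
  -- the dual bound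
  have hdual : ∀ g : F → ℝ, (∀ s t : F, s ≠ t → g s - g t ≤ dist (s : M) t) →
      (∀ s : F, |g s| ≤ infDist (s : M) Z) → ∑ s, μ s * g s ≤ V := by
    intro g hg1 hg2
    set g' : M → ℝ := fun q => if hq : q ∈ F then g ⟨q, hq⟩ else 0 with hg'
    have hg'F : ∀ s : F, g' s = g s := fun s => by simp [hg']
    obtain ⟨f, hf1, hf2, hf3⟩ := extend Z (F : Set M) (fun s hs => hF s hs) g'
      (by
        intro s hs t ht hst
        have := hg1 ⟨s, hs⟩ ⟨t, ht⟩ (fun h => hst (congrArg Subtype.val h))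
        rw [← hg'F, ← hg'F] at this
        exact this)
      (by
        intro s hs
        have := hg2 ⟨s, hs⟩
        rw [← hg'F] at this
        exact this)
    have hval : ∀ q, (q ∈ F ∨ q ∈ Z) → ∑ s : F, e q s * g s = f q := by
      rintro q (hq | hq)
      · rw [Finset.sum_eq_single (⟨q, hq⟩ : F)]
        · have : f q = g ⟨q, hq⟩ := by
            rw [hf3 q hq, ← hg'F ⟨q, hq⟩]
          simp [he, this]
        · intro s _ hs
          have : (s : M) ≠ q := fun h => hs (Subtype.ext h)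
          simp [he, this]
        · intro h; exact absurd (Finset.mem_univ _) h
      · rw [heZ q hq, hf2 q hq]; simp
    have h3 : ∑ s, μ s * g s = ∑ i ∈ I, a i * (f (x i) - f (y i)) := by
      have : ∀ s, μ s = ∑ i ∈ I, a i * (e (x i) s - e (y i) s) := by
        intro s
        rw [hμ, Finset.sum_apply]
        exact Finset.sum_congr rfl fun i _ => by
          rw [Pi.smul_apply, Pi.sub_apply, smul_eq_mul]
      simp only [this, Finset.sum_mul]
      rw [Finset.sum_comm]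
      refine Finset.sum_congr rfl fun i hi => ?_
      rw [← hval _ (hmemF i hi).1, ← hval _ (hmemF i hi).2, ← Finset.sum_sub_distrib,
        Finset.mul_sum]
      exact Finset.sum_congr rfl fun s _ => by ring
    rw [h3]
    exact h f hf1 hf2
  obtain ⟨t, w, ht, hat, hw0, hw1, hsum⟩ := sparse (fun s t : F => dist (s : M) t)
    (fun s => infDist (s : M) Z)
    (fun s t hst => dist_pos.2 fun h => hst (Subtype.ext h))
    (fun s => (hZc.notMem_iff_infDist_pos hZ).1 (hF s s.2)) μ V hV hdual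
  choose! z hz hz2 using fun v (hv : v ∈ atoms (fun s t : F => dist (s : M) t)
    (fun s => infDist (s : M) Z)) => atom_approx hp hp1 hsm δ hiso Z hZ hZc F hF v hv
  set z0 := ∑ v ∈ t, (V * w v) • z v with hz0
  have hz0mem : z0 ∈ Submodule.span ℝ (δ '' Z) :=
    Submodule.sum_mem _ fun v hv => Submodule.smul_mem _ _ (hz v (hat v hv))
  refine ⟨((∑ i ∈ I, a i • (δ (x i) - δ (y i))) - Ψ μ) + z0,
    Submodule.add_mem _ hμΨ hz0mem, ?_⟩
  have h4 : (∑ i ∈ I, a i • (δ (x i) - δ (y i))) -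
      (((∑ i ∈ I, a i • (δ (x i) - δ (y i))) - Ψ μ) + z0) = Ψ μ - z0 := by abel
  have h5 : Ψ μ - z0 = ∑ v ∈ t, (V * w v) • (Ψ v - z v) := by
    rw [← hsum, map_sum, hz0, ← Finset.sum_sub_distrib]
    exact Finset.sum_congr rfl fun v _ => by rw [map_smul, smul_sub]
  rw [h4, h5]
  refine (norm_sum_smul_le hsm t (fun v => V * w v) (fun v => Ψ v - z v) 2
    fun v hv => hz2 v (hat v hv)).trans ?_
  refine mul_le_mul_of_nonneg_left ?_ (by norm_num)
  have h6 : ∑ v ∈ t, |V * w v| ^ p = V ^ p * ∑ v ∈ t, w v ^ p := by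
    rw [Finset.mul_sum]
    refine Finset.sum_congr rfl fun v hv => ?_
    rw [abs_of_nonneg (mul_nonneg hV.le (hw0 v hv)), Real.mul_rpow hV.le (hw0 v hv)]
  rw [h6]
  refine mul_le_mul_of_nonneg_left ?_ (Real.rpow_nonneg hV.le _)
  refine (sum_rpow_le t w hw0 hw1 p hp hp1).trans ?_
  refine Real.rpow_le_rpow (by positivity) ?_ (by linarith)
  have : t.card ≤ 2 * I.card + 1 := ht.trans (by omega)
  exact_mod_cast this

end Pool.Agent.H164R3.Fp
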