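import Mathlib

set_option autoImplicit false

/-!
# Lipschitz free p-spaces: definitions and the norm formula

helper164.
-/

namespace Pool.Agent.H164R3.Fp

open Filter Topology Set

/-- `N` is a `p`-norm on the real vector space `X`. -/
structure IsPNorm (p : ℝ) {X : Type} [AddCommGroup X] [Module ℝ X] (N : X → ℝ) : Prop where
  nonneg : ∀ v, 0 ≤ N v
  eq_zero : ∀ v, N v = 0 → v = 0
  smul : ∀ (a : ℝ) (v : X), N (a • v) = |a| * N v
  add : ∀ v w, N (v + w) ^ p ≤ N v ^ p + N w ^ p

/-- `(X, N)` is a `p`-Banach space: `N` is a `p`-norm and every Cauchy sequence converges. -/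
structure IsPBanach (p : ℝ) {X : Type} [AddCommGroup X] [Module ℝ X] (N : X → ℝ) : Prop
    extends IsPNorm p N where
  complete : ∀ u : ℕ → X, (∀ ε > 0, ∃ k, ∀ m ≥ k, ∀ n ≥ k, N (u m - u n) < ε) →
    ∃ l, ∀ ε > 0, ∃ k, ∀ n ≥ k, N (u n - l) < ε

/-- `(X, N)` together with `δ : M → X` is the Lipschitz free `p`-space of the metric space `M`
with base point `o`: it is a `p`-Banach space, `δ` is isometric, `δ(o) = 0`, the span of the image
of `δ` is dense, and every Lipschitz map `f` of `M` into a `p`-Banach space `Y` with `f(o) = 0`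
extends to a linear map `T : X → Y`, `T ∘ δ = f`, bounded by the Lipschitz constant of `f`. -/
structure IsFree (p : ℝ) {M : Type} [MetricSpace M] (o : M) {X : Type} [AddCommGroup X]
    [Module ℝ X] (N : X → ℝ) (δ : M → X) : Prop where
  banach : IsPBanach p N
  base : δ o = 0
  isom : ∀ x y, N (δ x - δ y) = dist x y
  dense : ∀ v, ∀ ε > 0, ∃ w ∈ Submodule.span ℝ (Set.range δ), N (v - w) < ε
  univ : ∀ (Y : Type) [AddCommGroup Y] [Module ℝ Y] (N' : Y → ℝ), IsPBanach p N' →
    ∀ (f : M → Y) (L : ℝ), 0 ≤ L → f o = 0 → (∀ x y, N' (f x - f y) ≤ L * dist x y) →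
      ∃ T : X →ₗ[ℝ] Y, (∀ x, T (δ x) = f x) ∧ ∀ v, N' (T v) ≤ L * N v

/-- `F_p(K; M)`: the closed linear span of `δ(K)` in the free `p`-space. -/
def FSub {M X : Type} [AddCommGroup X] [Module ℝ X] (N : X → ℝ) (δ : M → X) (K : Set M) :
    Set X :=
  {v | ∀ ε > 0, ∃ w ∈ Submodule.span ℝ (δ '' K), N (v - w) < ε}

lemma rpow_add_le {p a b : ℝ} (ha : 0 ≤ a) (hb : 0 ≤ b) (hp : 0 ≤ p) (hp1 : p ≤ 1) :
    (a + b) ^ p ≤ a ^ p + b ^ p := by
  have := NNReal.rpow_add_le_add_rpow ⟨a, ha⟩ ⟨b, hb⟩ hp hp1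
  exact_mod_cast this

/-- the weighted `ℓ_p` space of finitely supported families on `M × M` -/
def CC (_p : ℝ) (M : Type) : Type := M × M →₀ ℝ

noncomputable instance (p : ℝ) (M : Type) : AddCommGroup (CC p M) :=
  inferInstanceAs (AddCommGroup (M × M →₀ ℝ))
noncomputable instance (p : ℝ) (M : Type) : Module ℝ (CC p M) :=
  inferInstanceAs (Module ℝ (M × M →₀ ℝ))

/-- the underlying family -/
def toF {p : ℝ} {M : Type} : CC p M →ₗ[ℝ] (M × M →₀ ℝ) where
  toFun c := c
  map_add' _ _ := rfl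
  map_smul' _ _ := rfl

/-- a family as an element of `CC` -/
def ofF {p : ℝ} {M : Type} : (M × M →₀ ℝ) →ₗ[ℝ] CC p M where
  toFun c := c
  map_add' _ _ := rfl
  map_smul' _ _ := rfl

lemma toF_ofF {p : ℝ} {M : Type} (c : M × M →₀ ℝ) : toF (ofF c : CC p M) = c := rfl

/-- the cost -/
noncomputable def cost {p : ℝ} {M : Type} [MetricSpace M] (c : CC p M) : ℝ :=
  (toF c).sum fun q r => (|r| * dist q.1 q.2) ^ p

lemma cost_eq {p : ℝ} (hp : 0 < p) {M : Type} [MetricSpace M] (c : CC p M) (S : Finset (M × M))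
    (hS : (toF c).support ⊆ S) :
    cost c = ∑ q ∈ S, (|toF c q| * dist q.1 q.2) ^ p := by
  unfold cost
  rw [Finsupp.sum_of_support_subset _ hS]
  intro q _
  rw [abs_zero, zero_mul, Real.zero_rpow hp.ne']

lemma cost_nonneg {p : ℝ} {M : Type} [MetricSpace M] (c : CC p M) : 0 ≤ cost c :=
  Finset.sum_nonneg fun _ _ => Real.rpow_nonneg (by positivity) _

noncomputable instance {p : ℝ} [hp : Fact (0 < p ∧ p ≤ 1)] {M : Type} [MetricSpace M] :
    SeminormedAddCommGroup (CC p M) :=
  AddGroupSeminorm.toSeminormedAddCommGroup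
    { toFun := cost
      map_zero' := by unfold cost; rw [map_zero]; exact Finsupp.sum_zero_index
      add_le' := by
        classical
        intro c c'
        set S : Finset (M × M) := (toF c).support ∪ (toF c').support with hS
        have hS3 : (toF (c + c')).support ⊆ S := by
          rw [map_add]; exact Finsupp.support_add
        rw [cost_eq hp.out.1 c S Finset.subset_union_left,
          cost_eq hp.out.1 c' S Finset.subset_union_right,
          cost_eq hp.out.1 (c + c') S hS3, ← Finset.sum_add_distrib]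
        refine Finset.sum_le_sum fun q _ => ?_
        refine le_trans ?_ (rpow_add_le (by positivity) (by positivity) hp.out.1.le hp.out.2)
        refine Real.rpow_le_rpow (by positivity) ?_ hp.out.1.le
        rw [← add_mul, map_add, Finsupp.add_apply]
        exact mul_le_mul_of_nonneg_right (abs_add_le _ _) dist_nonneg
      neg' := by
        intro c
        unfold cost
        rw [map_neg, Finsupp.sum_neg_index (fun q => by
          rw [abs_zero, zero_mul, Real.zero_rpow hp.out.1.ne'])]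
        simp only [abs_neg] }

lemma norm_eq_cost {p : ℝ} [hp : Fact (0 < p ∧ p ≤ 1)] {M : Type} [MetricSpace M] (c : CC p M) :
    ‖c‖ = cost c := rfl

lemma norm_smul_CC {p : ℝ} [hp : Fact (0 < p ∧ p ≤ 1)] {M : Type} [MetricSpace M] (a : ℝ)
    (c : CC p M) : ‖a • c‖ = |a| ^ p * ‖c‖ := by
  rw [norm_eq_cost, norm_eq_cost,
    cost_eq hp.out.1 (a • c) (toF c).support (by rw [map_smul]; exact Finsupp.support_smul),
    cost_eq hp.out.1 c _ (Finset.Subset.refl _), Finset.mul_sum]
  refine Finset.sum_congr rfl fun q _ => ?_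
  rw [map_smul, Finsupp.smul_apply, smul_eq_mul, abs_mul, mul_assoc,
    Real.mul_rpow (abs_nonneg _) (by positivity)]

lemma norm_single_CC {p : ℝ} [hp : Fact (0 < p ∧ p ≤ 1)] {M : Type} [MetricSpace M]
    (q : M × M) (r : ℝ) :
    ‖(ofF (Finsupp.single q r) : CC p M)‖ = (|r| * dist q.1 q.2) ^ p := by
  rw [norm_eq_cost]
  unfold cost
  rw [toF_ofF, Finsupp.sum_single_index]
  rw [abs_zero, zero_mul, Real.zero_rpow hp.out.1.ne']

section Quot

variable {p : ℝ} [hp : Fact (0 < p ∧ p ≤ 1)] {M : Type} [MetricSpace M]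
  (S : Submodule ℝ (CC p M))

lemma norm_smul_quot_le (a : ℝ) (v : CC p M ⧸ S) : ‖a • v‖ ≤ |a| ^ p * ‖v‖ := by
  refine le_of_forall_pos_le_add fun ε hε => ?_
  have hpos : 0 < |a| ^ p + 1 := by have := Real.rpow_nonneg (abs_nonneg a) p; linarith
  obtain ⟨m, rfl, hm⟩ := Submodule.Quotient.norm_mk_lt v (ε := ε / (|a| ^ p + 1))
    (by positivity)
  calc ‖a • (Submodule.Quotient.mk m : CC p M ⧸ S)‖
      = ‖(Submodule.Quotient.mk (a • m) : CC p M ⧸ S)‖ := rfl
    _ ≤ ‖a • m‖ := Submodule.Quotient.norm_mk_le S _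
    _ = |a| ^ p * ‖m‖ := norm_smul_CC a m
    _ ≤ |a| ^ p * (‖(Submodule.Quotient.mk m : CC p M ⧸ S)‖ + ε / (|a| ^ p + 1)) :=
        mul_le_mul_of_nonneg_left hm.le (Real.rpow_nonneg (abs_nonneg a) p)
    _ ≤ |a| ^ p * ‖(Submodule.Quotient.mk m : CC p M ⧸ S)‖ + ε := by
        rw [mul_add]
        have : |a| ^ p * (ε / (|a| ^ p + 1)) ≤ ε := by
          rw [mul_div_assoc', div_le_iff₀ hpos]
          nlinarith
        linarith

lemma norm_smul_quot (a : ℝ) (v : CC p M ⧸ S) : ‖a • v‖ = |a| ^ p * ‖v‖ := by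
  refine le_antisymm (norm_smul_quot_le S a v) ?_
  by_cases ha : a = 0
  · rw [ha, abs_zero, Real.zero_rpow hp.out.1.ne', zero_mul]; exact norm_nonneg _
  · have h1 := norm_smul_quot_le S a⁻¹ (a • v)
    rw [smul_smul, inv_mul_cancel₀ ha, one_smul, abs_inv, Real.inv_rpow (abs_nonneg a)] at h1
    have h2 : 0 < |a| ^ p := Real.rpow_pos_of_pos (abs_pos.2 ha) p
    calc |a| ^ p * ‖v‖ ≤ |a| ^ p * ((|a| ^ p)⁻¹ * ‖a • v‖) :=
          mul_le_mul_of_nonneg_left h1 h2.le
      _ = ‖a • v‖ := by rw [← mul_assoc, mul_inv_cancel₀ h2.ne', one_mul]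

noncomputable instance ucc : UniformContinuousConstSMul ℝ (CC p M ⧸ S) where
  uniformContinuous_const_smul := by
    intro a
    have : LipschitzWith (Real.toNNReal (|a| ^ p)) (fun v : CC p M ⧸ S => a • v) := by
      apply LipschitzWith.of_dist_le_mul
      intro v w
      rw [Real.coe_toNNReal _ (Real.rpow_nonneg (abs_nonneg a) p), dist_eq_norm, dist_eq_norm,
        ← smul_sub, norm_smul_quot]
    exact this.uniformContinuous

lemma norm_smul_compl (a : ℝ) (v : UniformSpace.Completion (CC p M ⧸ S)) :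
    ‖a • v‖ = |a| ^ p * ‖v‖ := by
  induction v using UniformSpace.Completion.induction_on with
  | hp => exact isClosed_eq (continuous_const_smul a).norm (continuous_const.mul continuous_norm)
  | ih v =>
    rw [← UniformSpace.Completion.coe_smul, UniformSpace.Completion.norm_coe,
      UniformSpace.Completion.norm_coe, norm_smul_quot]

end Quot

end Pool.Agent.H164R3.Fp
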