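import Mathlib

set_option autoImplicit false

/-!
# The intersection theorem in dual form

helper164.  `Λ g = ∑ aᵢ (g xᵢ - g yᵢ)` with `∑ |aᵢ| d(xᵢ,yᵢ) < ∞`.  If `Λ` annihilates the
Lipschitz functions vanishing on `K_k`, for every `k`, then it annihilates the Lipschitz functions
vanishing on `⋂ K_k`.  Proof: the supremum `G` of all `1`-Lipschitz `D ≥ 0` such that `Λ` kills
every Lipschitz function between `0` and a multiple of `D` has the same property, and by
maximality it is the distance function of its zero set.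
-/

namespace Pool.Agent.H164R3.Fp

open Filter Topology Metric Set

variable {M : Type} [MetricSpace M] {ι : Type} (a : ι → ℝ) (x y : ι → M)

/-- the functional -/
noncomputable def Lam (g : M → ℝ) : ℝ := ∑' i, a i * (g (x i) - g (y i))

variable {a x y}

lemma term_le {L : NNReal} {g : M → ℝ} (hg : LipschitzWith L g) (i : ι) :
    ‖a i * (g (x i) - g (y i))‖ ≤ L * (|a i| * dist (x i) (y i)) := by
  rw [Real.norm_eq_abs, abs_mul]
  have := hg.dist_le_mul (x i) (y i)
  rw [Real.dist_eq] at this
  calc |a i| * |g (x i) - g (y i)| ≤ |a i| * (L * dist (x i) (y i)) :=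
        mul_le_mul_of_nonneg_left this (abs_nonneg _)
    _ = _ := by ring

lemma summable_lam (hs : Summable fun i => |a i| * dist (x i) (y i)) {L : NNReal} {g : M → ℝ}
    (hg : LipschitzWith L g) : Summable fun i => a i * (g (x i) - g (y i)) :=
  Summable.of_norm_bounded (hs.mul_left (L : ℝ)) fun i => term_le hg i

lemma lam_sub (hs : Summable fun i => |a i| * dist (x i) (y i)) {L L' : NNReal} {g g' : M → ℝ}
    (hg : LipschitzWith L g) (hg' : LipschitzWith L' g') :
    Lam a x y (fun q => g q - g' q) = Lam a x y g - Lam a x y g' := by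
  unfold Lam
  rw [← (summable_lam hs hg).tsum_sub (summable_lam hs hg')]
  exact tsum_congr fun i => by ring

/-- `Λ` kills everything between `0` and a multiple of `D` -/
def Kills (a : ι → ℝ) (x y : ι → M) (D : M → ℝ) : Prop :=
  ∀ (L : NNReal) (C : ℝ) (g : M → ℝ), 0 ≤ C → LipschitzWith L g → (∀ q, 0 ≤ g q) →
    (∀ q, g q ≤ C * D q) → Lam a x y g = 0

/-- the admissible functions -/
def Adm (a : ι → ℝ) (x y : ι → M) (o : M) : Set (M → ℝ) :=
  {D | LipschitzWith 1 D ∧ (∀ q, 0 ≤ D q) ∧ D o = 0 ∧ Kills a x y D}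

lemma adm_le {o : M} {D : M → ℝ} (hD : D ∈ Adm a x y o) (q : M) : D q ≤ dist q o := by
  have h := hD.1.dist_le_mul q o
  rw [hD.2.2.1, Real.dist_eq, sub_zero, NNReal.coe_one, one_mul] at h
  exact (le_abs_self _).trans h

lemma lip_smul {C : ℝ} (hC : 0 ≤ C) {D : M → ℝ} (hD : LipschitzWith 1 D) :
    LipschitzWith (Real.toNNReal C) fun q => C * D q := by
  apply LipschitzWith.of_dist_le_mul
  intro q r
  rw [Real.coe_toNNReal C hC, Real.dist_eq, ← mul_sub, abs_mul, abs_of_nonneg hC]
  have := hD.dist_le_mul q r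
  rw [Real.dist_eq, NNReal.coe_one, one_mul] at this
  exact mul_le_mul_of_nonneg_left this hC

lemma adm_max (hs : Summable fun i => |a i| * dist (x i) (y i)) {o : M} {D D' : M → ℝ}
    (hD : D ∈ Adm a x y o) (hD' : D' ∈ Adm a x y o) :
    (fun q => max (D q) (D' q)) ∈ Adm a x y o := by
  refine ⟨?_, fun q => (hD.2.1 q).trans (le_max_left _ _), ?_, ?_⟩
  · have := hD.1.max hD'.1; rwa [max_self] at this
  · show max (D o) (D' o) = 0
    rw [hD.2.2.1, hD'.2.2.1, max_self]
  · intro L C g hC hg hg0 hgC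
    have h1 : LipschitzWith (max L (Real.toNNReal C)) fun q => min (g q) (C * D q) :=
      hg.min (lip_smul hC hD.1)
    have e1 : Lam a x y (fun q => min (g q) (C * D q)) = 0 :=
      hD.2.2.2 _ C _ hC h1 (fun q => le_min (hg0 q) (mul_nonneg hC (hD.2.1 q)))
        fun q => min_le_right _ _
    have h2 : LipschitzWith (L + max L (Real.toNNReal C))
        fun q => g q - min (g q) (C * D q) := hg.sub h1
    have e2 : Lam a x y (fun q => g q - min (g q) (C * D q)) = 0 := by
      refine hD'.2.2.2 _ C _ hC h2 (fun q => sub_nonneg.2 (min_le_left _ _)) fun q => ?_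
      have h3 : g q ≤ C * max (D q) (D' q) := hgC q
      rcases le_total (D q) (D' q) with h | h
      · rw [max_eq_right h] at h3
        have h4 : 0 ≤ C * D q := mul_nonneg hC (hD.2.1 q)
        have h5 : 0 ≤ min (g q) (C * D q) := le_min (hg0 q) h4
        linarith
      · rw [max_eq_left h] at h3
        rw [min_eq_left h3, sub_self]
        exact mul_nonneg hC (hD'.2.1 q)
    rw [lam_sub hs hg h1, e1, sub_zero] at e2
    exact e2

lemma adm_zero (o : M) : (fun _ => (0:ℝ)) ∈ Adm a x y o := by
  refine ⟨LipschitzWith.const' 0 |>.weaken zero_le_one, fun _ => le_refl _, rfl, ?_⟩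
  intro L C g _ _ hg0 hgC
  have : ∀ q, g q = 0 := fun q => le_antisymm (by simpa using hgC q) (hg0 q)
  unfold Lam
  simp [this]

/-- the supremum of the admissible functions -/
noncomputable def Gs (a : ι → ℝ) (x y : ι → M) (o : M) (q : M) : ℝ :=
  ⨆ D : Adm a x y o, (D : M → ℝ) q

lemma bdd (o q : M) : BddAbove (Set.range fun D : Adm a x y o => (D : M → ℝ) q) :=
  ⟨dist q o, by rintro _ ⟨D, rfl⟩; exact adm_le D.2 q⟩

lemma le_Gs {o : M} {D : M → ℝ} (hD : D ∈ Adm a x y o) (q : M) : D q ≤ Gs a x y o q :=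
  le_ciSup (bdd (a := a) (x := x) (y := y) o q) ⟨D, hD⟩

lemma Gs_adm (hs : Summable fun i => |a i| * dist (x i) (y i)) (o : M) :
    Gs a x y o ∈ Adm a x y o := by
  have hne : Nonempty (Adm a x y o) := ⟨⟨_, adm_zero o⟩⟩
  have hdir : IsDirected (Adm a x y o) (· ≤ ·) := ⟨fun D D' =>
    ⟨⟨_, adm_max hs D.2 D'.2⟩, fun q => le_max_left _ _, fun q => le_max_right _ _⟩⟩
  have hlim : ∀ q, Tendsto (fun D : Adm a x y o => (D : M → ℝ) q) atTop
      (𝓝 (Gs a x y o q)) := fun q =>
    tendsto_atTop_ciSup (fun D D' h => h q) (bdd o q)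
  have h0 : ∀ q, 0 ≤ Gs a x y o q := fun q => le_Gs (adm_zero o) q
  refine ⟨?_, h0, ?_, ?_⟩
  · apply LipschitzWith.of_le_add
    intro q r
    refine ciSup_le fun D => ?_
    have h1 := D.2.1.dist_le_mul q r
    rw [NNReal.coe_one, one_mul, Real.dist_eq] at h1
    have h2 := le_Gs D.2 r
    have h3 := le_abs_self ((D : M → ℝ) q - (D : M → ℝ) r)
    linarith
  · refine le_antisymm (ciSup_le fun D => ?_) (h0 o)
    rw [D.2.2.2.1]
  · intro L C g hC hg hg0 hgC
    have h1 : ∀ D : Adm a x y o, LipschitzWith (max L (Real.toNNReal C))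
        fun q => min (g q) (C * (D : M → ℝ) q) := fun D => hg.min (lip_smul hC D.2.1)
    have e1 : ∀ D : Adm a x y o, Lam a x y (fun q => min (g q) (C * (D : M → ℝ) q)) = 0 :=
      fun D => D.2.2.2.2 _ C _ hC (h1 D)
        (fun q => le_min (hg0 q) (mul_nonneg hC (D.2.2.1 q))) fun q => min_le_right _ _
    have hpt : ∀ q, Tendsto (fun D : Adm a x y o => min (g q) (C * (D : M → ℝ) q)) atTop
        (𝓝 (g q)) := by
      intro q
      have h2 : Tendsto (fun D : Adm a x y o => min (g q) (C * (D : M → ℝ) q)) atTop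
          (𝓝 (min (g q) (C * Gs a x y o q))) :=
        tendsto_const_nhds.min ((hlim q).const_mul C)
      rwa [min_eq_left (hgC q)] at h2
    have h3 : Tendsto (fun D : Adm a x y o =>
        Lam a x y (fun q => min (g q) (C * (D : M → ℝ) q))) atTop (𝓝 (Lam a x y g)) := by
      unfold Lam
      refine tendsto_tsum_of_dominated_convergence
        (bound := fun i => ((max L (Real.toNNReal C) : NNReal) : ℝ) *
          (|a i| * dist (x i) (y i))) (hs.mul_left _) ?_ ?_
      · intro i
        exact ((hpt (x i)).sub (hpt (y i))).const_mul (a i)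
      · exact Eventually.of_forall fun D i => term_le (h1 D) i
    simp only [e1] at h3
    exact (tendsto_nhds_unique h3 tendsto_const_nhds)

lemma step (hs : Summable fun i => |a i| * dist (x i) (y i)) (o q : M) (η : ℝ) (hη : 0 < η) :
    ∃ u, Gs a x y o u < η ∧ dist q u < Gs a x y o q + η := by
  have hG := Gs_adm hs o
  set G := Gs a x y o with hGdef
  have hbb : ∀ q, BddBelow (Set.range fun u => 2 * G u + dist q u) := fun q =>
    ⟨0, by rintro _ ⟨u, rfl⟩; have := hG.2.1 u; have := @dist_nonneg M _ q u; simp only; linarith⟩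
  set h : M → ℝ := fun q => ⨅ u, (2 * G u + dist q u) with hh
  have : Nonempty M := ⟨o⟩
  have hh0 : ∀ q, 0 ≤ h q := fun q => le_ciInf fun u => by
    have := hG.2.1 u; have := @dist_nonneg M _ q u; linarith
  have hhG : ∀ q, h q ≤ 2 * G q := fun q => by
    have := ciInf_le (hbb q) q
    rw [dist_self, add_zero] at this
    exact this
  have hadm : h ∈ Adm a x y o := by
    refine ⟨?_, hh0, ?_, ?_⟩
    · apply LipschitzWith.of_le_add
      intro q r
      have h1 : h q - dist q r ≤ h r := by
        refine le_ciInf fun u => ?_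
        have h2 := ciInf_le (hbb q) u
        have h3 := dist_triangle q r u
        simp only [hh]
        linarith
      linarith
    · refine le_antisymm ?_ (hh0 o)
      have := hhG o
      rw [hG.2.2.1] at this
      linarith
    · intro L C g hC hg hg0 hgC
      refine hG.2.2.2 L (C * 2) g (by positivity) hg hg0 fun q => ?_
      calc g q ≤ C * h q := hgC q
        _ ≤ C * (2 * G q) := mul_le_mul_of_nonneg_left (hhG q) hC
        _ = _ := by ring
  have h4 : h q < G q + η := (le_Gs hadm q).trans_lt (by linarith)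
  obtain ⟨u, hu⟩ := exists_lt_of_ciInf_lt h4
  have h5 := hG.1.dist_le_mul q u
  rw [NNReal.coe_one, one_mul, Real.dist_eq] at h5
  have h6 := le_abs_self (G q - G u)
  have h7 := hG.2.1 u
  exact ⟨u, by linarith, by linarith⟩

lemma exists_zero [CompleteSpace M] (hs : Summable fun i => |a i| * dist (x i) (y i))
    (o q : M) (η : ℝ) (hη : 0 < η) :
    ∃ z, Gs a x y o z = 0 ∧ dist q z ≤ Gs a x y o q + 5 * η := by
  classical
  have hG := Gs_adm hs o
  set G := Gs a x y o with hGdef
  choose! φ hφ1 hφ2 using fun (q : M) (η : ℝ) (hη : 0 < η) => step hs o q η hη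
  set u : ℕ → M := fun n => Nat.rec (φ q η) (fun n v => φ v (η / 2 ^ (n + 1))) n with hu
  have hu0 : u 0 = φ q η := rfl
  have hus : ∀ n, u (n + 1) = φ (u n) (η / 2 ^ (n + 1)) := fun n => rfl
  have hpos : ∀ n : ℕ, 0 < η / 2 ^ n := fun n => by positivity
  have hGu : ∀ n, G (u n) < η / 2 ^ n := by
    intro n
    cases n with
    | zero => rw [hu0, pow_zero, div_one]; exact hφ1 q η hη
    | succ n => rw [hus]; exact hφ1 (u n) _ (hpos (n + 1))
  have hd : ∀ n, dist (u n) (u (n + 1)) ≤ (4 * η) / 2 / 2 ^ n := by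
    intro n
    have h1 := hφ2 (u n) _ (hpos (n + 1))
    have h2 := hGu n
    rw [hus]
    have h3 : η / 2 ^ (n + 1) ≤ η / 2 ^ n := by
      apply div_le_div_of_nonneg_left hη.le (by positivity)
      exact pow_le_pow_right₀ (by norm_num) (Nat.le_succ n)
    have h4 : (4 * η) / 2 / 2 ^ n = η / 2 ^ n + η / 2 ^ n := by ring
    rw [h4]
    linarith
  have hc : CauchySeq u := cauchySeq_of_le_geometric_two hd
  obtain ⟨z, hz⟩ := cauchySeq_tendsto_of_complete hc
  refine ⟨z, ?_, ?_⟩
  · have h1 : Tendsto (fun n => G (u n)) atTop (𝓝 (G z)) :=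
      (hG.1.continuous.tendsto z).comp hz
    have h2 : Tendsto (fun n => η / 2 ^ n) atTop (𝓝 0) := by
      have := (tendsto_pow_atTop_nhds_zero_of_lt_one (r := (1/2:ℝ)) (by norm_num)
        (by norm_num)).const_mul η
      simp only [mul_zero] at this
      refine this.congr fun n => ?_
      rw [div_pow, one_pow]; ring
    exact le_antisymm (le_of_tendsto_of_tendsto' h1 h2 fun n => (hGu n).le) (hG.2.1 z)
  · have h1 : dist (u 0) z ≤ 4 * η := dist_le_of_le_geometric_two_of_tendsto₀ hd hz
    have h2 := hφ2 q η hη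
    rw [← hu0] at h2
    have h3 := dist_triangle q (u 0) z
    linarith

theorem inter_annihilate [CompleteSpace M] (o : M)
    (hs : Summable fun i => |a i| * dist (x i) (y i)) {κ : Type} (K : κ → Set M)
    (hK : ∀ k, IsClosed (K k)) (ho : ∀ k, o ∈ K k)
    (h : ∀ k, ∀ (L : NNReal) (g : M → ℝ), LipschitzWith L g → (∀ z ∈ K k, g z = 0) →
      Lam a x y g = 0)
    (g : M → ℝ) (hg : LipschitzWith 1 g) (hg0 : ∀ z ∈ ⋂ k, K k, g z = 0) :
    Lam a x y g = 0 := by
  have hG := Gs_adm hs o
  have hKG : ∀ k q, infDist q (K k) ≤ Gs a x y o q := by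
    intro k q
    refine le_Gs (D := fun q => infDist q (K k)) ?_ q
    refine ⟨lipschitz_infDist_pt _, fun _ => infDist_nonneg, infDist_zero_of_mem (ho k), ?_⟩
    intro L C g _ hg hg0 hgC
    refine h k L g hg fun z hz => ?_
    have : g z ≤ C * infDist z (K k) := hgC z
    rw [infDist_zero_of_mem hz, mul_zero] at this
    exact le_antisymm this (hg0 z)
  have hZ : ∀ z, Gs a x y o z = 0 → z ∈ ⋂ k, K k := by
    intro z hz
    refine mem_iInter.2 fun k => ?_
    rw [(hK k).mem_iff_infDist_zero ⟨o, ho k⟩]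
    exact le_antisymm (by rw [← hz]; exact hKG k z) infDist_nonneg
  have hle : ∀ q, |g q| ≤ Gs a x y o q := by
    intro q
    refine le_of_forall_pos_le_add fun ε hε => ?_
    obtain ⟨z, hz, hd⟩ := exists_zero hs o q (ε / 5) (by positivity)
    have h1 := hg.dist_le_mul q z
    rw [hg0 z (hZ z hz), Real.dist_eq, sub_zero, NNReal.coe_one, one_mul] at h1
    linarith
  have hp : LipschitzWith 1 fun q => max (g q) 0 := by
    have := hg.max (LipschitzWith.const' (α := M) (0:ℝ) |>.weaken (zero_le_one))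
    rwa [max_self] at this
  have hn : LipschitzWith 1 fun q => max (-(g q)) 0 := by
    have := hg.neg.max (LipschitzWith.const' (α := M) (0:ℝ) |>.weaken (zero_le_one))
    rwa [max_self] at this
  have e1 : Lam a x y (fun q => max (g q) 0) = 0 :=
    hG.2.2.2 1 1 _ zero_le_one hp (fun q => le_max_right _ _) fun q => by
      rw [one_mul]; exact max_le ((le_abs_self _).trans (hle q)) (hG.2.1 q)
  have e2 : Lam a x y (fun q => max (-(g q)) 0) = 0 :=
    hG.2.2.2 1 1 _ zero_le_one hn (fun q => le_max_right _ _) fun q => by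
      rw [one_mul]; exact max_le ((neg_le_abs _).trans (hle q)) (hG.2.1 q)
  have e3 := lam_sub hs hp hn
  rw [e1, e2, sub_zero] at e3
  have e4 : (fun q => max (g q) 0 - max (-(g q)) 0) = g := by
    funext q
    rcases le_total (g q) 0 with h | h
    · rw [max_eq_right h, max_eq_left (by linarith)]; ring
    · rw [max_eq_left h, max_eq_right (by linarith)]; ring
  rwa [e4] at e3

end Pool.Agent.H164R3.Fp
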