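import Mathlib
import Pool.Agent.H164R3.FpApprox
import Pool.Agent.H164R3.FpInter
import Pool.Agent.H164R3.FpFree

set_option autoImplicit false

/-!
# Representations, and the two main statements for a normed model

helper164.
-/

namespace Pool.Agent.H164R3.Fp

open Filter Topology Set

variable {p : ℝ} {M X : Type} [MetricSpace M] [NormedAddCommGroup X] [Module ℝ X]

/-- a finitely supported family as an element of `X` -/
noncomputable def val (δ : M → X) (c : M × M →₀ ℝ) : X := c.sum fun q r => r • (δ q.1 - δ q.2)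

/-- the cost of a finitely supported family -/
noncomputable def cst (p : ℝ) (c : M × M →₀ ℝ) : ℝ := c.sum fun q r => (|r| * dist q.1 q.2) ^ p

/-- the norm formula -/
def NormForm (p : ℝ) (δ : M → X) : Prop :=
  ∀ v ∈ Submodule.span ℝ (Set.range δ), ∀ ε > 0, ∃ c : M × M →₀ ℝ, val δ c = v ∧
    cst p c < ‖v‖ + ε

lemma summable_of_rpow {ι : Type} (t : ι → ℝ) (ht : ∀ i, 0 ≤ t i) (p : ℝ) (hp : 0 < p)
    (hp1 : p ≤ 1) (hs : Summable fun i => t i ^ p) : Summable t := by
  set S := ∑' i, t i ^ p with hS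
  have h1 : ∀ i, t i ≤ S ^ (1 / p) := by
    intro i
    have h2 : t i ^ p ≤ S := hs.le_tsum i fun j _ => Real.rpow_nonneg (ht j) p
    have h3 := Real.rpow_le_rpow (Real.rpow_nonneg (ht i) p) h2 (by positivity : 0 ≤ 1 / p)
    rwa [← Real.rpow_mul (ht i), mul_one_div, div_self hp.ne', Real.rpow_one] at h3
  have hS0 : 0 ≤ S := tsum_nonneg fun i => Real.rpow_nonneg (ht i) p
  refine Summable.of_nonneg_of_le ht (fun i => ?_) (hs.mul_left ((S ^ (1 / p)) ^ (1 - p)))
  have h4 : t i = t i ^ (1 - p) * t i ^ p := by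
    rw [← Real.rpow_add' (ht i) (by norm_num)]
    norm_num
  calc t i = t i ^ (1 - p) * t i ^ p := h4
    _ ≤ (S ^ (1 / p)) ^ (1 - p) * t i ^ p := by
        refine mul_le_mul_of_nonneg_right ?_ (Real.rpow_nonneg (ht i) p)
        exact Real.rpow_le_rpow (ht i) (h1 i) (by linarith)

/-- every element of `X` is a sum of elementary transports -/
theorem exists_rep [CompleteSpace X] (hp : 0 < p)
    (hsm : ∀ (a : ℝ) (v : X), ‖a • v‖ = |a| ^ p * ‖v‖) (δ : M → X)
    (hiso : ∀ x y, ‖δ x - δ y‖ = dist x y ^ p)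
    (hdense : ∀ v : X, ∀ ε > 0, ∃ w ∈ Submodule.span ℝ (Set.range δ), ‖v - w‖ < ε)
    (hnf : NormForm p δ) (γ : X) :
    ∃ (ι : Type) (a : ι → ℝ) (x y : ι → M),
      (Summable fun i => (|a i| * dist (x i) (y i)) ^ p) ∧
      HasSum (fun i => a i • (δ (x i) - δ (y i))) γ := by
  classical
  choose w hwmem hw using fun n : ℕ => hdense γ ((1/2 : ℝ) ^ n) (by positivity)
  set v : ℕ → X := fun n => Nat.casesOn n (w 0) fun n => w (n + 1) - w n with hv
  have hv0 : v 0 = w 0 := rfl
  have hvs : ∀ n, v (n + 1) = w (n + 1) - w n := fun n => rfl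
  have hvmem : ∀ n, v n ∈ Submodule.span ℝ (Set.range δ) := by
    intro n
    cases n with
    | zero => exact hwmem 0
    | succ n => exact Submodule.sub_mem _ (hwmem _) (hwmem _)
  have hvn : ∀ n, ‖v (n + 1)‖ ≤ 2 * (1/2 : ℝ) ^ n := by
    intro n
    have h1 : v (n + 1) = (γ - w n) - (γ - w (n + 1)) := by rw [hvs]; abel
    rw [h1]
    refine (norm_sub_le _ _).trans ?_
    have h2 := (hw n).le
    have h3 := (hw (n + 1)).le
    have h4 : (1/2 : ℝ) ^ (n + 1) ≤ (1/2) ^ n := by
      rw [pow_succ]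
      have : (0:ℝ) < (1/2) ^ n := by positivity
      linarith
    linarith
  choose c hc1 hc2 using fun n : ℕ => hnf (v n) (hvmem n) ((1/2 : ℝ) ^ n) (by positivity)
  have hsumv : ∀ n, ∑ k ∈ Finset.range (n + 1), v k = w n := by
    intro n
    induction n with
    | zero => simp [hv0]
    | succ n ih => rw [Finset.sum_range_succ, ih, hvs]; abel
  -- the double family
  set F : ℕ × (M × M) → ℝ := fun i => (|c i.1 i.2| * dist i.2.1 i.2.2) ^ p with hF
  have hF0 : ∀ i, 0 ≤ F i := fun i => Real.rpow_nonneg (by positivity) p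
  have hFn : ∀ n, Summable fun q => F (n, q) := by
    intro n
    refine summable_of_hasFiniteSupport ((c n).support.finite_toSet.subset ?_)
    intro q hq
    rw [Finset.mem_coe, Finsupp.mem_support_iff]
    intro h0
    apply hq
    show (|c n q| * dist q.1 q.2) ^ p = 0
    rw [h0, abs_zero, zero_mul, Real.zero_rpow hp.ne']
  have hFt : ∀ n, ∑' q, F (n, q) = cst p (c n) := by
    intro n
    unfold cst Finsupp.sum
    refine tsum_eq_sum fun q hq => ?_
    rw [Finsupp.notMem_support_iff] at hq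
    show (|c n q| * dist q.1 q.2) ^ p = 0
    rw [hq, abs_zero, zero_mul, Real.zero_rpow hp.ne']
  have hFs : Summable F := by
    rw [summable_prod_of_nonneg hF0]
    refine ⟨hFn, ?_⟩
    simp only [hFt]
    rw [← summable_nat_add_iff 1]
    refine Summable.of_nonneg_of_le (fun n => ?_) (fun n => ?_)
      ((summable_geometric_of_lt_one (r := (1/2:ℝ)) (by norm_num) (by norm_num)).mul_left 3)
    · rw [← hFt]; exact tsum_nonneg fun q => hF0 _
    · have h1 := (hc2 (n + 1)).le
      have h2 := hvn n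
      have h4 : (1/2 : ℝ) ^ (n + 1) ≤ (1/2) ^ n := by
        rw [pow_succ]
        have : (0:ℝ) < (1/2) ^ n := by positivity
        linarith
      linarith
  refine ⟨ℕ × (M × M), fun i => c i.1 i.2, fun i => i.2.1, fun i => i.2.2, hFs, ?_⟩
  set f : ℕ × (M × M) → X := fun i => c i.1 i.2 • (δ i.2.1 - δ i.2.2) with hf
  have hfn : ∀ i, ‖f i‖ = F i := by
    intro i
    rw [hf, hF]
    simp only
    rw [hsm, hiso, ← Real.mul_rpow (abs_nonneg _) dist_nonneg]
  have hfs : Summable f := Summable.of_norm (by simpa only [hfn] using hFs)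
  have hft : ∀ n, ∑' q, f (n, q) = v n := by
    intro n
    rw [← hc1 n]
    unfold val Finsupp.sum
    refine tsum_eq_sum fun q hq => ?_
    rw [Finsupp.notMem_support_iff] at hq
    show c n q • (δ q.1 - δ q.2) = 0
    rw [hq, zero_smul]
  have h5 : HasSum v (∑' i, f i) := by
    have := hfs.hasSum.prod_fiberwise (g := v) (fun n => by
      have h6 : Summable fun q => f (n, q) := hfs.comp_injective (Prod.mk_right_injective n)
      rw [← hft n]
      exact h6.hasSum)
    exact this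
  have h7 := h5.tendsto_sum_nat
  have h8 : Tendsto (fun n => ∑ k ∈ Finset.range (n + 1), v k) atTop (𝓝 (∑' i, f i)) :=
    (tendsto_add_atTop_iff_nat 1).2 h7
  simp only [hsumv] at h8
  have h9 : Tendsto w atTop (𝓝 γ) := by
    rw [tendsto_iff_norm_sub_tendsto_zero]
    refine squeeze_zero (fun _ => norm_nonneg _) (fun n => ?_)
      (tendsto_pow_atTop_nhds_zero_of_lt_one (r := (1/2:ℝ)) (by norm_num) (by norm_num))
    rw [norm_sub_rev]; exact (hw n).le
  have h10 := tendsto_nhds_unique h8 h9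
  rw [← h10]
  exact hfs.hasSum

/-- If the functional of `γ` kills the `1`-Lipschitz functions vanishing on the closed set `Z`,
then `γ` is in the closed span of `δ(Z)`. -/
theorem approx_of_kill [CompleteSpace X] (hp : 0 < p) (hp1 : p ≤ 1)
    (hsm : ∀ (a : ℝ) (v : X), ‖a • v‖ = |a| ^ p * ‖v‖) (δ : M → X)
    (hiso : ∀ x y, ‖δ x - δ y‖ = dist x y ^ p) (Z : Set M) (hZ : Z.Nonempty)
    (hZc : IsClosed Z) {ι : Type} (a : ι → ℝ) (x y : ι → M)
    (hs : Summable fun i => (|a i| * dist (x i) (y i)) ^ p) (γ : X)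
    (hγ : HasSum (fun i => a i • (δ (x i) - δ (y i))) γ)
    (h : ∀ f : M → ℝ, LipschitzWith 1 f → (∀ z ∈ Z, f z = 0) → Lam a x y f = 0) :
    ∀ ε > 0, ∃ z ∈ Submodule.span ℝ (δ '' Z), ‖γ - z‖ < ε := by
  classical
  intro ε hε
  set t : ι → ℝ := fun i => |a i| * dist (x i) (y i) with ht
  have ht0 : ∀ i, 0 ≤ t i := fun i => by positivity
  have hst : Summable t := summable_of_rpow t ht0 p hp hp1 hs
  set S := ∑' i, t i ^ p with hS
  have hS0 : 0 ≤ S := tsum_nonneg fun i => Real.rpow_nonneg (ht0 i) p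
  set C : ℝ := 1 + 4 * (S + 1) with hC
  have hC0 : 0 < C := by positivity
  set e : ℝ := min 1 ((ε / (2 * C)) ^ (1 / p)) with he
  have he0 : 0 < e := lt_min one_pos (Real.rpow_pos_of_pos (by positivity) _)
  have he1 : e ≤ 1 := min_le_left _ _
  have hep : e ^ p ≤ ε / (2 * C) := by
    calc e ^ p ≤ ((ε / (2 * C)) ^ (1 / p)) ^ p :=
          Real.rpow_le_rpow he0.le (min_le_right _ _) hp.le
      _ = ε / (2 * C) := by
          rw [← Real.rpow_mul (by positivity), one_div_mul_cancel hp.ne', Real.rpow_one]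
  have hee : e ≤ e ^ p := by
    calc e = e ^ (1:ℝ) := (Real.rpow_one e).symm
      _ ≤ e ^ p := Real.rpow_le_rpow_of_exponent_ge he0 he1 hp1
  obtain ⟨I, θ, hθ0, hθ1, hI1, hI2, hI3⟩ := threshold t ht0 p hp hs e he0
  set V : ℝ := θ ^ (1 - p) * e with hV
  have hV0 : 0 < V := mul_pos (Real.rpow_pos_of_pos hθ0 _) he0
  have hsub : Summable fun i : {i // i ∉ I} => t i := hst.subtype _
  have hsubp : Summable fun i : {i // i ∉ I} => t i ^ p := hs.subtype _
  have htail : ∑' i : {i // i ∉ I}, t i ≤ V := by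
    have h1 : ∑' i : {i // i ∉ I}, t i ≤ ∑' i : {i // i ∉ I}, θ ^ (1 - p) * t i ^ p := by
      refine hsub.tsum_le_tsum (fun i => ?_) (hsubp.mul_left _)
      have h4 : t i = t i ^ (1 - p) * t i ^ p := by
        rw [← Real.rpow_add' (ht0 i) (by norm_num)]
        norm_num
      calc t i = t i ^ (1 - p) * t i ^ p := h4
        _ ≤ θ ^ (1 - p) * t i ^ p := by
            refine mul_le_mul_of_nonneg_right ?_ (Real.rpow_nonneg (ht0 i) p)
            exact Real.rpow_le_rpow (ht0 i) (hI1 i i.2) (by linarith)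
    rw [tsum_mul_left] at h1
    exact h1.trans (mul_le_mul_of_nonneg_left hI3 (Real.rpow_nonneg hθ0.le _))
  have hdual : ∀ f : M → ℝ, LipschitzWith 1 f → (∀ z ∈ Z, f z = 0) →
      ∑ i ∈ I, a i * (f (x i) - f (y i)) ≤ V := by
    intro f hf hfz
    have h1 := (summable_lam hst hf).sum_add_tsum_subtype_compl I
    have h2 : ∑' i, a i * (f (x i) - f (y i)) = 0 := h f hf hfz
    rw [h2] at h1
    have h3 : |∑' i : {i // i ∉ I}, a i * (f (x i) - f (y i))| ≤ V := by
      rw [← Real.norm_eq_abs]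
      have hb : ∀ i : {i // i ∉ I}, ‖a i * (f (x i) - f (y i))‖ ≤ t i := by
        intro i
        have := term_le (a := a) (x := x) (y := y) hf i
        rwa [NNReal.coe_one, one_mul] at this
      exact (tsum_of_norm_bounded hsub.hasSum hb).trans htail
    have h4 := neg_abs_le (∑' i : {i // i ∉ I}, a i * (f (x i) - f (y i)))
    linarith
  obtain ⟨z, hz, hz2⟩ := finite_approx hp hp1 hsm δ hiso Z hZ hZc I a x y V hV0 hdual
  refine ⟨z, hz, ?_⟩
  have h5 : ‖γ - ∑ i ∈ I, a i • (δ (x i) - δ (y i))‖ ≤ e := by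
    have h6 := hγ.summable.sum_add_tsum_subtype_compl I
    rw [hγ.tsum_eq] at h6
    have h7 : γ - ∑ i ∈ I, a i • (δ (x i) - δ (y i)) =
        ∑' i : {i // i ∉ I}, a i • (δ (x i) - δ (y i)) := by rw [← h6]; abel
    rw [h7]
    refine (tsum_of_norm_bounded hsubp.hasSum fun i => ?_).trans hI3
    rw [hsm, hiso, ← Real.mul_rpow (abs_nonneg _) dist_nonneg]
  have h8 : V ^ p * (2 * (I.card : ℝ) + 1) ^ (1 - p) ≤ 2 * (S + 1) * e ^ p := by
    have h9 : V ^ p = (θ ^ p) ^ (1 - p) * e ^ p := by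
      rw [hV, Real.mul_rpow (Real.rpow_nonneg hθ0.le _) he0.le, ← Real.rpow_mul hθ0.le,
        ← Real.rpow_mul hθ0.le, mul_comm p]
    have h10 : (2 * (I.card : ℝ) + 1) ^ (1 - p) ≤ 2 * ((I.card : ℝ) + 1) ^ (1 - p) := by
      calc (2 * (I.card : ℝ) + 1) ^ (1 - p) ≤ (2 * ((I.card : ℝ) + 1)) ^ (1 - p) :=
            Real.rpow_le_rpow (by positivity) (by linarith) (by linarith)
        _ = 2 ^ (1 - p) * ((I.card : ℝ) + 1) ^ (1 - p) :=
            Real.mul_rpow (by norm_num) (by positivity)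
        _ ≤ 2 * ((I.card : ℝ) + 1) ^ (1 - p) := by
            refine mul_le_mul_of_nonneg_right ?_ (Real.rpow_nonneg (by positivity) _)
            calc (2:ℝ) ^ (1 - p) ≤ 2 ^ (1:ℝ) :=
                  Real.rpow_le_rpow_of_exponent_le (by norm_num) (by linarith)
              _ = 2 := Real.rpow_one 2
    have h11 : (θ ^ p) ^ (1 - p) * ((I.card : ℝ) + 1) ^ (1 - p) ≤ S + 1 := by
      rw [← Real.mul_rpow (Real.rpow_nonneg hθ0.le _) (by positivity)]
      calc (θ ^ p * ((I.card : ℝ) + 1)) ^ (1 - p) ≤ (S + 1) ^ (1 - p) := by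
            refine Real.rpow_le_rpow (mul_nonneg (Real.rpow_nonneg hθ0.le _) (by positivity)) ?_
              (by linarith)
            rw [mul_comm]; exact hI2
        _ ≤ (S + 1) ^ (1:ℝ) :=
            Real.rpow_le_rpow_of_exponent_le (by linarith) (by linarith)
        _ = S + 1 := Real.rpow_one _
    rw [h9]
    have hep0 : 0 ≤ e ^ p := Real.rpow_nonneg he0.le _
    have hθp : 0 ≤ (θ ^ p) ^ (1 - p) := Real.rpow_nonneg (Real.rpow_nonneg hθ0.le _) _
    calc (θ ^ p) ^ (1 - p) * e ^ p * (2 * (I.card : ℝ) + 1) ^ (1 - p)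
        ≤ (θ ^ p) ^ (1 - p) * e ^ p * (2 * ((I.card : ℝ) + 1) ^ (1 - p)) :=
          mul_le_mul_of_nonneg_left h10 (mul_nonneg hθp hep0)
      _ = 2 * ((θ ^ p) ^ (1 - p) * ((I.card : ℝ) + 1) ^ (1 - p)) * e ^ p := by ring
      _ ≤ 2 * (S + 1) * e ^ p := by
          refine mul_le_mul_of_nonneg_right ?_ hep0
          linarith
  have h12 : ‖γ - z‖ ≤ e + 2 * (2 * (S + 1) * e ^ p) := by
    calc ‖γ - z‖ = ‖(γ - ∑ i ∈ I, a i • (δ (x i) - δ (y i))) +
          ((∑ i ∈ I, a i • (δ (x i) - δ (y i))) - z)‖ := by congr 1; abel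
      _ ≤ _ := norm_add_le _ _
      _ ≤ e + 2 * (2 * (S + 1) * e ^ p) := by
          refine add_le_add h5 (hz2.trans ?_)
          linarith
  have h13 : e + 2 * (2 * (S + 1) * e ^ p) ≤ C * e ^ p := by
    rw [hC]; linarith
  have h14 : C * e ^ p ≤ ε / 2 := by
    calc C * e ^ p ≤ C * (ε / (2 * C)) := mul_le_mul_of_nonneg_left hep hC0.le
      _ = ε / 2 := by rw [mul_div_assoc', mul_comm 2 C, mul_div_mul_left _ _ hC0.ne']
  linarith

end Pool.Agent.H164R3.Fp
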