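import Mathlib
import Pool.Agent.H164R3.FpRep

set_option autoImplicit false

/-!
# The intersection property of Lipschitz free p-spaces

helper164.
-/

namespace Pool.Agent.H164R3.Fp

open Filter Topology Set

/-- the real line with the absolute value is a `p`-Banach space -/
lemma isPBanach_abs {p : ℝ} (hp : 0 < p) (hp1 : p ≤ 1) : IsPBanach p (fun r : ℝ => |r|) where
  nonneg := fun v => abs_nonneg v
  eq_zero := fun v h => abs_eq_zero.1 h
  smul := fun a v => by rw [smul_eq_mul, abs_mul]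
  add := fun v w =>
    (Real.rpow_le_rpow (abs_nonneg _) (abs_add_le v w) hp.le).trans
      (rpow_add_le (abs_nonneg _) (abs_nonneg _) hp.le hp1)
  complete := by
    intro u hu
    have hc : CauchySeq u := by
      rw [Metric.cauchySeq_iff]
      intro ε hε
      obtain ⟨k, hk⟩ := hu ε hε
      exact ⟨k, fun m hm n hn => by rw [Real.dist_eq]; exact hk m hm n hn⟩
    obtain ⟨l, hl⟩ := cauchySeq_tendsto_of_complete hc
    refine ⟨l, fun ε hε => ?_⟩
    obtain ⟨k, hk⟩ := Metric.tendsto_atTop.1 hl ε hε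
    exact ⟨k, fun n hn => by have := hk n hn; rwa [Real.dist_eq] at this⟩

/-- a complete normed group with `‖a v‖ = |a|^p ‖v‖` is a `p`-Banach space for `‖v‖^(1/p)` -/
lemma isPBanach_of_norm {p : ℝ} (hp : 0 < p) {Y : Type} [NormedAddCommGroup Y] [Module ℝ Y]
    [CompleteSpace Y] (hsm : ∀ (a : ℝ) (v : Y), ‖a • v‖ = |a| ^ p * ‖v‖) :
    IsPBanach p (fun v : Y => ‖v‖ ^ (1 / p)) := by
  have hpp : ∀ r : ℝ, 0 ≤ r → (r ^ (1 / p)) ^ p = r := fun r hr => by
    rw [← Real.rpow_mul hr, one_div_mul_cancel hp.ne', Real.rpow_one]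
  refine ⟨⟨fun v => Real.rpow_nonneg (norm_nonneg _) _, ?_, ?_, ?_⟩, ?_⟩
  · intro v hv
    have h1 := hpp ‖v‖ (norm_nonneg _)
    have h2 : ‖v‖ ^ (1 / p) = 0 := hv
    rw [h2, Real.zero_rpow hp.ne'] at h1
    exact norm_eq_zero.1 h1.symm
  · intro a v
    show ‖a • v‖ ^ (1 / p) = |a| * ‖v‖ ^ (1 / p)
    rw [hsm, Real.mul_rpow (Real.rpow_nonneg (abs_nonneg _) _) (norm_nonneg _),
      ← Real.rpow_mul (abs_nonneg _), mul_one_div, div_self hp.ne', Real.rpow_one]
  · intro v w
    show (‖v + w‖ ^ (1 / p)) ^ p ≤ (‖v‖ ^ (1 / p)) ^ p + (‖w‖ ^ (1 / p)) ^ p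
    rw [hpp _ (norm_nonneg _), hpp _ (norm_nonneg _), hpp _ (norm_nonneg _)]
    exact norm_add_le _ _
  · intro u hu
    have hlt : ∀ r ε : ℝ, 0 ≤ r → 0 < ε → r ^ (1 / p) < ε ^ (1 / p) → r < ε := by
      intro r ε hr hε h
      exact (Real.rpow_lt_rpow_iff hr hε.le (by positivity)).1 h
    have hc : CauchySeq u := by
      rw [Metric.cauchySeq_iff]
      intro ε hε
      obtain ⟨k, hk⟩ := hu (ε ^ (1 / p)) (Real.rpow_pos_of_pos hε _)
      refine ⟨k, fun m hm n hn => ?_⟩
      rw [dist_eq_norm]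
      exact hlt _ _ (norm_nonneg _) hε (hk m hm n hn)
    obtain ⟨l, hl⟩ := cauchySeq_tendsto_of_complete hc
    refine ⟨l, fun ε hε => ?_⟩
    obtain ⟨k, hk⟩ := Metric.tendsto_atTop.1 hl (ε ^ p) (Real.rpow_pos_of_pos hε _)
    refine ⟨k, fun n hn => ?_⟩
    have h1 := hk n hn
    rw [dist_eq_norm] at h1
    have h2 := Real.rpow_lt_rpow (norm_nonneg _) h1 (by positivity : 0 < 1 / p)
    rwa [← Real.rpow_mul hε.le, mul_one_div, div_self hp.ne', Real.rpow_one] at h2

/-- the normed group structure `‖v‖ = N(v)^p` -/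
@[reducible] noncomputable def toNACG {p : ℝ} (hp : 0 < p) {X : Type} [AddCommGroup X]
    [Module ℝ X] {N : X → ℝ} (h : IsPNorm p N) : NormedAddCommGroup X :=
  AddGroupNorm.toNormedAddCommGroup
    { toFun := fun v => N v ^ p
      map_zero' := by
        have : N 0 = 0 := by
          have h1 := h.smul 0 0
          rwa [zero_smul, abs_zero, zero_mul] at h1
        show N 0 ^ p = 0
        rw [this, Real.zero_rpow hp.ne']
      add_le' := fun v w => h.add v w
      neg' := fun v => by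
        have h1 := h.smul (-1) v
        rw [neg_smul, one_smul, abs_neg, abs_one, one_mul] at h1
        show N (-v) ^ p = N v ^ p
        rw [h1]
      eq_zero_of_map_eq_zero' := fun v hv => by
        have hv' : N v ^ p = 0 := hv
        rw [Real.rpow_eq_zero (h.nonneg v) hp.ne'] at hv'
        exact h.eq_zero v hv' }

section Main

variable {p : ℝ} {M X : Type} [MetricSpace M] [NormedAddCommGroup X] [Module ℝ X]

/-- the norm formula, from the universal property -/
theorem normForm_of_univ (hp : 0 < p) (hp1 : p ≤ 1) (o : M) (δ : M → X) (hbase : δ o = 0)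
    (huniv : ∀ (Y : Type) [AddCommGroup Y] [Module ℝ Y] (N' : Y → ℝ), IsPBanach p N' →
    ∀ (f : M → Y) (L : ℝ), 0 ≤ L → f o = 0 → (∀ x y, N' (f x - f y) ≤ L * dist x y) →
      ∃ T : X →ₗ[ℝ] Y, (∀ x, T (δ x) = f x) ∧ ∀ v, N' (T v) ≤ L * ‖v‖ ^ (1 / p)) :
    NormForm p δ := by
  have : Fact (0 < p ∧ p ≤ 1) := ⟨⟨hp, hp1⟩⟩
  set S : CC p M →ₗ[ℝ] X :=
    (Finsupp.linearCombination ℝ (fun q : M × M => δ q.1 - δ q.2)).comp toF with hS
  have hSv : ∀ c : CC p M, S c = val δ (toF c) := fun c => rfl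
  have hSs : ∀ q : M × M, ∀ r : ℝ, S (ofF (Finsupp.single q r)) = r • (δ q.1 - δ q.2) := by
    intro q r
    rw [hSv, toF_ofF]
    unfold val
    exact Finsupp.sum_single_index (zero_smul ℝ (δ q.1 - δ q.2))
  set K := LinearMap.ker S with hK
  set mk : CC p M →ₗ[ℝ] UniformSpace.Completion (CC p M ⧸ K) :=
    { toFun := fun c => ((Submodule.Quotient.mk c : CC p M ⧸ K) :
        UniformSpace.Completion (CC p M ⧸ K))
      map_add' := fun c c' => by
        rw [Submodule.Quotient.mk_add, UniformSpace.Completion.coe_add]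
      map_smul' := fun a c => by
        rw [Submodule.Quotient.mk_smul, UniformSpace.Completion.coe_smul, RingHom.id_apply] }
    with hmk
  have hmkn : ∀ c, ‖mk c‖ = ‖(Submodule.Quotient.mk c : CC p M ⧸ K)‖ := fun c =>
    UniformSpace.Completion.norm_coe _
  have hmke : ∀ c c', S c = S c' → mk c = mk c' := by
    intro c c' h
    show ((Submodule.Quotient.mk c : CC p M ⧸ K) : UniformSpace.Completion (CC p M ⧸ K)) =
      ((Submodule.Quotient.mk c' : CC p M ⧸ K) : UniformSpace.Completion (CC p M ⧸ K))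
    have : (Submodule.Quotient.mk c : CC p M ⧸ K) = Submodule.Quotient.mk c' := by
      rw [Submodule.Quotient.eq, hK, LinearMap.mem_ker, map_sub, h, sub_self]
    rw [this]
  set e : M → CC p M := fun x => ofF (Finsupp.single (x, o) 1) with he
  have hSe : ∀ x, S (e x) = δ x := fun x => by
    rw [he]; simp only; rw [hSs, one_smul, hbase, sub_zero]
  obtain ⟨T, hT1, hT2⟩ := huniv (UniformSpace.Completion (CC p M ⧸ K))
    (fun v => ‖v‖ ^ (1 / p)) (isPBanach_of_norm hp (norm_smul_compl K)) (fun x => mk (e x)) 1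
    zero_le_one
    (by
      have h1 : mk (e o) = mk 0 := hmke _ _ (by rw [hSe, hbase, map_zero])
      rw [h1, map_zero])
    (by
      intro x y
      have h1 : mk (e x) - mk (e y) = mk (ofF (Finsupp.single (x, y) 1)) := by
        rw [← map_sub]
        refine hmke _ _ ?_
        rw [map_sub, hSe, hSe, hSs, one_smul]
      have h2 : ‖mk (e x) - mk (e y)‖ ≤ dist x y ^ p := by
        rw [h1, hmkn]
        refine (Submodule.Quotient.norm_mk_le K _).trans ?_
        rw [norm_single_CC, abs_one, one_mul]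
      calc ‖mk (e x) - mk (e y)‖ ^ (1 / p) ≤ (dist x y ^ p) ^ (1 / p) :=
            Real.rpow_le_rpow (norm_nonneg _) h2 (by positivity)
        _ = 1 * dist x y := by
            rw [← Real.rpow_mul dist_nonneg, mul_one_div, div_self hp.ne', Real.rpow_one,
              one_mul])
  intro v hv ε hε
  rw [Finsupp.mem_span_range_iff_exists_finsupp] at hv
  obtain ⟨μ, hμ⟩ := hv
  set c0 : CC p M := ∑ x ∈ μ.support, μ x • e x with hc0
  have hμ' : ∑ x ∈ μ.support, μ x • δ x = v := hμ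
  have hSc0 : S c0 = v := by
    rw [hc0, map_sum, ← hμ']
    exact Finset.sum_congr rfl fun x _ => by rw [map_smul, hSe]
  have hTv : T v = mk c0 := by
    rw [hc0, map_sum, ← hμ', map_sum]
    exact Finset.sum_congr rfl fun x _ => by rw [map_smul, map_smul, hT1]
  have h3 : ‖mk c0‖ ≤ ‖v‖ := by
    have h4 := hT2 v
    rw [hTv, one_mul] at h4
    exact (Real.rpow_le_rpow_iff (norm_nonneg _) (norm_nonneg _) (by positivity)).1 h4
  obtain ⟨m, hm1, hm2⟩ := Submodule.Quotient.norm_mk_lt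
    (Submodule.Quotient.mk c0 : CC p M ⧸ K) hε
  refine ⟨toF m, ?_, ?_⟩
  · rw [← hSv, ← hSc0]
    rw [Submodule.Quotient.eq, hK, LinearMap.mem_ker, map_sub, sub_eq_zero] at hm1
    exact hm1
  · have h5 : cst p (toF m) = ‖m‖ := rfl
    rw [h5]
    rw [hmkn] at h3
    linarith

lemma continuous_of_bound (hp : 0 < p) (T : X →ₗ[ℝ] ℝ) (L : ℝ)
    (hT : ∀ v, |T v| ≤ L * ‖v‖ ^ (1 / p)) : Continuous T := by
  apply continuous_of_continuousAt_zero T
  rw [ContinuousAt, map_zero]
  have h1 : Tendsto (fun v : X => L * ‖v‖ ^ (1 / p)) (𝓝 0) (𝓝 0) := by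
    have h2 : Continuous fun v : X => L * ‖v‖ ^ (1 / p) :=
      continuous_const.mul (continuous_norm.rpow_const fun v => Or.inr (by positivity))
    have h3 := h2.tendsto 0
    rwa [norm_zero, Real.zero_rpow (by positivity), mul_zero] at h3
  rw [tendsto_zero_iff_abs_tendsto_zero]
  exact squeeze_zero (fun _ => abs_nonneg _) (fun v => hT v) h1

/-- The statements for a normed model. -/
theorem main_normed [CompleteSpace M] [CompleteSpace X] (hp : 0 < p) (hp1 : p ≤ 1) (o : M)
    (δ : M → X) (hsm : ∀ (a : ℝ) (v : X), ‖a • v‖ = |a| ^ p * ‖v‖)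
    (hbase : δ o = 0) (hiso : ∀ x y, ‖δ x - δ y‖ = dist x y ^ p)
    (hdense : ∀ v : X, ∀ ε > 0, ∃ w ∈ Submodule.span ℝ (Set.range δ), ‖v - w‖ < ε)
    (huniv : ∀ (Y : Type) [AddCommGroup Y] [Module ℝ Y] (N' : Y → ℝ), IsPBanach p N' →
    ∀ (f : M → Y) (L : ℝ), 0 ≤ L → f o = 0 → (∀ x y, N' (f x - f y) ≤ L * dist x y) →
      ∃ T : X →ₗ[ℝ] Y, (∀ x, T (δ x) = f x) ∧ ∀ v, N' (T v) ≤ L * ‖v‖ ^ (1 / p)) :
    (∀ (κ : Type) (K : κ → Set M), (∀ k, IsClosed (K k)) → ∀ γ : X,
      (∀ k, ∀ ε > 0, ∃ w ∈ Submodule.span ℝ (δ '' K k), ‖γ - w‖ < ε) →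
      ∀ ε > 0, ∃ w ∈ Submodule.span ℝ (δ '' ⋂ k, K k), ‖γ - w‖ < ε) ∧
    (∀ (K : Set M) (γ : X),
      (∀ T : X →ₗ[ℝ] ℝ, Continuous T → (∀ x ∈ K, T (δ x) = 0) → T γ = 0) →
      ∀ ε > 0, ∃ w ∈ Submodule.span ℝ (δ '' K), ‖γ - w‖ < ε) := by
  have hnf := normForm_of_univ hp hp1 o δ hbase huniv
  -- the functionals
  have hfun : ∀ (L : NNReal) (g : M → ℝ), LipschitzWith L g → g o = 0 →
      ∃ T : X →ₗ[ℝ] ℝ, (∀ x, T (δ x) = g x) ∧ Continuous T := by
    intro L g hg hgo
    obtain ⟨T, hT1, hT2⟩ := huniv ℝ (fun r => |r|) (isPBanach_abs hp hp1) g L L.2 hgo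
      (fun x y => by have := hg.dist_le_mul x y; rwa [Real.dist_eq] at this)
    exact ⟨T, hT1, continuous_of_bound hp T L hT2⟩
  have hlam : ∀ {ι : Type} (a : ι → ℝ) (x y : ι → M) (γ : X),
      HasSum (fun i => a i • (δ (x i) - δ (y i))) γ → ∀ (T : X →ₗ[ℝ] ℝ) (g : M → ℝ),
      (∀ x, T (δ x) = g x) → Continuous T → Lam a x y g = T γ := by
    intro ι a x y γ hγ T g hT hTc
    have h1 := hγ.map T hTc
    unfold Lam
    rw [← h1.tsum_eq]
    refine tsum_congr fun i => ?_
    show _ = T (a i • (δ (x i) - δ (y i)))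
    rw [map_smul, map_sub, hT, hT, smul_eq_mul]
  have hspan0 : ∀ (K : Set M), Submodule.span ℝ (δ '' (K ∪ {o})) = Submodule.span ℝ (δ '' K) := by
    intro K
    rw [Set.image_union, Set.image_singleton, hbase, Submodule.span_union,
      Submodule.span_singleton_eq_bot.2 rfl, sup_bot_eq]
  refine ⟨?_, ?_⟩
  · intro κ K hK γ hγK
    obtain ⟨ι, a, x, y, hs, hγ⟩ := exists_rep hp hsm δ hiso hdense hnf γ
    have hst : Summable fun i => |a i| * dist (x i) (y i) :=
      summable_of_rpow _ (fun i => by positivity) p hp hp1 hs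
    have hkill : ∀ k, ∀ (L : NNReal) (g : M → ℝ), LipschitzWith L g →
        (∀ z ∈ K k ∪ {o}, g z = 0) → Lam a x y g = 0 := by
      intro k L g hg hgz
      obtain ⟨T, hT1, hT2⟩ := hfun L g hg (hgz o (Or.inr rfl))
      rw [hlam a x y γ hγ T g hT1 hT2]
      have hker : ∀ w ∈ Submodule.span ℝ (δ '' K k), T w = 0 := by
        intro w hw
        have : Submodule.span ℝ (δ '' K k) ≤ LinearMap.ker T := by
          rw [Submodule.span_le]
          rintro _ ⟨z, hz, rfl⟩
          show T (δ z) = 0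
          rw [hT1]; exact hgz z (Or.inl hz)
        exact this hw
      choose w hw1 hw2 using fun n : ℕ => hγK k ((1/2 : ℝ) ^ n) (by positivity)
      have hw3 : Tendsto w atTop (𝓝 γ) := by
        rw [tendsto_iff_norm_sub_tendsto_zero]
        refine squeeze_zero (fun _ => norm_nonneg _) (fun n => ?_)
          (tendsto_pow_atTop_nhds_zero_of_lt_one (r := (1/2:ℝ)) (by norm_num) (by norm_num))
        rw [norm_sub_rev]; exact (hw2 n).le
      have hw4 := (hT2.tendsto γ).comp hw3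
      have hw5 : (T ∘ w) = fun _ => (0:ℝ) := by funext n; exact hker _ (hw1 n)
      rw [hw5] at hw4
      exact (tendsto_nhds_unique hw4 tendsto_const_nhds)
    have hcl : ∀ k, IsClosed (K k ∪ {o}) := fun k => (hK k).union isClosed_singleton
    have hinter : ∀ g : M → ℝ, LipschitzWith 1 g → (∀ z ∈ ⋂ k, (K k ∪ {o}), g z = 0) →
        Lam a x y g = 0 := fun g hg hg0 =>
      inter_annihilate o hst (fun k => K k ∪ {o}) hcl (fun k => Or.inr rfl) hkill g hg hg0
    have happ := approx_of_kill hp hp1 hsm δ hiso (⋂ k, (K k ∪ {o}))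
      ⟨o, mem_iInter.2 fun k => Or.inr rfl⟩ (isClosed_iInter hcl) a x y hs γ hγ hinter
    have hsub : (⋂ k, (K k ∪ {o})) ⊆ (⋂ k, K k) ∪ {o} := by
      intro z hz
      by_cases hzo : z = o
      · exact Or.inr hzo
      · left
        refine mem_iInter.2 fun k => ?_
        exact (mem_iInter.1 hz k).resolve_right hzo
    intro ε hε
    obtain ⟨w, hw, hw2⟩ := happ ε hε
    refine ⟨w, ?_, hw2⟩
    rw [← hspan0]
    exact Submodule.span_mono (Set.image_mono hsub) hw
  · intro K γ hT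
    obtain ⟨ι, a, x, y, hs, hγ⟩ := exists_rep hp hsm δ hiso hdense hnf γ
    have happ := approx_of_kill hp hp1 hsm δ hiso (closure (K ∪ {o}))
      ⟨o, subset_closure (Or.inr rfl)⟩ isClosed_closure a x y hs γ hγ (by
        intro g hg hg0
        obtain ⟨T, hT1, hT2⟩ := hfun 1 g hg (hg0 o (subset_closure (Or.inr rfl)))
        rw [hlam a x y γ hγ T g hT1 hT2]
        refine hT T hT2 fun z hz => ?_
        rw [hT1]; exact hg0 z (subset_closure (Or.inl hz)))
    -- the span of the closure is in the closure of the span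
    have hcl : ∀ w ∈ Submodule.span ℝ (δ '' closure (K ∪ {o})), ∀ ε > 0,
        ∃ w' ∈ Submodule.span ℝ (δ '' (K ∪ {o})), ‖w - w'‖ < ε := by
      intro w hw
      induction hw using Submodule.span_induction with
      | mem w hw =>
        intro ε hε
        obtain ⟨z, hz, rfl⟩ := hw
        obtain ⟨z', hz', hd⟩ := Metric.mem_closure_iff.1 hz (ε ^ (1 / p))
          (Real.rpow_pos_of_pos hε _)
        refine ⟨δ z', Submodule.subset_span ⟨z', hz', rfl⟩, ?_⟩
        rw [hiso]
        have := Real.rpow_lt_rpow dist_nonneg hd hp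
        rwa [← Real.rpow_mul hε.le, one_div_mul_cancel hp.ne', Real.rpow_one] at this
      | zero => intro ε hε; exact ⟨0, Submodule.zero_mem _, by simpa using hε⟩
      | add v w _ _ hv hw =>
        intro ε hε
        obtain ⟨v', hv', hv2⟩ := hv (ε / 2) (by positivity)
        obtain ⟨w', hw', hw2⟩ := hw (ε / 2) (by positivity)
        refine ⟨v' + w', Submodule.add_mem _ hv' hw', ?_⟩
        calc ‖v + w - (v' + w')‖ = ‖(v - v') + (w - w')‖ := by congr 1; abel
          _ ≤ ‖v - v'‖ + ‖w - w'‖ := norm_add_le _ _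
          _ < ε := by linarith
      | smul a v _ hv =>
        intro ε hε
        have hpos : 0 < |a| ^ p + 1 := by
          have := Real.rpow_nonneg (abs_nonneg a) p; linarith
        obtain ⟨v', hv', hv2⟩ := hv (ε / (|a| ^ p + 1)) (by positivity)
        refine ⟨a • v', Submodule.smul_mem _ _ hv', ?_⟩
        rw [← smul_sub, hsm]
        have h1 : |a| ^ p * ‖v - v'‖ ≤ |a| ^ p * (ε / (|a| ^ p + 1)) :=
          mul_le_mul_of_nonneg_left hv2.le (Real.rpow_nonneg (abs_nonneg a) p)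
        have h2 : |a| ^ p * (ε / (|a| ^ p + 1)) < ε := by
          rw [mul_div_assoc', div_lt_iff₀ hpos]
          nlinarith
        linarith
    intro ε hε
    obtain ⟨w, hw, hw2⟩ := happ (ε / 2) (by positivity)
    obtain ⟨w', hw', hw3⟩ := hcl w hw (ε / 2) (by positivity)
    rw [hspan0] at hw'
    refine ⟨w', hw', ?_⟩
    calc ‖γ - w'‖ = ‖(γ - w) + (w - w')‖ := by congr 1; abel
      _ ≤ ‖γ - w‖ + ‖w - w'‖ := norm_add_le _ _
      _ < ε := by linarith

end Main

/-- **The intersection property**, for the free `p`-space given by its universal property. -/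
theorem intersection {p : ℝ} (hp : 0 < p) (hp1 : p ≤ 1) {M : Type} [MetricSpace M]
    [CompleteSpace M] (o : M) {X : Type} [AddCommGroup X] [Module ℝ X] (N : X → ℝ) (δ : M → X)
    (h : IsFree p o N δ) :
    (∀ (κ : Type) (K : κ → Set M), (∀ k, IsClosed (K k)) →
      (⋂ k, FSub N δ (K k)) ⊆ FSub N δ (⋂ k, K k)) ∧
    (∀ (K : Set M) (γ : X), γ ∈ FSub N δ K ↔
      ∀ T : X →ₗ[ℝ] ℝ, (∃ C, ∀ v, |T v| ≤ C * N v) → (∀ x ∈ K, T (δ x) = 0) → T γ = 0) := by
  letI inst := toNACG hp h.banach.toIsPNorm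
  have hN : ∀ v : X, ‖v‖ = N v ^ p := fun v => rfl
  have hN0 := h.banach.nonneg
  have hNp : ∀ v : X, ‖v‖ ^ (1 / p) = N v := fun v => by
    rw [hN, ← Real.rpow_mul (hN0 v), mul_one_div, div_self hp.ne', Real.rpow_one]
  have hlt : ∀ (v : X) (ε : ℝ), 0 < ε → (‖v‖ < ε ^ p ↔ N v < ε) := fun v ε hε => by
    rw [hN]; exact Real.rpow_lt_rpow_iff (hN0 v) hε.le hp
  have hlt2 : ∀ (v : X) (ε : ℝ), 0 < ε → (‖v‖ < ε ↔ N v < ε ^ (1 / p)) := fun v ε hε => by
    rw [← hlt v _ (Real.rpow_pos_of_pos hε _), ← Real.rpow_mul hε.le,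
      one_div_mul_cancel hp.ne', Real.rpow_one]
  have hcompl : CompleteSpace X := by
    apply Metric.complete_of_cauchySeq_tendsto
    intro u hu
    rw [Metric.cauchySeq_iff] at hu
    obtain ⟨l, hl⟩ := h.banach.complete u (fun ε hε => by
      obtain ⟨k, hk⟩ := hu (ε ^ p) (Real.rpow_pos_of_pos hε _)
      refine ⟨k, fun m hm n hn => ?_⟩
      have := hk m hm n hn
      rw [dist_eq_norm] at this
      exact (hlt _ ε hε).1 this)
    refine ⟨l, ?_⟩
    rw [Metric.tendsto_atTop]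
    intro ε hε
    obtain ⟨k, hk⟩ := hl (ε ^ (1 / p)) (Real.rpow_pos_of_pos hε _)
    refine ⟨k, fun n hn => ?_⟩
    rw [dist_eq_norm]
    exact (hlt2 _ ε hε).2 (hk n hn)
  have hsm : ∀ (a : ℝ) (v : X), ‖a • v‖ = |a| ^ p * ‖v‖ := fun a v => by
    rw [hN, hN, h.banach.smul, Real.mul_rpow (abs_nonneg _) (hN0 v)]
  have hiso : ∀ x y, ‖δ x - δ y‖ = dist x y ^ p := fun x y => by rw [hN, h.isom]
  obtain ⟨h1, h2⟩ := main_normed hp hp1 o δ hsm h.base hiso
    (fun v ε hε => by
      obtain ⟨w, hw, hw2⟩ := h.dense v (ε ^ (1 / p)) (Real.rpow_pos_of_pos hε _)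
      exact ⟨w, hw, (hlt2 _ ε hε).2 hw2⟩)
    (fun Y _ _ N' hN' f L hL hf hfl => by
      obtain ⟨T, hT1, hT2⟩ := h.univ Y N' hN' f L hL hf hfl
      exact ⟨T, hT1, fun v => by rw [hNp]; exact hT2 v⟩)
  refine ⟨?_, ?_⟩
  · intro κ K hK γ hγ
    intro ε hε
    obtain ⟨w, hw, hw2⟩ := h1 κ K hK γ (fun k ε hε => by
      obtain ⟨w, hw, hw2⟩ := mem_iInter.1 hγ k (ε ^ (1 / p)) (Real.rpow_pos_of_pos hε _)
      exact ⟨w, hw, (hlt2 _ ε hε).2 hw2⟩) (ε ^ p) (Real.rpow_pos_of_pos hε _)
    exact ⟨w, hw, (hlt _ ε hε).1 hw2⟩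
  · intro K γ
    constructor
    · intro hγ T hT hTK
      obtain ⟨C, hC⟩ := hT
      by_contra hne
      have hC' : 0 ≤ |C| := abs_nonneg C
      have hpos : 0 < |T γ| := abs_pos.2 hne
      obtain ⟨w, hw, hw2⟩ := hγ (|T γ| / (2 * (|C| + 1))) (by positivity)
      have hTw : T w = 0 := by
        have : Submodule.span ℝ (δ '' K) ≤ LinearMap.ker T := by
          rw [Submodule.span_le]
          rintro _ ⟨z, hz, rfl⟩
          exact hTK z hz
        exact this hw
      have h3 := hC (γ - w)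
      rw [map_sub, hTw, sub_zero] at h3
      have h4 : C * N (γ - w) ≤ |C| * (|T γ| / (2 * (|C| + 1))) :=
        (mul_le_mul_of_nonneg_right (le_abs_self C) (hN0 _)).trans
          (mul_le_mul_of_nonneg_left hw2.le hC')
      have h5 : |C| * (|T γ| / (2 * (|C| + 1))) ≤ |T γ| / 2 := by
        rw [mul_div_assoc', div_le_div_iff₀ (by positivity) (by norm_num)]
        nlinarith
      linarith
    · intro hγ ε hε
      obtain ⟨w, hw, hw2⟩ := h2 K γ (fun T hT hTK => hγ T (by
        -- a continuous functional is bounded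
        have h3 : ∃ r > 0, ∀ v : X, ‖v‖ < r → |T v| ≤ 1 := by
          have h4 := hT.tendsto 0
          rw [map_zero, Metric.tendsto_nhds_nhds] at h4
          obtain ⟨r, hr, hr2⟩ := h4 1 one_pos
          refine ⟨r, hr, fun v hv => ?_⟩
          have := hr2 (x := v) (by rw [dist_zero_right]; exact hv)
          rw [dist_zero_right] at this
          exact this.le
        obtain ⟨r, hr, hr2⟩ := h3
        set s : ℝ := r ^ (1 / p) / 2 with hs
        have hr' : 0 < r ^ (1 / p) := Real.rpow_pos_of_pos hr _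
        have hs0 : 0 < s := by positivity
        refine ⟨s⁻¹, fun v => ?_⟩
        by_cases hv : N v = 0
        · rw [h.banach.eq_zero v hv, map_zero, abs_zero]
          exact mul_nonneg (by positivity) (hN0 _)
        · have hvp : 0 < N v := lt_of_le_of_ne (hN0 v) (Ne.symm hv)
          have h5 : ‖(s / N v) • v‖ < r := by
            rw [hlt2 _ r hr, h.banach.smul, abs_of_pos (by positivity),
              div_mul_cancel₀ _ hv]
            linarith
          have h6 := hr2 _ h5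
          rw [map_smul, smul_eq_mul, abs_mul, abs_of_pos (by positivity : 0 < s / N v)] at h6
          have h7 : |T v| ≤ (s / N v)⁻¹ := by
            rw [← one_div, le_div_iff₀ (by positivity)]
            linarith
          rw [inv_div] at h7
          calc |T v| ≤ N v / s := h7
            _ = s⁻¹ * N v := by rw [div_eq_mul_inv, mul_comm]) hTK) (ε ^ p)
        (Real.rpow_pos_of_pos hε _)
      exact ⟨w, hw, (hlt _ ε hε).1 hw2⟩

end Pool.Agent.H164R3.Fp
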