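import Mathlib

set_option autoImplicit false

open Filter Topology
open scoped ENNReal

namespace Pool.Agent.H164R3.QReal

/-- The variable `q`, as a Laurent series over the complex numbers. -/
noncomputable def qv : LaurentSeries ℂ := HahnSeries.single (1 : ℤ) (1 : ℂ)

/-- The `q`-integer `[n]_q = (1 - q^n) / (1 - q)`. -/
noncomputable def qint (n : ℤ) : LaurentSeries ℂ := (1 - qv ^ n) / (1 - qv)

/-- The finite negative continued fraction
`[[c 0, ..., c N]] = c 0 - 1 / (c 1 - 1 / ( ... - 1 / c N))`. -/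
noncomputable def ncf : (ℕ → ℤ) → ℕ → ℝ
  | c, 0 => c 0
  | c, (N + 1) => c 0 - 1 / ncf (fun j => c (j + 1)) N

/-- The `q`-deformed finite negative continued fraction
`[c 0]_q - q^(c 0 - 1) / ([c 1]_q - q^(c 1 - 1) / ( ... / [c N]_q))`. -/
noncomputable def qncf : (ℕ → ℤ) → ℕ → LaurentSeries ℂ
  | c, 0 => qint (c 0)
  | c, (N + 1) => qint (c 0) - qv ^ (c 0 - 1) / qncf (fun j => c (j + 1)) N

/-- `c` is the (infinite) negative continued fraction expansion of the real number `x`: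
all `c j ≥ 2` and `x` is the limit of the truncations `[[c 0, ..., c N]]`. -/
def IsExpansion (c : ℕ → ℤ) (x : ℝ) : Prop :=
  (∀ j, 2 ≤ c j) ∧ Tendsto (ncf c) atTop (𝓝 x)

/-- `q`-adic convergence of a sequence of Laurent series: for every `m`, the coefficients
of all the powers `q^k` with `k ≤ m` are eventually those of the limit. -/
def QAdicLimit (s : ℕ → LaurentSeries ℂ) (L : LaurentSeries ℂ) : Prop :=
  ∀ m : ℤ, ∀ᶠ N in atTop, ∀ k ≤ m, (s N).coeff k = L.coeff k

/-- `F` is the `q`-deformation `x ↦ [x]_q` of the real numbers: if `x` has the negative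
continued fraction expansion `c` then `[x]_q` is the `q`-adic limit of the
`q`-deformed truncations, and `[x - 1]_q = q⁻¹ ([x]_q - 1)` for all real `x`. -/
structure IsQDeformation (F : ℝ → LaurentSeries ℂ) : Prop where
  lim : ∀ (x : ℝ) (c : ℕ → ℤ), IsExpansion c x → QAdicLimit (qncf c) (F x)
  shift : ∀ x : ℝ, F (x - 1) = qv⁻¹ * (F x - 1)

/-- Radius of convergence in the complex variable `q` (the finitely many negative powers
do not matter). -/
noncomputable def radius (L : LaurentSeries ℂ) : ℝ≥0∞ :=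
  (FormalMultilinearSeries.ofScalars ℂ (fun n : ℕ => L.coeff (n : ℤ))).radius

/-! ### Real continued fractions -/

/-- complete quotients -/
noncomputable def cq (x : ℝ) : ℕ → ℝ
  | 0 => x
  | (j + 1) => 1 / ((⌊cq x j⌋ : ℝ) + 1 - cq x j)

/-- digits -/
noncomputable def dig (x : ℝ) (j : ℕ) : ℤ := ⌊cq x j⌋ + 1

lemma cq_succ' (x : ℝ) (j : ℕ) : cq x (j + 1) = cq (cq x 1) j := by
  induction j with
  | zero => rfl
  | succ n ih => rw [cq, ih, ← cq]

lemma dig_shift (x : ℝ) : (fun j => dig x (j + 1)) = dig (cq x 1) := by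
  funext j; simp only [dig]; rw [cq_succ']

lemma one_le_cq_one (x : ℝ) : 1 ≤ cq x 1 := by
  have h1 := Int.floor_le x
  have h2 := Int.lt_floor_add_one x
  show 1 ≤ 1 / ((⌊x⌋ : ℝ) + 1 - x)
  rw [le_div_iff₀ (by linarith)]
  linarith

lemma one_le_cq {x : ℝ} (hx : 1 ≤ x) : ∀ j, 1 ≤ cq x j
  | 0 => hx
  | (j + 1) => by rw [cq_succ']; exact one_le_cq (one_le_cq_one x) j

lemma two_le_dig {x : ℝ} (hx : 1 ≤ x) (j : ℕ) : 2 ≤ dig x j := by
  have h := one_le_cq hx j
  have : (1 : ℤ) ≤ ⌊cq x j⌋ := Int.le_floor.mpr (by exact_mod_cast h)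
  simp only [dig]; omega

lemma ncf_dig_bound : ∀ (N : ℕ) {x : ℝ}, 1 ≤ x →
    0 ≤ ncf (dig x) N - x ∧ ncf (dig x) N - x ≤ 1 / ((N : ℝ) + 1)
  | 0, x, hx => by
      have h1 := Int.floor_le x
      have h2 := Int.lt_floor_add_one x
      simp only [ncf, dig, cq]
      push_cast
      constructor <;> simp <;> linarith
  | (N + 1), x, hx => by
      obtain ⟨h0, h1⟩ := ncf_dig_bound N (one_le_cq_one x)
      have hx' := one_le_cq_one x
      set y := ncf (dig (cq x 1)) N with hy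
      set x' := cq x 1 with hx'def
      have hyx : x = (⌊x⌋ : ℝ) + 1 - 1 / x' := by
        rw [hx'def]
        show x = (⌊x⌋ : ℝ) + 1 - 1 / (1 / ((⌊x⌋ : ℝ) + 1 - x))
        rw [one_div_one_div]; ring
      have hnc : ncf (dig x) (N + 1) = (⌊x⌋ : ℝ) + 1 - 1 / y := by
        rw [ncf, dig_shift, ← hy]
        simp [dig, cq]
      have hy1 : 1 ≤ y := by linarith
      have hdiff : ncf (dig x) (N + 1) - x = (y - x') / (x' * y) := by
        rw [hnc]
        nth_rewrite 2 [hyx]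
        field_simp
        ring
      rw [hdiff]
      constructor
      · positivity
      · have hN : (0 : ℝ) < (N : ℝ) + 1 := by positivity
        rw [div_le_div_iff₀ (by positivity) (by positivity)]
        rw [le_div_iff₀ hN] at h1
        push_cast
        nlinarith [mul_le_mul hx' (le_refl y) (by linarith) (by linarith : (0:ℝ) ≤ x')]

lemma isExpansion_dig {x : ℝ} (hx : 1 ≤ x) : IsExpansion (dig x) x := by
  refine ⟨two_le_dig hx, ?_⟩
  have h0 : Tendsto (fun N : ℕ => x + 1 / ((N : ℝ) + 1)) atTop (𝓝 (x + 0)) :=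
    tendsto_const_nhds.add tendsto_one_div_add_atTop_nhds_zero_nat
  rw [add_zero] at h0
  refine tendsto_of_tendsto_of_tendsto_of_le_of_le tendsto_const_nhds h0 ?_ ?_
  · intro N; have := (ncf_dig_bound N hx).1; simp only; linarith
  · intro N; have := (ncf_dig_bound N hx).2; simp only; linarith

lemma ncf_bounds : ∀ (N : ℕ) {c : ℕ → ℤ}, (∀ j, 2 ≤ c j) →
    (c 0 : ℝ) - 1 < ncf c N ∧ ncf c N ≤ c 0 ∧ 1 < ncf c N
  | 0, c, hc => by
      have : (2 : ℝ) ≤ c 0 := by exact_mod_cast hc 0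
      refine ⟨?_, ?_, ?_⟩ <;> simp only [ncf] <;> linarith
  | (N + 1), c, hc => by
      obtain ⟨h1, h2, h3⟩ := ncf_bounds N (c := fun j => c (j + 1)) (fun j => hc (j + 1))
      have : (2 : ℝ) ≤ c 0 := by exact_mod_cast hc 0
      have h4 : 1 / ncf (fun j => c (j + 1)) N < 1 := by
        rw [div_lt_one (by linarith)]; exact h3
      have h5 : 0 < 1 / ncf (fun j => c (j + 1)) N := by positivity
      refine ⟨?_, ?_, ?_⟩ <;> simp only [ncf] <;> linarith

/-- limits of expansions and tails -/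
lemma IsExpansion.tail {c : ℕ → ℤ} {x : ℝ} (h : IsExpansion c x) :
    c 0 = ⌊x⌋ + 1 ∧ IsExpansion (fun j => c (j + 1)) (1 / ((⌊x⌋ : ℝ) + 1 - x)) := by
  obtain ⟨hc, hlim⟩ := h
  have hge : (c 0 : ℝ) - 1 ≤ x :=
    ge_of_tendsto hlim (Eventually.of_forall fun N => (ncf_bounds N hc).1.le)
  have hc1 : (2 : ℝ) ≤ c 1 := by exact_mod_cast hc 1
  have hlt : x ≤ c 0 - 1 / (c 1 : ℝ) := by
    refine le_of_tendsto hlim ((eventually_ge_atTop 1).mono fun N hN => ?_)
    obtain ⟨M, rfl⟩ : ∃ M, N = M + 1 := ⟨N - 1, by omega⟩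
    obtain ⟨h1, h2, h3⟩ := ncf_bounds M (c := fun j => c (j + 1)) (fun j => hc (j + 1))
    simp only [ncf]
    have : 1 / (c 1 : ℝ) ≤ 1 / ncf (fun j => c (j + 1)) M :=
      one_div_le_one_div_of_le (by linarith) h2
    linarith
  have hpos : 0 < 1 / (c 1 : ℝ) := by positivity
  have hfl : ⌊x⌋ = c 0 - 1 := by
    rw [Int.floor_eq_iff]
    push_cast
    constructor <;> linarith
  have hc0 : c 0 = ⌊x⌋ + 1 := by omega
  refine ⟨hc0, fun j => hc (j + 1), ?_⟩
  have hcR : (c 0 : ℝ) = (⌊x⌋ : ℝ) + 1 := by rw [hc0]; push_cast; ring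
  rw [← hcR]
  have hne : (c 0 : ℝ) - x ≠ 0 := by
    have : 0 < (c 0 : ℝ) - x := by linarith
    exact this.ne'
  have h1 : Tendsto (fun N => 1 / ((c 0 : ℝ) - ncf c (N + 1))) atTop (𝓝 (1 / ((c 0 : ℝ) - x))) := by
    have h2 : Tendsto (fun N => ncf c (N + 1)) atTop (𝓝 x) := hlim.comp (tendsto_add_atTop_nat 1)
    exact tendsto_const_nhds.div (tendsto_const_nhds.sub h2) hne
  refine h1.congr fun N => ?_
  simp only [ncf]
  rw [sub_sub_cancel, one_div_one_div]

lemma isExpansion_unique : ∀ (j : ℕ) {c c' : ℕ → ℤ} {x : ℝ},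
    IsExpansion c x → IsExpansion c' x → c j = c' j
  | 0, c, c', x, h, h' => by rw [h.tail.1, h'.tail.1]
  | (j + 1), c, c', x, h, h' => isExpansion_unique j h.tail.2 h'.tail.2

end Pool.Agent.H164R3.QReal
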