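import Pool.Agent.H164R3.QRealDefs

set_option autoImplicit false

open Filter Topology
open scoped ENNReal PowerSeries

namespace Pool.Agent.H164R3.QReal

/-- power series version of the truncations -/
noncomputable def P : (ℕ → ℤ) → ℕ → PowerSeries ℂ
  | c, 0 => ∑ i ∈ Finset.range (c 0).toNat, (PowerSeries.X : PowerSeries ℂ) ^ i
  | c, (N + 1) => ∑ i ∈ Finset.range (c 0).toNat, (PowerSeries.X : PowerSeries ℂ) ^ i
      - PowerSeries.X ^ (c 0 - 1).toNat * (P (fun j => c (j + 1)) N)⁻¹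

lemma P_succ (c : ℕ → ℤ) (N : ℕ) : P c (N + 1) =
    ∑ i ∈ Finset.range (c 0).toNat, (PowerSeries.X : PowerSeries ℂ) ^ i
      - PowerSeries.X ^ (c 0 - 1).toNat * (P (fun j => c (j + 1)) N)⁻¹ := rfl

lemma constCoeff_geom {n : ℕ} (hn : 1 ≤ n) :
    PowerSeries.constantCoeff (∑ i ∈ Finset.range n, (PowerSeries.X : PowerSeries ℂ) ^ i) = 1 := by
  obtain ⟨m, rfl⟩ : ∃ m, n = m + 1 := ⟨n - 1, by omega⟩
  rw [Finset.sum_range_succ']
  simp

lemma constCoeff_P : ∀ (N : ℕ) {c : ℕ → ℤ}, (∀ j, 2 ≤ c j) →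
    PowerSeries.constantCoeff (P c N) = 1
  | 0, c, hc => by
      have := hc 0
      rw [P, constCoeff_geom (by omega)]
  | (N + 1), c, hc => by
      have := hc 0
      obtain ⟨m, hm⟩ : ∃ m, (c 0 - 1).toNat = m + 1 := ⟨(c 0 - 1).toNat - 1, by omega⟩
      rw [P, map_sub, constCoeff_geom (by omega), hm]
      simp

lemma P_ne {N : ℕ} {c : ℕ → ℤ} (hc : ∀ j, 2 ≤ c j) :
    PowerSeries.constantCoeff (P c N) ≠ 0 := by rw [constCoeff_P N hc]; exact one_ne_zero

lemma X_pow_dvd_P : ∀ (N : ℕ) {c : ℕ → ℤ}, (∀ j, 2 ≤ c j) →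
    (PowerSeries.X : PowerSeries ℂ) ^ (N + 1) ∣ P c (N + 1) - P c N
  | 0, c, hc => by
      have := hc 0
      obtain ⟨m, hm⟩ : ∃ m, (c 0 - 1).toNat = m + 1 := ⟨(c 0 - 1).toNat - 1, by omega⟩
      simp only [P]
      rw [hm, sub_sub_cancel_left, dvd_neg]
      refine Dvd.dvd.mul_right (pow_dvd_pow _ (by omega)) _
  | (N + 1), c, hc => by
      have h2 := hc 0
      obtain ⟨m, hm⟩ : ∃ m, (c 0 - 1).toNat = m + 1 := ⟨(c 0 - 1).toNat - 1, by omega⟩
      have hc' : ∀ j, 2 ≤ (fun j => c (j + 1)) j := fun j => hc (j + 1)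
      have ih := X_pow_dvd_P N hc'
      have e1 := PowerSeries.mul_inv_cancel _ (P_ne (N := N + 1) hc')
      have e2 := PowerSeries.mul_inv_cancel _ (P_ne (N := N) hc')
      rw [P_succ c (N + 1), P_succ c N]
      set A := P (fun j => c (j + 1)) (N + 1)
      set B := P (fun j => c (j + 1)) N
      have key : (∑ i ∈ Finset.range (c 0).toNat, (PowerSeries.X : PowerSeries ℂ) ^ i
          - PowerSeries.X ^ (c 0 - 1).toNat * A⁻¹)
          - (∑ i ∈ Finset.range (c 0).toNat, (PowerSeries.X : PowerSeries ℂ) ^ i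
          - PowerSeries.X ^ (c 0 - 1).toNat * B⁻¹)
          = PowerSeries.X ^ (c 0 - 1).toNat * (A - B) * (A⁻¹ * B⁻¹) := by
        have : A⁻¹ - B⁻¹ = (B - A) * (A⁻¹ * B⁻¹) := by
          linear_combination (-A⁻¹) * e2 + B⁻¹ * e1
        linear_combination (-(PowerSeries.X : PowerSeries ℂ) ^ (c 0 - 1).toNat) * this
      rw [key, hm]
      refine Dvd.dvd.mul_right ?_ _
      calc (PowerSeries.X : PowerSeries ℂ) ^ (N + 1 + 1)
          ∣ PowerSeries.X ^ (m + 1) * PowerSeries.X ^ (N + 1) := by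
            rw [← pow_add]; exact pow_dvd_pow _ (by omega)
        _ ∣ PowerSeries.X ^ (m + 1) * (A - B) := mul_dvd_mul_left _ ih

lemma coeff_P_stable {c : ℕ → ℤ} (hc : ∀ j, 2 ≤ c j) (k : ℕ) :
    ∀ N, k ≤ N → PowerSeries.coeff k (P c N) = PowerSeries.coeff k (P c k) := by
  intro N hN
  induction N, hN using Nat.le_induction with
  | base => rfl
  | succ N hN ih =>
      have h := X_pow_dvd_P N hc
      rw [PowerSeries.X_pow_dvd_iff] at h
      have := h k (by omega)
      rw [map_sub, sub_eq_zero] at this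
      rw [this, ih]

lemma one_sub_qv_ne : (1 - qv) ≠ 0 := by
  intro h
  have := congrArg (fun L : LaurentSeries ℂ => L.coeff 0) h
  simp [qv] at this

lemma qint_eq (n : ℤ) (hn : 0 ≤ n) :
    qint n = ((∑ i ∈ Finset.range n.toNat, (PowerSeries.X : PowerSeries ℂ) ^ i : PowerSeries ℂ)
      : LaurentSeries ℂ) := by
  obtain ⟨m, rfl⟩ := Int.eq_ofNat_of_zero_le hn
  rw [qint, div_eq_iff one_sub_qv_ne]
  have h1 : qv = ((PowerSeries.X : PowerSeries ℂ) : LaurentSeries ℂ) := by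
    rw [PowerSeries.coe_X]; rfl
  rw [h1, zpow_natCast, Int.toNat_natCast]
  have := geom_sum_mul_neg (PowerSeries.X : PowerSeries ℂ) m
  have h2 := congrArg (fun p : PowerSeries ℂ => (HahnSeries.ofPowerSeries ℤ ℂ) p) this
  simp only [map_mul, map_sub, map_one, map_pow] at h2
  exact h2.symm

lemma qncf_eq : ∀ (N : ℕ) {c : ℕ → ℤ}, (∀ j, 2 ≤ c j) →
    qncf c N = ((P c N : PowerSeries ℂ) : LaurentSeries ℂ)
  | 0, c, hc => by
      rw [qncf, P, qint_eq _ (by linarith [hc 0])]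
  | (N + 1), c, hc => by
      have hc' : ∀ j, 2 ≤ (fun j => c (j + 1)) j := fun j => hc (j + 1)
      have h2 := hc 0
      rw [qncf, P, qint_eq _ (by linarith), qncf_eq N hc']
      have h1 : qv = ((PowerSeries.X : PowerSeries ℂ) : LaurentSeries ℂ) := by
        rw [PowerSeries.coe_X]; rfl
      have h3 : qv ^ (c 0 - 1) = (((PowerSeries.X : PowerSeries ℂ) ^ (c 0 - 1).toNat : PowerSeries ℂ)
          : LaurentSeries ℂ) := by
        rw [h1]
        have : (c 0 - 1) = ((c 0 - 1).toNat : ℤ) := by rw [Int.toNat_of_nonneg (by linarith)]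
        rw [this, zpow_natCast, Int.toNat_natCast, map_pow]
      have e1 := PowerSeries.mul_inv_cancel _ (P_ne (N := N) hc')
      have h4 : (((P (fun j => c (j + 1)) N)⁻¹ : PowerSeries ℂ) : LaurentSeries ℂ)
          = ((P (fun j => c (j + 1)) N : PowerSeries ℂ) : LaurentSeries ℂ)⁻¹ := by
        rw [eq_comm]
        apply inv_eq_of_mul_eq_one_right
        have h2 := congrArg (fun p : PowerSeries ℂ => (HahnSeries.ofPowerSeries ℤ ℂ) p) e1
        simpa using h2
      rw [h3, div_eq_mul_inv, ← h4, map_sub, map_mul]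

/-- the limit power series -/
noncomputable def limP (c : ℕ → ℤ) : PowerSeries ℂ :=
  PowerSeries.mk fun k => PowerSeries.coeff k (P c k)

lemma coeff_coe_neg (p : PowerSeries ℂ) {k : ℤ} (hk : k < 0) :
    ((p : PowerSeries ℂ) : LaurentSeries ℂ).coeff k = 0 := by
  rw [PowerSeries.coeff_coe, if_pos hk]

lemma coeff_coe_nat (p : PowerSeries ℂ) (k : ℕ) :
    ((p : PowerSeries ℂ) : LaurentSeries ℂ).coeff (k : ℤ) = PowerSeries.coeff k p := by
  rw [PowerSeries.coeff_coe, if_neg (by omega), Int.natAbs_natCast]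

lemma qAdicLimit_limP {c : ℕ → ℤ} (hc : ∀ j, 2 ≤ c j) :
    QAdicLimit (qncf c) ((limP c : PowerSeries ℂ) : LaurentSeries ℂ) := by
  intro m
  filter_upwards [eventually_ge_atTop m.toNat] with N hN k hk
  rw [qncf_eq N hc]
  rcases lt_or_ge k 0 with h | h
  · rw [coeff_coe_neg _ h, coeff_coe_neg _ h]
  · obtain ⟨n, rfl⟩ := Int.eq_ofNat_of_zero_le h
    rw [coeff_coe_nat, coeff_coe_nat, limP, PowerSeries.coeff_mk, coeff_P_stable hc n N (by omega)]

lemma QAdicLimit.unique {s : ℕ → LaurentSeries ℂ} {L L' : LaurentSeries ℂ}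
    (h : QAdicLimit s L) (h' : QAdicLimit s L') : L = L' := by
  ext k
  obtain ⟨N, h1, h2⟩ := ((h k).and (h' k)).exists
  rw [← h1 k le_rfl, ← h2 k le_rfl]

/-- The operator `g ↦ q⁻¹ (g - 1)`. -/
noncomputable def T (g : LaurentSeries ℂ) : LaurentSeries ℂ := qv⁻¹ * (g - 1)

lemma coeff_qv_inv_mul (g : LaurentSeries ℂ) (k : ℤ) : (qv⁻¹ * g).coeff k = g.coeff (k + 1) := by
  rw [qv, HahnSeries.inv_single, HahnSeries.coeff_single_mul]
  simp

lemma qv_ne : qv ≠ 0 := by
  rw [qv]; exact HahnSeries.single_ne_zero one_ne_zero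

/-- the construction of the deformation -/
noncomputable def G (y : ℝ) : LaurentSeries ℂ := ((limP (dig y) : PowerSeries ℂ) : LaurentSeries ℂ)

noncomputable def mm (x : ℝ) : ℕ := ⌈1 - x⌉₊

noncomputable def F0 (x : ℝ) : LaurentSeries ℂ := T^[mm x] (G (x + mm x))

lemma dig_sub_one_zero (x : ℝ) : dig (x - 1) 0 = dig x 0 - 1 := by
  simp [dig, cq, Int.floor_sub_one]

lemma cq_sub_one (x : ℝ) : cq (x - 1) 1 = cq x 1 := by
  show 1 / ((⌊x - 1⌋ : ℝ) + 1 - (x - 1)) = 1 / ((⌊x⌋ : ℝ) + 1 - x)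
  rw [Int.floor_sub_one]; push_cast; congr 1; ring

lemma dig_sub_one_succ (x : ℝ) : (fun j => dig (x - 1) (j + 1)) = fun j => dig x (j + 1) := by
  rw [dig_shift, dig_shift, cq_sub_one]

lemma qint_sub_one (n : ℤ) : qint (n - 1) = qv⁻¹ * (qint n - 1) := by
  have h := one_sub_qv_ne
  have h' := qv_ne
  rw [qint, qint, zpow_sub_one₀ h']
  field_simp
  ring

lemma qncf_sub_one (x : ℝ) (N : ℕ) : qncf (dig (x - 1)) N = T (qncf (dig x) N) := by
  cases N with
  | zero => rw [qncf, qncf, dig_sub_one_zero, T, qint_sub_one]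
  | succ N =>
    rw [qncf, qncf, dig_sub_one_zero, dig_sub_one_succ, T, qint_sub_one, zpow_sub_one₀ qv_ne]
    have h' := qv_ne
    ring

lemma QAdicLimit.T {s : ℕ → LaurentSeries ℂ} {L : LaurentSeries ℂ} (h : QAdicLimit s L) :
    QAdicLimit (fun N => QReal.T (s N)) (QReal.T L) := by
  intro m
  filter_upwards [h (m + 1)] with N hN k hk
  rw [QReal.T, QReal.T, coeff_qv_inv_mul, coeff_qv_inv_mul, HahnSeries.coeff_sub, HahnSeries.coeff_sub,
    hN (k + 1) (by omega)]

lemma G_sub_one {x : ℝ} (hx : 2 ≤ x) : G (x - 1) = T (G x) := by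
  have h1 : QAdicLimit (qncf (dig (x - 1))) (G (x - 1)) :=
    qAdicLimit_limP (two_le_dig (by linarith))
  have h2 : QAdicLimit (fun N => T (qncf (dig x) N)) (T (G x)) :=
    (qAdicLimit_limP (two_le_dig (by linarith))).T
  have h3 : qncf (dig (x - 1)) = fun N => T (qncf (dig x) N) := by
    funext N; exact qncf_sub_one x N
  rw [h3] at h1
  exact h1.unique h2

lemma F0_shift (x : ℝ) : F0 (x - 1) = T (F0 x) := by
  rcases lt_or_ge x 2 with hx | hx
  · have hm : mm (x - 1) = mm x + 1 := by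
      rw [mm, mm]
      have : 1 - (x - 1) = (1 - x) + 1 := by ring
      rw [this]
      rcases le_or_gt 0 (1 - x) with h | h
      · exact Nat.ceil_add_one h
      · have h1 : ⌈1 - x⌉₊ = 0 := Nat.ceil_eq_zero.mpr h.le
        rw [h1, Nat.ceil_eq_iff (by norm_num)]
        constructor
        · simp; linarith
        · simp; linarith
    rw [F0, F0, hm, Function.iterate_succ_apply']
    congr 3
    push_cast; ring
  · have hm : mm (x - 1) = 0 := Nat.ceil_eq_zero.mpr (by linarith)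
    have hm' : mm x = 0 := Nat.ceil_eq_zero.mpr (by linarith)
    rw [F0, F0, hm, hm']
    simp only [Function.iterate_zero, id_eq, Nat.cast_zero, add_zero]
    exact G_sub_one hx

lemma IsExpansion.one_le {c : ℕ → ℤ} {x : ℝ} (h : IsExpansion c x) : 1 ≤ x :=
  ge_of_tendsto h.2 (Eventually.of_forall fun N => (ncf_bounds N h.1).2.2.le)

theorem isQDeformation_F0 : IsQDeformation F0 := by
  refine ⟨?_, F0_shift⟩
  intro x c hc
  have hx := hc.one_le
  have hcd : c = dig x := by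
    funext j
    exact isExpansion_unique j hc (isExpansion_dig hx)
  have hm : mm x = 0 := Nat.ceil_eq_zero.mpr (by linarith)
  rw [F0, hm]
  simp only [Function.iterate_zero, id_eq, Nat.cast_zero, add_zero]
  rw [hcd]
  exact qAdicLimit_limP (two_le_dig hx)

end Pool.Agent.H164R3.QReal
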