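import Mathlib

set_option autoImplicit false
set_option linter.unusedSectionVars false

open scoped RealInnerProductSpace

namespace Pool.Agent.H164R3.Qc

variable {E : Type*} [NormedAddCommGroup E] [InnerProductSpace ℝ E]

/-- fourth root of `‖x‖² + ρ²` -/
noncomputable def U (ρ : ℝ) (x : E) : ℝ := √(√(‖x‖ ^ 2 + ρ ^ 2))

/-- the kernel -/
noncomputable def ker (ρ : ℝ) (x : E) : E := (U ρ x)⁻¹ • x

lemma U_pow {ρ : ℝ} (x : E) : U ρ x ^ 4 = ‖x‖ ^ 2 + ρ ^ 2 := by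
  have h : 0 ≤ ‖x‖ ^ 2 + ρ ^ 2 := by positivity
  calc U ρ x ^ 4 = (√(√(‖x‖ ^ 2 + ρ ^ 2)) ^ 2) ^ 2 := by rw [U]; ring
    _ = _ := by rw [Real.sq_sqrt (Real.sqrt_nonneg _), Real.sq_sqrt h]

lemma U_nonneg (ρ : ℝ) (x : E) : 0 ≤ U ρ x := Real.sqrt_nonneg _

lemma U_pos {ρ : ℝ} (hρ : 0 < ρ) (x : E) : 0 < U ρ x := by
  rw [U]; positivity

lemma U_mono {ρ : ℝ} {x y : E} (h : ‖x‖ ≤ ‖y‖) : U ρ x ≤ U ρ y := by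
  rw [U, U]
  apply Real.sqrt_le_sqrt
  apply Real.sqrt_le_sqrt
  gcongr

lemma norm_le_U_sq (ρ : ℝ) (x : E) : ‖x‖ ≤ U ρ x ^ 2 := by
  have h1 : U ρ x ^ 2 = √(‖x‖ ^ 2 + ρ ^ 2) := by rw [U, Real.sq_sqrt (Real.sqrt_nonneg _)]
  rw [h1]
  apply Real.le_sqrt_of_sq_le
  nlinarith [sq_nonneg ρ]

lemma rho_le_U_sq {ρ : ℝ} (x : E) : ρ ≤ U ρ x ^ 2 := by
  have h1 : U ρ x ^ 2 = √(‖x‖ ^ 2 + ρ ^ 2) := by rw [U, Real.sq_sqrt (Real.sqrt_nonneg _)]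
  rw [h1]
  apply Real.le_sqrt_of_sq_le
  nlinarith [sq_nonneg ‖x‖]

lemma U_sq_sub_le {ρ : ℝ} (hρ : 0 < ρ) {a b : E} (h : ‖b‖ ≤ ‖a‖) :
    U ρ a ^ 2 - U ρ b ^ 2 ≤ ‖a - b‖ := by
  have ha := U_pos hρ a
  have hb := U_pos hρ b
  have h1 : ‖a‖ - ‖b‖ ≤ ‖a - b‖ := norm_sub_norm_le a b
  have h2 : (U ρ a ^ 2 - U ρ b ^ 2) * (U ρ a ^ 2 + U ρ b ^ 2) = (‖a‖ - ‖b‖) * (‖a‖ + ‖b‖) := by
    have e1 := U_pow (ρ := ρ) a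
    have e2 := U_pow (ρ := ρ) b
    calc _ = U ρ a ^ 4 - U ρ b ^ 4 := by ring
      _ = _ := by rw [e1, e2]; ring
  have h3 : ‖a‖ + ‖b‖ ≤ U ρ a ^ 2 + U ρ b ^ 2 :=
    add_le_add (norm_le_U_sq ρ a) (norm_le_U_sq ρ b)
  have h4 : 0 < U ρ a ^ 2 + U ρ b ^ 2 := by positivity
  have h5 : (U ρ a ^ 2 - U ρ b ^ 2) * (U ρ a ^ 2 + U ρ b ^ 2)
      ≤ (‖a‖ - ‖b‖) * (U ρ a ^ 2 + U ρ b ^ 2) := by
    rw [h2]; exact mul_le_mul_of_nonneg_left h3 (by linarith)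
  exact (le_of_mul_le_mul_right h5 h4).trans h1

lemma ker_aux {ρ : ℝ} (hρ : 0 < ρ) {a b : E} (h : ‖b‖ ≤ ‖a‖) :
    (U ρ a - U ρ b) * U ρ b ≤ ‖a - b‖ / 2 := by
  have ha := U_pos hρ a
  have hb := U_pos hρ b
  have h1 := U_sq_sub_le hρ h
  have h2 := U_mono (ρ := ρ) h
  nlinarith [mul_nonneg (sub_nonneg.mpr h2) (sub_nonneg.mpr h2)]

lemma ker_sub_norm_le_aux {ρ : ℝ} (hρ : 0 < ρ) {a b : E} (h : ‖b‖ ≤ ‖a‖) :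
    ‖ker ρ a - ker ρ b‖ ≤ 3 / 2 * (‖a - b‖ / U ρ a) := by
  have ha := U_pos hρ a
  have hb := U_pos hρ b
  have h2 := U_mono (ρ := ρ) h
  have e : ker ρ a - ker ρ b = (U ρ a)⁻¹ • (a - b) - ((U ρ b)⁻¹ - (U ρ a)⁻¹) • b := by
    rw [ker, ker, smul_sub, sub_smul]; abel
  have h3 : 0 ≤ (U ρ b)⁻¹ - (U ρ a)⁻¹ := sub_nonneg.mpr (inv_anti₀ hb h2)
  rw [e]
  refine (norm_sub_le _ _).trans ?_
  rw [norm_smul, norm_smul, Real.norm_of_nonneg (inv_nonneg.mpr ha.le), Real.norm_of_nonneg h3]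
  have h4 : ((U ρ b)⁻¹ - (U ρ a)⁻¹) * ‖b‖ ≤ ((U ρ b)⁻¹ - (U ρ a)⁻¹) * U ρ b ^ 2 :=
    mul_le_mul_of_nonneg_left (norm_le_U_sq ρ b) h3
  have h5 : ((U ρ b)⁻¹ - (U ρ a)⁻¹) * U ρ b ^ 2 = ((U ρ a - U ρ b) * U ρ b) / U ρ a := by
    field_simp
  have h6 : ((U ρ a - U ρ b) * U ρ b) / U ρ a ≤ (‖a - b‖ / 2) / U ρ a := by
    gcongr; exact ker_aux hρ h
  have h7 : (U ρ a)⁻¹ * ‖a - b‖ = ‖a - b‖ / U ρ a := by field_simp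
  have h8 : ‖a - b‖ / 2 / U ρ a = 1 / 2 * (‖a - b‖ / U ρ a) := by ring
  linarith

lemma ker_inner_aux {ρ : ℝ} (hρ : 0 < ρ) {a b : E} (h : ‖b‖ ≤ ‖a‖) :
    1 / 2 * (‖a - b‖ ^ 2 / U ρ a) ≤ ⟪ker ρ a - ker ρ b, a - b⟫ := by
  have ha := U_pos hρ a
  have hb := U_pos hρ b
  have h2 := U_mono (ρ := ρ) h
  have e : ker ρ a - ker ρ b = (U ρ a)⁻¹ • (a - b) - ((U ρ b)⁻¹ - (U ρ a)⁻¹) • b := by
    rw [ker, ker, smul_sub, sub_smul]; abel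
  have h3 : 0 ≤ (U ρ b)⁻¹ - (U ρ a)⁻¹ := sub_nonneg.mpr (inv_anti₀ hb h2)
  rw [e, inner_sub_left, real_inner_smul_left, real_inner_smul_left, real_inner_self_eq_norm_sq]
  have h4 : ⟪b, a - b⟫ ≤ U ρ b ^ 2 * ‖a - b‖ :=
    (real_inner_le_norm _ _).trans (mul_le_mul_of_nonneg_right (norm_le_U_sq ρ b) (norm_nonneg _))
  have h5 : ((U ρ b)⁻¹ - (U ρ a)⁻¹) * ⟪b, a - b⟫
      ≤ ((U ρ b)⁻¹ - (U ρ a)⁻¹) * (U ρ b ^ 2 * ‖a - b‖) := mul_le_mul_of_nonneg_left h4 h3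
  have h6 : ((U ρ b)⁻¹ - (U ρ a)⁻¹) * (U ρ b ^ 2 * ‖a - b‖)
      = ((U ρ a - U ρ b) * U ρ b) * ‖a - b‖ / U ρ a := by
    field_simp
  have h7 : ((U ρ a - U ρ b) * U ρ b) * ‖a - b‖ / U ρ a ≤ (‖a - b‖ / 2) * ‖a - b‖ / U ρ a := by
    gcongr; exact ker_aux hρ h
  have h8 : (U ρ a)⁻¹ * ‖a - b‖ ^ 2 = ‖a - b‖ ^ 2 / U ρ a := by field_simp
  have h9 : (‖a - b‖ / 2) * ‖a - b‖ / U ρ a = 1 / 2 * (‖a - b‖ ^ 2 / U ρ a) := by ring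
  linarith

/-- `M ρ a b = max (U ρ a) (U ρ b)` -/
noncomputable def M (ρ : ℝ) (a b : E) : ℝ := max (U ρ a) (U ρ b)

lemma M_pos {ρ : ℝ} (hρ : 0 < ρ) (a b : E) : 0 < M ρ a b := lt_max_of_lt_left (U_pos hρ a)

lemma M_comm (ρ : ℝ) (a b : E) : M ρ a b = M ρ b a := max_comm _ _

lemma ker_sub_norm_le {ρ : ℝ} (hρ : 0 < ρ) (a b : E) :
    ‖ker ρ a - ker ρ b‖ ≤ 3 / 2 * (‖a - b‖ / M ρ a b) := by
  rcases le_total ‖b‖ ‖a‖ with h | h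
  · rw [M, max_eq_left (U_mono h)]; exact ker_sub_norm_le_aux hρ h
  · rw [M, max_eq_right (U_mono h), norm_sub_rev, norm_sub_rev a b]
    exact ker_sub_norm_le_aux hρ h

lemma ker_inner {ρ : ℝ} (hρ : 0 < ρ) (a b : E) :
    1 / 2 * (‖a - b‖ ^ 2 / M ρ a b) ≤ ⟪ker ρ a - ker ρ b, a - b⟫ := by
  rcases le_total ‖b‖ ‖a‖ with h | h
  · rw [M, max_eq_left (U_mono h)]; exact ker_inner_aux hρ h
  · rw [M, max_eq_right (U_mono h), norm_sub_rev]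
    have := ker_inner_aux hρ h
    rw [← neg_sub (ker ρ b), ← neg_sub b a, inner_neg_neg]
    exact this

lemma U_le_of {ρ : ℝ} {a c : E} (h : ‖c‖ ≤ 5 * ‖a‖) : U ρ c ≤ 3 * U ρ a := by
  have ha := U_nonneg ρ a
  have hc := U_nonneg ρ c
  have e1 := U_pow (ρ := ρ) a
  have e2 := U_pow (ρ := ρ) c
  have h1 : U ρ c ^ 4 ≤ (3 * U ρ a) ^ 4 := by
    rw [mul_pow, e1, e2]
    have : ‖c‖ ^ 2 ≤ (5 * ‖a‖) ^ 2 := by gcongr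
    nlinarith [sq_nonneg ρ, sq_nonneg ‖a‖]
  exact le_of_pow_le_pow_left₀ (by norm_num) (by positivity) h1

lemma M_le_of {ρ : ℝ} {a b c : E} (h : ‖a - c‖ = ‖a - b‖) : M ρ a c ≤ 3 * M ρ a b := by
  have hab : ‖a - b‖ ≤ ‖a‖ + ‖b‖ := norm_sub_le a b
  have hc : ‖c‖ ≤ ‖a‖ + ‖a - c‖ := by
    have := norm_sub_le a (a - c)
    simpa using this
  have h0 : 0 ≤ M ρ a b := le_max_of_le_left (U_nonneg ρ a)
  apply max_le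
  · have : U ρ a ≤ M ρ a b := le_max_left _ _
    linarith
  · rcases le_total ‖b‖ ‖a‖ with hb | hb
    · have h1 : ‖c‖ ≤ 5 * ‖a‖ := by linarith [norm_nonneg a]
      have := U_le_of (ρ := ρ) h1
      have h2 : U ρ a ≤ M ρ a b := le_max_left _ _
      linarith
    · have h1 : ‖c‖ ≤ 5 * ‖b‖ := by linarith [norm_nonneg b]
      have := U_le_of (ρ := ρ) h1
      have h2 : U ρ b ≤ M ρ a b := le_max_right _ _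
      linarith

lemma half_norm_le_M_sq (ρ : ℝ) (a b : E) : ‖a - b‖ / 2 ≤ M ρ a b ^ 2 := by
  have hab : ‖a - b‖ ≤ ‖a‖ + ‖b‖ := norm_sub_le a b
  rcases le_total ‖b‖ ‖a‖ with hb | hb
  · have h1 := norm_le_U_sq ρ a
    have h2 : U ρ a ≤ M ρ a b := le_max_left _ _
    have h3 : U ρ a ^ 2 ≤ M ρ a b ^ 2 := by gcongr; exact U_nonneg ρ a
    linarith
  · have h1 := norm_le_U_sq ρ b
    have h2 : U ρ b ≤ M ρ a b := le_max_right _ _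
    have h3 : U ρ b ^ 2 ≤ M ρ a b ^ 2 := by gcongr; exact U_nonneg ρ b
    linarith

lemma norm_le_M_sq (ρ : ℝ) (a b : E) : ‖a‖ ≤ M ρ a b ^ 2 := by
  have h1 := norm_le_U_sq ρ a
  have h2 : U ρ a ≤ M ρ a b := le_max_left _ _
  have h3 : U ρ a ^ 2 ≤ M ρ a b ^ 2 := by gcongr; exact U_nonneg ρ a
  linarith

lemma rho_le_M_sq (ρ : ℝ) (a b : E) : ρ ≤ M ρ a b ^ 2 := by
  have h1 := rho_le_U_sq (ρ := ρ) a
  have h2 : U ρ a ≤ M ρ a b := le_max_left _ _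
  have h3 : U ρ a ^ 2 ≤ M ρ a b ^ 2 := by gcongr; exact U_nonneg ρ a
  linarith

lemma ker_norm_le {ρ : ℝ} (hρ : 0 < ρ) (a : E) : ‖ker ρ a‖ ≤ U ρ a := by
  have ha := U_pos hρ a
  rw [ker, norm_smul, Real.norm_of_nonneg (inv_nonneg.mpr ha.le), inv_mul_le_iff₀ ha]
  have := norm_le_U_sq ρ a
  linarith [sq (U ρ a)]

end Pool.Agent.H164R3.Qc
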