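import Pool.Agent.H164R3.QcKernel

set_option autoImplicit false

open scoped RealInnerProductSpace
open Filter Topology

namespace Pool.Agent.H164R3.Qc

/-- the plane -/
abbrev E2 : Type := EuclideanSpace ℝ (Fin 2)

noncomputable def e0 : E2 := EuclideanSpace.single 0 1

lemma norm_e0 : ‖e0‖ = 1 := by simp [e0]

/-- `N j = j + 2` -/
noncomputable def Nj (j : ℕ) : ℝ := (j : ℝ) + 2

lemma Nj_ge (j : ℕ) : 2 ≤ Nj j := by rw [Nj]; linarith [Nat.cast_nonneg (α := ℝ) j]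
lemma Nj_pos (j : ℕ) : 0 < Nj j := by linarith [Nj_ge j]

noncomputable def cj (j : ℕ) : E2 := (1 / Nj j) • e0
noncomputable def rj (j : ℕ) : ℝ := 1 / Nj j ^ 8
noncomputable def mj (j : ℕ) : ℝ := 1 / Nj j ^ 3

lemma rj_pos (j : ℕ) : 0 < rj j := by have := Nj_pos j; rw [rj]; positivity
lemma mj_pos (j : ℕ) : 0 < mj j := by have := Nj_pos j; rw [mj]; positivity

lemma rj_le_one (j : ℕ) : rj j ≤ 1 := by
  have := Nj_ge j
  rw [rj, div_le_one (by positivity)]
  exact one_le_pow₀ (by linarith)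

lemma norm_cj (j : ℕ) : ‖cj j‖ = 1 / Nj j := by
  have := Nj_pos j
  rw [cj, norm_smul, norm_e0, mul_one, Real.norm_of_nonneg (by positivity)]

lemma norm_cj_le (j : ℕ) : ‖cj j‖ ≤ 1 := by
  have := Nj_ge j
  rw [norm_cj, div_le_one (by linarith)]; linarith

lemma summable_pow (k : ℕ) (hk : 1 < k) : Summable fun j : ℕ => 1 / Nj j ^ k := by
  have h := (summable_nat_add_iff 2).mpr (Real.summable_one_div_nat_pow.mpr hk)
  refine h.congr fun j => ?_
  rw [Nj]; push_cast; rfl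

lemma summable_mj : Summable mj := summable_pow 3 (by norm_num)

lemma U_le_one_add {ρ : ℝ} (h0 : 0 < ρ) (h1 : ρ ≤ 1) (a : E2) : U ρ a ≤ 1 + ‖a‖ := by
  have h := U_pow (ρ := ρ) a
  have h2 : U ρ a ^ 4 ≤ (1 + ‖a‖) ^ 4 := by
    rw [h]
    have := norm_nonneg a
    nlinarith [pow_nonneg this 2, pow_nonneg this 3, pow_nonneg this 4, mul_nonneg h0.le h0.le]
  exact le_of_pow_le_pow_left₀ (by norm_num) (by positivity) h2

lemma summable_ker (x : E2) : Summable fun j => mj j • ker (rj j) (x - cj j) := by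
  refine Summable.of_norm_bounded (g := fun j => mj j * (2 + ‖x‖)) (summable_mj.mul_right _) ?_
  intro j
  rw [norm_smul, Real.norm_of_nonneg (mj_pos j).le]
  refine mul_le_mul_of_nonneg_left ?_ (mj_pos j).le
  have h1 := ker_norm_le (rj_pos j) (x - cj j)
  have h2 := U_le_one_add (rj_pos j) (rj_le_one j) (x - cj j)
  have h3 : ‖x - cj j‖ ≤ ‖x‖ + ‖cj j‖ := norm_sub_le _ _
  have h4 := norm_cj_le j
  linarith

/-- the map -/
noncomputable def F (x : E2) : E2 := x + ∑' j, mj j • ker (rj j) (x - cj j)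

/-- the sum `S x y` -/
noncomputable def St (x y : E2) (j : ℕ) : ℝ := mj j / M (rj j) (x - cj j) (y - cj j)
noncomputable def S (x y : E2) : ℝ := ∑' j, St x y j

lemma St_nonneg (x y : E2) (j : ℕ) : 0 ≤ St x y j :=
  div_nonneg (mj_pos j).le (M_pos (rj_pos j) _ _).le

lemma summable_St {x y : E2} (h : x ≠ y) : Summable (St x y) := by
  have hr : 0 < ‖x - y‖ := norm_pos_iff.mpr (sub_ne_zero.mpr h)
  have h0 : 0 < √(‖x - y‖ / 2) := by positivity
  refine Summable.of_nonneg_of_le (St_nonneg x y) (fun j => ?_) (summable_mj.div_const (√(‖x - y‖ / 2)))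
  rw [St]
  apply div_le_div_of_nonneg_left (mj_pos j).le h0
  apply Real.sqrt_le_iff.mpr
  refine ⟨(M_pos (rj_pos j) _ _).le, ?_⟩
  have := half_norm_le_M_sq (rj j) (x - cj j) (y - cj j)
  rwa [sub_sub_sub_cancel_right] at this

lemma F_sub (x y : E2) : F x - F y =
    (x - y) + ∑' j, mj j • (ker (rj j) (x - cj j) - ker (rj j) (y - cj j)) := by
  have h := (summable_ker x).tsum_sub (summable_ker y)
  simp only [smul_sub]
  rw [h, F, F]; abel

lemma summable_diff (x y : E2) :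
    Summable fun j => mj j • (ker (rj j) (x - cj j) - ker (rj j) (y - cj j)) := by
  simp only [smul_sub]
  exact (summable_ker x).sub (summable_ker y)

lemma norm_F_sub_le (x y : E2) : ‖F x - F y‖ ≤ ‖x - y‖ * (1 + 3 / 2 * S x y) := by
  rcases eq_or_ne x y with rfl | hxy
  · simp
  rw [F_sub]
  refine (norm_add_le _ _).trans ?_
  have h1 : ∀ j, ‖mj j • (ker (rj j) (x - cj j) - ker (rj j) (y - cj j))‖
      ≤ 3 / 2 * ‖x - y‖ * St x y j := by
    intro j
    rw [norm_smul, Real.norm_of_nonneg (mj_pos j).le]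
    have := ker_sub_norm_le (rj_pos j) (x - cj j) (y - cj j)
    rw [sub_sub_sub_cancel_right] at this
    refine (mul_le_mul_of_nonneg_left this (mj_pos j).le).trans (le_of_eq ?_)
    rw [St]; ring
  have h2 : Summable fun j => 3 / 2 * ‖x - y‖ * St x y j := (summable_St hxy).mul_left _
  have h3 := tsum_of_norm_bounded (h2.hasSum) h1
  rw [tsum_mul_left] at h3
  have h4 : 3 / 2 * ‖x - y‖ * (∑' j, St x y j) = ‖x - y‖ * (3 / 2 * S x y) := by rw [S]; ring
  linarith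

lemma hasSum_inner {v : ℕ → E2} {w a : E2} (h : HasSum v a) :
    HasSum (fun j => ⟪v j, w⟫) ⟪a, w⟫ := by
  have h3' := h.mapL (innerSL ℝ w)
  have e1 : (fun j => ⟪v j, w⟫) = fun j => (innerSL ℝ w) (v j) := by
    funext j; rw [innerSL_apply_apply, real_inner_comm]
  have e2 : ⟪a, w⟫ = (innerSL ℝ w) a := by rw [innerSL_apply_apply, real_inner_comm]
  rw [e1, e2]
  exact h3'

lemma inner_F_sub_ge (x y : E2) : ‖x - y‖ ^ 2 * (1 + 1 / 2 * S x y) ≤ ⟪F x - F y, x - y⟫ := by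
  rcases eq_or_ne x y with rfl | hxy
  · simp
  rw [F_sub, inner_add_left, real_inner_self_eq_norm_sq]
  have h1 : ∀ j, 1 / 2 * ‖x - y‖ ^ 2 * St x y j
      ≤ ⟪mj j • (ker (rj j) (x - cj j) - ker (rj j) (y - cj j)), x - y⟫ := by
    intro j
    rw [real_inner_smul_left]
    have := ker_inner (rj_pos j) (x - cj j) (y - cj j)
    rw [sub_sub_sub_cancel_right] at this
    refine le_trans (le_of_eq ?_) (mul_le_mul_of_nonneg_left this (mj_pos j).le)
    rw [St]; ring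
  have h2 : Summable fun j => 1 / 2 * ‖x - y‖ ^ 2 * St x y j := (summable_St hxy).mul_left _
  have h3 : HasSum (fun j => ⟪mj j • (ker (rj j) (x - cj j) - ker (rj j) (y - cj j)), x - y⟫)
      ⟪∑' j, mj j • (ker (rj j) (x - cj j) - ker (rj j) (y - cj j)), x - y⟫ := by
    exact hasSum_inner (summable_diff x y).hasSum
  have h4 := hasSum_le h1 h2.hasSum h3
  rw [tsum_mul_left] at h4
  have h5 : 1 / 2 * ‖x - y‖ ^ 2 * (∑' j, St x y j) = ‖x - y‖ ^ 2 * (1 / 2 * S x y) := by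
    rw [S]; ring
  linarith

lemma S_nonneg (x y : E2) : 0 ≤ S x y := tsum_nonneg (St_nonneg x y)

lemma norm_F_sub_ge (x y : E2) : ‖x - y‖ * (1 + 1 / 2 * S x y) ≤ ‖F x - F y‖ := by
  rcases eq_or_ne x y with rfl | hxy
  · simp
  have hr : 0 < ‖x - y‖ := norm_pos_iff.mpr (sub_ne_zero.mpr hxy)
  have h1 := inner_F_sub_ge x y
  have h2 := real_inner_le_norm (F x - F y) (x - y)
  have h3 : ‖x - y‖ * (1 + 1 / 2 * S x y) * ‖x - y‖ ≤ ‖F x - F y‖ * ‖x - y‖ := by nlinarith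
  exact le_of_mul_le_mul_right h3 hr

lemma F_injective : Function.Injective F := by
  intro x y h
  have h1 := norm_F_sub_ge x y
  rw [h, sub_self, norm_zero] at h1
  have h2 := S_nonneg x y
  have h3 : ‖x - y‖ ≤ 0 := by nlinarith [norm_nonneg (x - y)]
  exact sub_eq_zero.mp (norm_le_zero_iff.mp h3)

lemma S_compare {x y z : E2} (hxy : x ≠ y) (h : ‖x - z‖ = ‖x - y‖) : S x y ≤ 3 * S x z := by
  have hxz : x ≠ z := by
    intro e
    rw [e, sub_self, norm_zero] at h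
    apply hxy
    rw [e]
    exact sub_eq_zero.mp (norm_eq_zero.mp h.symm)
  rw [S, S, ← tsum_mul_left]
  refine Summable.tsum_le_tsum (fun j => ?_) (summable_St hxy) ((summable_St hxz).mul_left 3)
  have h1 : M (rj j) (x - cj j) (z - cj j) ≤ 3 * M (rj j) (x - cj j) (y - cj j) :=
    M_le_of (by rw [sub_sub_sub_cancel_right, sub_sub_sub_cancel_right]; exact h)
  have h2 := M_pos (rj_pos j) (x - cj j) (z - cj j)
  have h3 := M_pos (rj_pos j) (x - cj j) (y - cj j)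
  rw [St, St, ← mul_div_assoc, div_le_div_iff₀ h3 h2]
  have := mj_pos j
  nlinarith

lemma quasisym {x y z : E2} (h : ‖x - z‖ = ‖x - y‖) : ‖F x - F y‖ ≤ 9 * ‖F x - F z‖ := by
  rcases eq_or_ne x y with rfl | hxy
  · simp
  have h1 := norm_F_sub_le x y
  have h2 := norm_F_sub_ge x z
  have h3 := S_compare hxy h
  have h4 := S_nonneg x z
  rw [h] at h2
  have h5 : ‖x - y‖ * (1 + 3 / 2 * S x y) ≤ ‖x - y‖ * (9 * (1 + 1 / 2 * S x z)) :=
    mul_le_mul_of_nonneg_left (by linarith) (norm_nonneg _)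
  nlinarith

/-! ### Hölder continuity -/

lemma sep_aux {i j : ℕ} (h : i < j) :
    1 / (3 * Nj i ^ 2) + 1 / (3 * Nj j ^ 2) ≤ 1 / Nj i - 1 / Nj j := by
  have hi := Nj_ge i
  have hj : Nj i + 1 ≤ Nj j := by
    rw [Nj, Nj]
    have : ((i : ℝ) + 1) ≤ j := by exact_mod_cast h
    linarith
  have h1 : 1 / Nj j ≤ 1 / (Nj i + 1) := one_div_le_one_div_of_le (by linarith) hj
  have h2 : 1 / (3 * Nj j ^ 2) ≤ 1 / (3 * Nj i ^ 2) := by
    apply one_div_le_one_div_of_le (by positivity)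
    nlinarith
  have h3 : 2 * (1 / (3 * Nj i ^ 2)) ≤ 1 / Nj i - 1 / (Nj i + 1) := by
    rw [div_sub_div _ _ (by linarith) (by linarith), ← mul_div_assoc, div_le_div_iff₀ (by positivity) (by positivity)]
    nlinarith [sq_nonneg (Nj i)]
  linarith

lemma norm_cj_sub {i j : ℕ} (h : i < j) : ‖cj i - cj j‖ = 1 / Nj i - 1 / Nj j := by
  have hi := Nj_pos i
  have hj := Nj_pos j
  have h0 : 0 ≤ 1 / Nj i - 1 / Nj j := le_trans (by positivity) (sep_aux h)
  rw [cj, cj, ← sub_smul, norm_smul, norm_e0, mul_one, Real.norm_of_nonneg h0]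

lemma sep {i j : ℕ} (h : i ≠ j) : 1 / (3 * Nj i ^ 2) + 1 / (3 * Nj j ^ 2) ≤ ‖cj i - cj j‖ := by
  rcases lt_or_gt_of_ne h with h | h
  · rw [norm_cj_sub h]; exact sep_aux h
  · rw [norm_sub_rev, norm_cj_sub h, add_comm]; exact sep_aux h

lemma St_le_far {x y : E2} {j : ℕ} (h : 1 / (3 * Nj j ^ 2) ≤ ‖x - cj j‖) :
    St x y j ≤ 2 / Nj j ^ 2 := by
  have hN := Nj_pos j
  have h1 := norm_le_M_sq (rj j) (x - cj j) (y - cj j)
  have hM := M_pos (rj_pos j) (x - cj j) (y - cj j)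
  have h2 : (1 / (2 * Nj j)) ^ 2 ≤ M (rj j) (x - cj j) (y - cj j) ^ 2 := by
    refine le_trans ?_ (h.trans h1)
    rw [div_pow, one_pow]
    apply one_div_le_one_div_of_le (by positivity)
    nlinarith [sq_nonneg (Nj j)]
  have h3 : 1 / (2 * Nj j) ≤ M (rj j) (x - cj j) (y - cj j) :=
    le_of_pow_le_pow_left₀ (by norm_num) hM.le h2
  rw [St, mj, div_le_div_iff₀ hM (by positivity)]
  have h4 : 1 / Nj j ≤ 2 * M (rj j) (x - cj j) (y - cj j) := by
    have : 1 / Nj j = 2 * (1 / (2 * Nj j)) := by field_simp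
    rw [this]; linarith
  calc 1 / Nj j ^ 3 * Nj j ^ 2 = 1 / Nj j := by field_simp
    _ ≤ _ := h4

lemma St_le_near {x y : E2} (hxy : x ≠ y) (j : ℕ) :
    St x y j ≤ (‖x - y‖ / 2) ^ (-(1 / 8 : ℝ)) := by
  have hr : 0 < ‖x - y‖ := norm_pos_iff.mpr (sub_ne_zero.mpr hxy)
  have hN := Nj_pos j
  have hM := M_pos (rj_pos j) (x - cj j) (y - cj j)
  have h1 := rho_le_M_sq (rj j) (x - cj j) (y - cj j)
  have h2 := half_norm_le_M_sq (rj j) (x - cj j) (y - cj j)
  rw [sub_sub_sub_cancel_right] at h2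
  set m := M (rj j) (x - cj j) (y - cj j) with hm
  have h3 : (mj j * (‖x - y‖ / 2) ^ (1 / 8 : ℝ)) ^ 8 ≤ m ^ 8 := by
    rw [mul_pow, ← Real.rpow_natCast ((‖x - y‖ / 2) ^ (1 / 8 : ℝ)), ← Real.rpow_mul (by positivity)]
    norm_num
    have e1 : mj j ^ 8 = rj j ^ 3 := by
      rw [mj, rj, div_pow, div_pow, one_pow, one_pow, ← pow_mul, ← pow_mul]
    rw [e1]
    calc rj j ^ 3 * (‖x - y‖ / 2) ≤ (m ^ 2) ^ 3 * m ^ 2 := by
          gcongr
          exact (rj_pos j).le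
      _ = m ^ 8 := by ring
  have h4 : mj j * (‖x - y‖ / 2) ^ (1 / 8 : ℝ) ≤ m := le_of_pow_le_pow_left₀ (by norm_num) hM.le h3
  rw [St, ← hm, div_le_iff₀ hM, Real.rpow_neg (by positivity)]
  have h5 : 0 < (‖x - y‖ / 2) ^ (1 / 8 : ℝ) := by positivity
  rw [← div_eq_inv_mul, le_div_iff₀ h5]
  exact h4

noncomputable def C1 : ℝ := ∑' j, 2 / Nj j ^ 2

lemma summable_C1 : Summable fun j => 2 / Nj j ^ 2 := by
  have := (summable_pow 2 (by norm_num)).mul_left 2
  refine this.congr fun j => ?_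
  ring

lemma C1_nonneg : 0 ≤ C1 := tsum_nonneg fun j => by have := Nj_pos j; positivity

lemma S_le {x y : E2} (hxy : x ≠ y) : S x y ≤ C1 + (‖x - y‖ / 2) ^ (-(1 / 8 : ℝ)) := by
  have hr : 0 < ‖x - y‖ := norm_pos_iff.mpr (sub_ne_zero.mpr hxy)
  have hp : 0 ≤ (‖x - y‖ / 2) ^ (-(1 / 8 : ℝ)) := by positivity
  by_cases hex : ∃ i, ‖x - cj i‖ < 1 / (3 * Nj i ^ 2)
  · obtain ⟨i, hi⟩ := hex
    have h1 : ∀ j, St x y j ≤ 2 / Nj j ^ 2 + (if j = i then (‖x - y‖ / 2) ^ (-(1 / 8 : ℝ)) else 0) := by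
      intro j
      by_cases hji : j = i
      · rw [if_pos hji]
        have := St_le_near hxy j
        have h2 : 0 ≤ 2 / Nj j ^ 2 := by have := Nj_pos j; positivity
        linarith
      · rw [if_neg hji, add_zero]
        apply St_le_far
        by_contra hcon
        push Not at hcon
        have h3 := sep hji
        have h4 : ‖cj j - cj i‖ ≤ ‖x - cj j‖ + ‖x - cj i‖ := by
          have := norm_sub_le (x - cj i) (x - cj j)
          rw [sub_sub_sub_cancel_left] at this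
          linarith
        linarith
    have h5 : Summable fun j => 2 / Nj j ^ 2 + (if j = i then (‖x - y‖ / 2) ^ (-(1 / 8 : ℝ)) else 0) :=
      summable_C1.add (summable_of_ne_finset_zero (s := {i}) fun j hj => by
        rw [if_neg (by simpa using hj)])
    calc S x y ≤ ∑' j, (2 / Nj j ^ 2 + (if j = i then (‖x - y‖ / 2) ^ (-(1 / 8 : ℝ)) else 0)) :=
          Summable.tsum_le_tsum h1 (summable_St hxy) h5
      _ = _ := by
          rw [Summable.tsum_add summable_C1 (summable_of_ne_finset_zero (s := {i}) fun j hj => by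
            rw [if_neg (by simpa using hj)]), tsum_ite_eq, C1]
  · push Not at hex
    calc S x y ≤ ∑' j, 2 / Nj j ^ 2 :=
          Summable.tsum_le_tsum (fun j => St_le_far (hex j)) (summable_St hxy) summable_C1
      _ ≤ _ := by rw [← C1]; linarith

lemma holder {x y : E2} {R : ℝ} (hR : ‖x - y‖ ≤ R) :
    ‖F x - F y‖ ≤ ((1 + 3 / 2 * C1) * R ^ (1 / 8 : ℝ) + 3) * ‖x - y‖ ^ (7 / 8 : ℝ) := by
  rcases eq_or_ne x y with rfl | hxy
  · simp
  have hr : 0 < ‖x - y‖ := norm_pos_iff.mpr (sub_ne_zero.mpr hxy)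
  have h1 := norm_F_sub_le x y
  have h2 := S_le hxy
  set r := ‖x - y‖ with hrdef
  have hC := C1_nonneg
  have e1 : r = r ^ (1 / 8 : ℝ) * r ^ (7 / 8 : ℝ) := by
    rw [← Real.rpow_add hr]; norm_num
  have e2 : r * (r / 2) ^ (-(1 / 8 : ℝ)) ≤ 2 * r ^ (7 / 8 : ℝ) := by
    rw [Real.div_rpow hr.le (by norm_num), Real.rpow_neg (by norm_num : (0 : ℝ) ≤ 2), div_inv_eq_mul,
      ← mul_assoc]
    have e3 : r * r ^ (-(1 / 8 : ℝ)) = r ^ (7 / 8 : ℝ) := by
      nth_rewrite 1 [← Real.rpow_one r]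
      rw [← Real.rpow_add hr]; norm_num
    rw [e3, mul_comm]
    have e4 : (2 : ℝ) ^ (1 / 8 : ℝ) ≤ 2 := by
      calc (2 : ℝ) ^ (1 / 8 : ℝ) ≤ 2 ^ (1 : ℝ) :=
            Real.rpow_le_rpow_of_exponent_le (by norm_num) (by norm_num)
        _ = 2 := Real.rpow_one 2
    gcongr
  have e5 : r ≤ R ^ (1 / 8 : ℝ) * r ^ (7 / 8 : ℝ) := by
    nth_rewrite 1 [e1]
    gcongr
  have e6 : 0 ≤ R ^ (1 / 8 : ℝ) * r ^ (7 / 8 : ℝ) := hr.le.trans e5
  calc ‖F x - F y‖ ≤ r * (1 + 3 / 2 * S x y) := h1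
    _ ≤ r * (1 + 3 / 2 * (C1 + (r / 2) ^ (-(1 / 8 : ℝ)))) := by gcongr
    _ = (1 + 3 / 2 * C1) * r + 3 / 2 * (r * (r / 2) ^ (-(1 / 8 : ℝ))) := by ring
    _ ≤ (1 + 3 / 2 * C1) * (R ^ (1 / 8 : ℝ) * r ^ (7 / 8 : ℝ)) + 3 / 2 * (2 * r ^ (7 / 8 : ℝ)) := by
        gcongr
    _ = _ := by ring

lemma F_continuous : Continuous F := by
  rw [continuous_iff_continuousAt]
  intro x
  rw [Metric.continuousAt_iff]
  intro ε hε
  set K := (1 + 3 / 2 * C1) * (1 : ℝ) ^ (1 / 8 : ℝ) + 3 with hK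
  have hK0 : 0 < K := by have := C1_nonneg; rw [hK, Real.one_rpow]; positivity
  have ht : Tendsto (fun t : ℝ => K * t ^ (7 / 8 : ℝ)) (𝓝 0) (𝓝 (K * 0 ^ (7 / 8 : ℝ))) := by
    apply Tendsto.const_mul
    exact (Real.continuousAt_rpow_const 0 (7 / 8 : ℝ) (Or.inr (by norm_num))).tendsto
  rw [Real.zero_rpow (by norm_num), mul_zero] at ht
  obtain ⟨δ, hδ, hd⟩ := Metric.tendsto_nhds_nhds.mp ht ε hε
  refine ⟨min δ 1, lt_min hδ one_pos, fun {y} hy => ?_⟩
  rw [dist_eq_norm] at hy ⊢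
  have h1 : ‖y - x‖ ≤ 1 := (hy.trans_le (min_le_right _ _)).le
  have h2 := holder h1
  have h3 := hd (x := ‖y - x‖) (by
    rw [Real.dist_eq, sub_zero, abs_of_nonneg (norm_nonneg _)]
    exact hy.trans_le (min_le_left _ _))
  rw [Real.dist_eq, sub_zero, abs_of_nonneg (by positivity)] at h3
  exact h2.trans_lt h3

/-- lower bound in the ball around `cj j` -/
lemma inner_lower (j : ℕ) {x : E2} (hx : ‖x - cj j‖ ≤ rj j) {t : ℝ} (ht : 0 < t) (ht' : t ≤ rj j) :
    Nj j / 4 * t ≤ ⟪F x - F (x - t • e0), e0⟫ := by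
  have hN := Nj_pos j
  have hr := rj_pos j
  have h1 := inner_F_sub_ge x (x - t • e0)
  have e1 : x - (x - t • e0) = t • e0 := by abel
  have hn : ‖t • e0‖ = t := by rw [norm_smul, norm_e0, mul_one, Real.norm_of_nonneg ht.le]
  rw [e1, real_inner_smul_right, hn] at h1
  have hne : x ≠ x - t • e0 := by
    intro e
    have : t • e0 = 0 := by
      have := sub_eq_zero.mpr e
      rwa [e1] at this
    rw [this, norm_zero] at hn
    linarith
  have h2 : St x (x - t • e0) j ≤ S x (x - t • e0) :=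
    (summable_St hne).le_tsum j (fun i _ => St_nonneg _ _ i)
  have hM := M_pos (rj_pos j) (x - cj j) (x - t • e0 - cj j)
  have h3 : M (rj j) (x - cj j) (x - t • e0 - cj j) ^ 4 ≤ 5 * rj j ^ 2 := by
    have h4 : ‖x - t • e0 - cj j‖ ≤ 2 * rj j := by
      have : x - t • e0 - cj j = (x - cj j) - t • e0 := by abel
      rw [this]
      refine (norm_sub_le _ _).trans ?_
      rw [hn]; linarith
    rw [M]
    rcases max_choice (U (rj j) (x - cj j)) (U (rj j) (x - t • e0 - cj j)) with h | h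
    · rw [h, U_pow]
      have : ‖x - cj j‖ ^ 2 ≤ rj j ^ 2 := by gcongr
      nlinarith [sq_nonneg (rj j)]
    · rw [h, U_pow]
      have : ‖x - t • e0 - cj j‖ ^ 2 ≤ (2 * rj j) ^ 2 := by gcongr
      nlinarith [sq_nonneg (rj j)]
  have h5 : M (rj j) (x - cj j) (x - t • e0 - cj j) ≤ 2 / Nj j ^ 4 := by
    have h6 : M (rj j) (x - cj j) (x - t • e0 - cj j) ^ 4 ≤ (2 / Nj j ^ 4) ^ 4 := by
      refine h3.trans ?_
      rw [rj, div_pow, div_pow, one_pow, ← pow_mul, ← pow_mul]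
      rw [← mul_div_assoc, mul_one]
      gcongr
      norm_num
    exact le_of_pow_le_pow_left₀ (by norm_num) (by positivity) h6
  have h7 : Nj j / 2 ≤ St x (x - t • e0) j := by
    rw [St, mj, le_div_iff₀ hM]
    calc Nj j / 2 * M (rj j) (x - cj j) (x - t • e0 - cj j) ≤ Nj j / 2 * (2 / Nj j ^ 4) := by gcongr
      _ = 1 / Nj j ^ 3 := by field_simp
  have h8 : t ^ 2 * (Nj j / 4) ≤ t * ⟪F x - F (x - t • e0), e0⟫ := by
    refine le_trans ?_ h1
    gcongr
    linarith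
  have h9 : t * (Nj j / 4 * t) ≤ t * ⟪F x - F (x - t • e0), e0⟫ := by
    calc t * (Nj j / 4 * t) = t ^ 2 * (Nj j / 4) := by ring
      _ ≤ _ := h8
  exact le_of_mul_le_mul_left h9 ht

end Pool.Agent.H164R3.Qc
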