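import Pool.Agent.H164R3.QcMap

set_option autoImplicit false

open scoped RealInnerProductSpace ContDiff
open Filter Topology MeasureTheory Metric

namespace Pool.Agent.H164R3.Qc

noncomputable def Fs (x : E2) : ℝ := ⟪F x, e0⟫

lemma Fs_continuous : Continuous Fs := F_continuous.inner continuous_const

lemma hasDerivAt_shift {φ : E2 → ℝ} (hφ : ContDiff ℝ (⊤ : ℕ∞) φ) (hc : HasCompactSupport φ) :
    HasDerivAt (fun t : ℝ => ∫ x, φ (x + t • e0) * Fs x) (∫ x, (fderiv ℝ φ x e0) * Fs x) 0 := by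
  have hφ1 : ContDiff ℝ 1 φ := hφ.of_le (by exact_mod_cast le_top)
  have hd : Continuous (fderiv ℝ φ) := hφ1.continuous_fderiv (by norm_num)
  obtain ⟨C, hC⟩ := (hc.fderiv (𝕜 := ℝ)).exists_bound_of_continuous hd
  obtain ⟨R, hR⟩ := hc.isCompact.isBounded.subset_closedBall 0
  have hFs := Fs_continuous
  have hout : ∀ (a : E2) (t : ℝ), t ∈ ball (0 : ℝ) 1 → a ∉ closedBall (0 : E2) (R + 1) →
      fderiv ℝ φ (a + t • e0) = 0 := by
    intro a t ht ha
    by_contra hne
    have h1 : a + t • e0 ∈ tsupport φ := by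
      by_contra h2
      exact hne (fderiv_of_notMem_tsupport ℝ h2)
    have h3 := hR h1
    rw [mem_closedBall, dist_zero_right] at h3 ha
    apply ha
    have h4 : ‖a‖ ≤ ‖a + t • e0‖ + ‖t • e0‖ := by
      have := norm_sub_le (a + t • e0) (t • e0)
      rwa [add_sub_cancel_right] at this
    have h5 : ‖t • e0‖ ≤ 1 := by
      rw [norm_smul, norm_e0, mul_one]
      rw [mem_ball, dist_zero_right] at ht
      exact ht.le
    linarith
  have key := hasDerivAt_integral_of_dominated_loc_of_deriv_le (μ := (volume : Measure E2))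
    (F := fun (t : ℝ) (x : E2) => φ (x + t • e0) * Fs x)
    (F' := fun (t : ℝ) (x : E2) => fderiv ℝ φ (x + t • e0) e0 * Fs x)
    (x₀ := (0 : ℝ)) (s := ball (0 : ℝ) 1)
    (bound := (closedBall (0 : E2) (R + 1)).indicator fun a => C * ‖Fs a‖)
    (ball_mem_nhds _ one_pos) ?_ ?_ ?_ ?_ ?_ ?_
  · have := key.2
    simpa using this
  · refine Eventually.of_forall fun t => Continuous.aestronglyMeasurable ?_
    have := hφ.continuous
    fun_prop
  · have hcont := hφ.continuous
    have h1 : Integrable (fun x => φ x * Fs x) (volume : Measure E2) :=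
      Continuous.integrable_of_hasCompactSupport (by fun_prop) hc.mul_right
    simpa using h1
  · apply Continuous.aestronglyMeasurable
    simp only [zero_smul, add_zero]
    fun_prop
  · refine Eventually.of_forall fun a t ht => ?_
    by_cases ha : a ∈ closedBall (0 : E2) (R + 1)
    · rw [Set.indicator_of_mem ha, norm_mul]
      refine mul_le_mul_of_nonneg_right ?_ (norm_nonneg _)
      refine (ContinuousLinearMap.le_opNorm _ _).trans ?_
      rw [norm_e0, mul_one]
      exact hC _
    · rw [Set.indicator_of_notMem ha, hout a t ht ha]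
      simp
  · rw [integrable_indicator_iff measurableSet_closedBall]
    apply ContinuousOn.integrableOn_compact (isCompact_closedBall _ _)
    fun_prop
  · refine Eventually.of_forall fun a t _ => ?_
    have h1 : HasFDerivAt φ (fderiv ℝ φ (a + t • e0)) (a + t • e0) :=
      (hφ1.differentiable (by norm_num) _).hasFDerivAt
    have h2 : HasDerivAt (fun s : ℝ => a + s • e0) e0 t := by
      have := ((hasDerivAt_id t).smul_const e0).const_add a
      simpa using this
    exact (h1.comp_hasDerivAt t h2).mul_const _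

lemma key_test (j : ℕ) {φ : E2 → ℝ} (hφ : ContDiff ℝ (⊤ : ℕ∞) φ) (hc : HasCompactSupport φ)
    (h0 : ∀ x, 0 ≤ φ x) (hs : ∀ x, φ x ≠ 0 → ‖x - cj j‖ ≤ rj j) :
    ∫ x, (fderiv ℝ φ x e0) * Fs x ≤ -(Nj j / 4 * ∫ x, φ x) := by
  have hd := hasDerivAt_shift hφ hc
  rw [hasDerivAt_iff_tendsto_slope_zero] at hd
  have hd' : Tendsto (fun t : ℝ => t⁻¹ • ((∫ x, φ (x + (0 + t) • e0) * Fs x)
      - ∫ x, φ (x + (0 : ℝ) • e0) * Fs x)) (𝓝[>] 0) (𝓝 (∫ x, (fderiv ℝ φ x e0) * Fs x)) :=
    hd.mono_left (nhdsWithin_mono _ (by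
      intro t ht
      exact ne_of_gt ht))
  refine le_of_tendsto hd' ?_
  have hcont := hφ.continuous
  have hFs := Fs_continuous
  filter_upwards [Ioc_mem_nhdsGT (rj_pos j)] with t ht
  obtain ⟨ht0, ht1⟩ := ht
  have e1 : ∫ x, φ (x + (0 + t) • e0) * Fs x = ∫ x, φ x * Fs (x - t • e0) := by
    rw [← integral_add_right_eq_self (μ := (volume : Measure E2)) (fun x => φ x * Fs (x - t • e0)) (t • e0)]
    simp
  have e2 : ∫ x, φ (x + (0 : ℝ) • e0) * Fs x = ∫ x, φ x * Fs x := by simp
  have i1 : Integrable (fun x => φ x * Fs (x - t • e0)) (volume : Measure E2) :=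
    Continuous.integrable_of_hasCompactSupport (by fun_prop) hc.mul_right
  have i2 : Integrable (fun x => φ x * Fs x) (volume : Measure E2) :=
    Continuous.integrable_of_hasCompactSupport (by fun_prop) hc.mul_right
  have i3 : Integrable φ (volume : Measure E2) :=
    hcont.integrable_of_hasCompactSupport hc
  rw [e1, e2, ← integral_sub i1 i2, smul_eq_mul, inv_mul_le_iff₀ ht0]
  have e3 : t * -(Nj j / 4 * ∫ x, φ x) = ∫ x, -(Nj j / 4 * t) * φ x := by
    rw [integral_const_mul]; ring
  rw [e3]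
  refine integral_mono (i1.sub i2) (i3.const_mul _) fun x => ?_
  simp only
  rcases eq_or_ne (φ x) 0 with h | h
  · rw [h]; simp
  · have h1 := inner_lower j (hs x h) ht0 ht1
    have h2 : Fs x - Fs (x - t • e0) = ⟪F x - F (x - t • e0), e0⟫ := by
      rw [Fs, Fs, inner_sub_left]
    rw [← h2] at h1
    have h3 := h0 x
    nlinarith

lemma tangent {a c : ℝ} (ha : 0 ≤ a) (hc : 0 < c) : c ^ 15 + 15 * c ^ 14 * (a - c) ≤ a ^ 15 := by
  have h := one_add_mul_le_pow (a := (a - c) / c) (by rw [le_div_iff₀ hc]; linarith) 15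
  have e1 : 1 + (a - c) / c = a / c := by field_simp; ring
  rw [e1, div_pow] at h
  have h2 : c ^ 15 * (1 + ((15 : ℕ) : ℝ) * ((a - c) / c)) ≤ c ^ 15 * (a ^ 15 / c ^ 15) :=
    mul_le_mul_of_nonneg_left h (by positivity)
  have e2 : c ^ 15 * (a ^ 15 / c ^ 15) = a ^ 15 := by field_simp
  rw [e2] at h2
  refine le_trans (le_of_eq ?_) h2
  push_cast
  field_simp

/-- the bump -/
noncomputable def bump (j : ℕ) : ContDiffBump (cj j) :=
  ⟨rj j / 2, rj j, half_pos (rj_pos j), by linarith [rj_pos j]⟩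

/-- the balls -/
def Bj (j : ℕ) : Set E2 := closedBall (cj j) (rj j)

noncomputable def κ : ℝ := (volume : Measure E2).real (ball 0 1)

lemma κ_pos : 0 < κ := by
  rw [κ, Measure.real]
  exact ENNReal.toReal_pos (measure_ball_pos _ _ one_pos).ne' measure_ball_lt_top.ne

lemma integral_bump_ge (j : ℕ) : (rj j / 2) ^ 2 * κ ≤ ∫ x, bump j x := by
  refine le_trans (le_of_eq ?_) ((bump j).measure_closedBall_le_integral volume)
  rw [κ, Measure.real, Measure.real, Measure.addHaar_closedBall _ _ (bump j).rIn_pos.le,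
    ENNReal.toReal_mul, ENNReal.toReal_ofReal (pow_nonneg (bump j).rIn_pos.le _)]
  simp [bump]

lemma bump_support {j : ℕ} {x : E2} (h : bump j x ≠ 0) : x ∈ Bj j := by
  have : x ∈ Function.support (bump j) := h
  rw [(bump j).support_eq] at this
  exact ball_subset_closedBall this

lemma lower_ball (g : E2 → (E2 →L[ℝ] E2)) (hg : LocallyIntegrableOn g Set.univ)
    (hgp : ∀ K ⊆ (Set.univ : Set E2), IsCompact K →
      ∫⁻ x in K, ENNReal.ofReal ‖g x‖ ^ (15 : ℝ) < ⊤)
    (hw : ∀ φ : E2 → ℝ, ContDiff ℝ (⊤ : ℕ∞) φ → HasCompactSupport φ → tsupport φ ⊆ Set.univ →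
        ∀ v : E2, ∫ x, (fderiv ℝ φ x v) • F x = - ∫ x, φ x • (g x v)) (j : ℕ) :
    ENNReal.ofReal ((Nj j / 4) ^ 15 * ((rj j / 2) ^ 2 * κ))
      ≤ ∫⁻ x in Bj j, ENNReal.ofReal ‖g x‖ ^ (15 : ℝ) := by
  have hN := Nj_pos j
  have hg' : LocallyIntegrable g := locallyIntegrableOn_univ.mp hg
  set φ : E2 → ℝ := ⇑(bump j) with hφdef
  have hφ : ContDiff ℝ (⊤ : ℕ∞) φ := (bump j).contDiff
  have hc : HasCompactSupport φ := (bump j).hasCompactSupport
  have h0 : ∀ x, 0 ≤ φ x := fun x => (bump j).nonneg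
  have h1 : ∀ x, φ x ≤ 1 := fun x => (bump j).le_one
  have hsupp : ∀ x, φ x ≠ 0 → x ∈ Bj j := fun x hx => bump_support hx
  have hcomp : IsCompact (Bj j) := isCompact_closedBall _ _
  have hcont := hφ.continuous
  have hd : Continuous (fderiv ℝ φ) :=
    (hφ.of_le (by exact_mod_cast le_top) : ContDiff ℝ 1 φ).continuous_fderiv (by norm_num)
  have hFc := F_continuous
  -- step 1
  have ig : Integrable (fun x => φ x • g x) := hg'.integrable_smul_left_of_hasCompactSupport hcont hc
  have ig2 : Integrable (fun x => φ x • (g x e0)) := by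
    have := ig.apply_continuousLinearMap e0
    simpa using this
  have iF : Integrable (fun x => (fderiv ℝ φ x e0) • F x) := by
    apply Continuous.integrable_of_hasCompactSupport (by fun_prop)
    have : HasCompactSupport (fun x => fderiv ℝ φ x e0) := hc.fderiv_apply (𝕜 := ℝ) e0
    exact this.smul_right
  have step1 : Nj j / 4 * ∫ x, φ x ≤ ∫ x, φ x * ‖g x‖ := by
    have hk := key_test j hφ hc h0 (fun x hx => by
      have := hsupp x hx
      rwa [Bj, mem_closedBall, dist_eq_norm] at this)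
    have e := hw φ hφ hc (Set.subset_univ _) e0
    have e' := congrArg (fun v => ⟪v, e0⟫) e
    simp only [inner_neg_left] at e'
    have a1 : ⟪∫ x, (fderiv ℝ φ x e0) • F x, e0⟫ = ∫ x, (fderiv ℝ φ x e0) * Fs x := by
      rw [real_inner_comm, ← integral_inner iF]
      refine integral_congr_ae (Eventually.of_forall fun x => ?_)
      simp only [real_inner_smul_right, Fs, real_inner_comm]
    have a2 : ⟪∫ x, φ x • (g x e0), e0⟫ = ∫ x, φ x * ⟪e0, g x e0⟫ := by
      rw [real_inner_comm, ← integral_inner ig2]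
      refine integral_congr_ae (Eventually.of_forall fun x => ?_)
      simp only [real_inner_smul_right]
    rw [a1, a2] at e'
    have a3 : ∫ x, φ x * ⟪e0, g x e0⟫ ≤ ∫ x, φ x * ‖g x‖ := by
      refine integral_mono ?_ ?_ fun x => ?_
      · have := ig2.const_inner (𝕜 := ℝ) e0
        refine this.congr (Eventually.of_forall fun x => ?_)
        simp only [real_inner_smul_right]
      · refine ig.norm.congr (Eventually.of_forall fun x => ?_)
        simp only [norm_smul, Real.norm_of_nonneg (h0 x)]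
      · refine mul_le_mul_of_nonneg_left ?_ (h0 x)
        refine (real_inner_le_norm _ _).trans ?_
        rw [norm_e0, one_mul]
        refine (ContinuousLinearMap.le_opNorm _ _).trans ?_
        rw [norm_e0, mul_one]
    linarith
  -- step 2
  have hfin := hgp (Bj j) (Set.subset_univ _) hcomp
  have hgm : AEStronglyMeasurable g (volume.restrict (Bj j)) :=
    (hg'.integrableOn_isCompact hcomp).aestronglyMeasurable
  have erw : ∀ x, ENNReal.ofReal ‖g x‖ ^ (15 : ℝ) = ENNReal.ofReal (‖g x‖ ^ 15) := by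
    intro x
    rw [ENNReal.ofReal_rpow_of_nonneg (norm_nonneg _) (by norm_num)]
    congr 1
    exact_mod_cast Real.rpow_natCast ‖g x‖ 15
  simp only [erw] at hfin ⊢
  have iG : IntegrableOn (fun x => ‖g x‖ ^ 15) (Bj j) := by
    refine ⟨(hgm.norm.pow 15), ?_⟩
    rw [hasFiniteIntegral_iff_ofReal (Eventually.of_forall fun x => by positivity)]
    exact hfin
  rw [← ofReal_integral_eq_lintegral_ofReal iG (Eventually.of_forall fun x => by positivity)]
  apply ENNReal.ofReal_le_ofReal
  have iφ : Integrable φ := hcont.integrable_of_hasCompactSupport hc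
  have iφg : Integrable (fun x => φ x * ‖g x‖) := by
    refine ig.norm.congr (Eventually.of_forall fun x => ?_)
    simp only [norm_smul, Real.norm_of_nonneg (h0 x)]
  have iφG : IntegrableOn (fun x => φ x * ‖g x‖ ^ 15) (Bj j) := by
    refine Integrable.mono iG (hcont.aestronglyMeasurable.mul (hgm.norm.pow 15)) ?_
    refine Eventually.of_forall fun x => ?_
    rw [norm_mul, Real.norm_of_nonneg (h0 x)]
    exact mul_le_of_le_one_left (norm_nonneg _) (h1 x)
  have s1 : ∫ x in Bj j, φ x = ∫ x, φ x :=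
    setIntegral_eq_integral_of_forall_compl_eq_zero fun x hx => by
      by_contra h; exact hx (hsupp x h)
  have s2 : ∫ x in Bj j, φ x * ‖g x‖ = ∫ x, φ x * ‖g x‖ :=
    setIntegral_eq_integral_of_forall_compl_eq_zero fun x hx => by
      by_contra h; exact hx (hsupp x (left_ne_zero_of_mul h))
  set c := Nj j / 4 with hcdef
  have hc0 : 0 < c := by positivity
  calc c ^ 15 * ((rj j / 2) ^ 2 * κ) ≤ c ^ 15 * ∫ x, φ x := by
        gcongr; exact integral_bump_ge j
    _ ≤ c ^ 15 * (∫ x, φ x) + 15 * c ^ 14 * ((∫ x, φ x * ‖g x‖) - c * ∫ x, φ x) := by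
        have : 0 ≤ 15 * c ^ 14 * ((∫ x, φ x * ‖g x‖) - c * ∫ x, φ x) :=
          mul_nonneg (by positivity) (by linarith)
        linarith
    _ = ∫ x in Bj j, (c ^ 15 * φ x + 15 * c ^ 14 * (φ x * ‖g x‖ - c * φ x)) := by
        have i1 : Integrable (fun x => c ^ 15 * φ x) (volume.restrict (Bj j)) :=
          iφ.integrableOn.const_mul _
        have i0 : Integrable (fun x => c * φ x) (volume.restrict (Bj j)) :=
          iφ.integrableOn.const_mul _
        have i3 : Integrable (fun x => φ x * ‖g x‖) (volume.restrict (Bj j)) := iφg.integrableOn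
        have i2 : Integrable (fun x => φ x * ‖g x‖ - c * φ x) (volume.restrict (Bj j)) := i3.sub i0
        have i4 : Integrable (fun x => 15 * c ^ 14 * (φ x * ‖g x‖ - c * φ x))
            (volume.restrict (Bj j)) := i2.const_mul _
        rw [integral_add i1 i4, integral_const_mul, integral_const_mul,
          integral_sub i3 i0, integral_const_mul, s1, s2]
    _ ≤ ∫ x in Bj j, φ x * ‖g x‖ ^ 15 := by
        refine integral_mono ((iφ.integrableOn.const_mul _).add
          ((iφg.integrableOn.sub (iφ.integrableOn.const_mul _)).const_mul _)) iφG fun x => ?_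
        have ht := tangent (norm_nonneg (g x)) hc0
        have := mul_le_mul_of_nonneg_left ht (h0 x)
        simp only
        linarith
    _ ≤ ∫ x in Bj j, ‖g x‖ ^ 15 := by
        refine integral_mono iφG iG fun x => ?_
        exact mul_le_of_le_one_left (by positivity) (h1 x)

lemma Bj_disjoint : Pairwise (Function.onFun Disjoint Bj) := by
  intro i j hij
  rw [Function.onFun, Set.disjoint_left]
  intro x hi hj
  rw [Bj, mem_closedBall, dist_eq_norm] at hi hj
  have h1 := sep hij
  have h2 : ‖cj i - cj j‖ ≤ ‖x - cj i‖ + ‖x - cj j‖ := by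
    have := norm_sub_le (x - cj j) (x - cj i)
    rw [sub_sub_sub_cancel_left] at this
    linarith
  have h3 : ∀ k, rj k < 1 / (3 * Nj k ^ 2) := by
    intro k
    have hN := Nj_ge k
    rw [rj]
    apply one_div_lt_one_div_of_lt (by positivity)
    have h4 : (3 : ℝ) < Nj k ^ 6 := by
      calc (3 : ℝ) < 2 ^ 6 := by norm_num
        _ ≤ Nj k ^ 6 := by gcongr
    calc 3 * Nj k ^ 2 < Nj k ^ 6 * Nj k ^ 2 := by
          apply mul_lt_mul_of_pos_right h4; positivity
      _ = Nj k ^ 8 := by ring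
  linarith [h3 i, h3 j]

lemma Bj_subset : (⋃ j, Bj j) ⊆ closedBall (0 : E2) 2 := by
  intro x hx
  rw [Set.mem_iUnion] at hx
  obtain ⟨j, hj⟩ := hx
  rw [Bj, mem_closedBall, dist_eq_norm] at hj
  rw [mem_closedBall, dist_zero_right]
  have h1 : ‖x‖ ≤ ‖x - cj j‖ + ‖cj j‖ := by
    have := norm_add_le (x - cj j) (cj j)
    rwa [sub_add_cancel] at this
  linarith [rj_le_one j, norm_cj_le j]

theorem not_sobolev : ¬ ∃ g : E2 → (E2 →L[ℝ] E2), LocallyIntegrableOn g Set.univ ∧
    (∀ K ⊆ (Set.univ : Set E2), IsCompact K →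
      ∫⁻ x in K, ENNReal.ofReal ‖g x‖ ^ (15 : ℝ) < ⊤) ∧
    ∀ φ : E2 → ℝ, ContDiff ℝ (⊤ : ℕ∞) φ → HasCompactSupport φ → tsupport φ ⊆ Set.univ →
        ∀ v : E2, ∫ x, (fderiv ℝ φ x v) • F x = - ∫ x, φ x • (g x v) := by
  rintro ⟨g, hg, hgp, hw⟩
  have h1 := lower_ball g hg hgp hw
  have h2 := hgp (closedBall 0 2) (Set.subset_univ _) (isCompact_closedBall _ _)
  have h3 : ∫⁻ x in ⋃ j, Bj j, ENNReal.ofReal ‖g x‖ ^ (15 : ℝ)
      = ∑' j, ∫⁻ x in Bj j, ENNReal.ofReal ‖g x‖ ^ (15 : ℝ) :=
    lintegral_iUnion (fun j => measurableSet_closedBall) Bj_disjoint _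
  have h4 : ∑' j, ENNReal.ofReal ((Nj j / 4) ^ 15 * ((rj j / 2) ^ 2 * κ)) < ⊤ := by
    refine lt_of_le_of_lt ?_ h2
    refine le_trans ?_ (lintegral_mono_set Bj_subset)
    rw [h3]
    exact ENNReal.tsum_le_tsum h1
  have h5 := ENNReal.summable_toReal h4.ne
  have h6 : Summable fun j : ℕ => 1 / Nj j := by
    have h7 := h5.mul_left (4 ^ 16 / κ)
    refine h7.congr fun j => ?_
    have hN := Nj_pos j
    have hκ := κ_pos
    have hr := rj_pos j
    rw [ENNReal.toReal_ofReal (by positivity), rj]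
    field_simp
    norm_num
  have h8 : Summable fun j : ℕ => 1 / ((j : ℕ) : ℝ) := by
    rw [← summable_nat_add_iff 2]
    refine h6.congr fun j => ?_
    rw [Nj]; push_cast; rfl
  exact Real.not_summable_one_div_natCast h8

end Pool.Agent.H164R3.Qc
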