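import Pool.Agent.H164R3.SprSample

/-!
# Discretization of phase retrieval
-/

open MeasureTheory

namespace Pool.H164.Spr

section Pointwise

variable {𝕜 : Type*} [RCLike 𝕜]

/-- The map `s ↦ ||a + s b| - |s b - a||` does not increase when `s` goes from `1` down. -/
lemma mono_pt (a b : 𝕜) {s : ℝ} (h0 : 0 ≤ s) (h1 : s ≤ 1) :
    |‖a + (s:𝕜) * b‖ - ‖(s:𝕜) * b - a‖| ≤ |‖a + b‖ - ‖b - a‖| := by
  have hsq : ‖a + (s:𝕜) * b‖ ^ 2 - ‖(s:𝕜) * b - a‖ ^ 2 = s * (‖a + b‖ ^ 2 - ‖b - a‖ ^ 2) := by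
    rw [@norm_add_sq 𝕜, @norm_sub_sq 𝕜, @norm_add_sq 𝕜, @norm_sub_sq 𝕜]
    have e1 : RCLike.re (inner 𝕜 a ((s:𝕜) * b)) = s * RCLike.re (inner 𝕜 a b) := by
      rw [← smul_eq_mul, inner_smul_right, RCLike.re_ofReal_mul]
    have e2 : RCLike.re (inner 𝕜 ((s:𝕜) * b) a) = s * RCLike.re (inner 𝕜 a b) := by
      rw [← inner_re_symm, e1]
    have e3 : RCLike.re (inner 𝕜 b a) = RCLike.re (inner 𝕜 a b) := inner_re_symm b a
    rw [e1, e2, e3]
    ring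
  have hs : ∀ r : ℝ, 0 ≤ r → ∀ z : 𝕜, ‖(r:𝕜) * z‖ = r * ‖z‖ := by
    intro r hr z
    rw [norm_mul, RCLike.norm_ofReal, abs_of_nonneg hr]
  have k1 : s * ‖a + b‖ ≤ ((1 + s) / 2) * ‖a + (s:𝕜) * b‖ + ((1 - s) / 2) * ‖(s:𝕜) * b - a‖ := by
    rw [← hs s h0, ← hs _ (by linarith), ← hs _ (by linarith)]
    have e : (s:𝕜) * (a + b) = (((1 + s) / 2 : ℝ) : 𝕜) * (a + (s:𝕜) * b) +
        (((1 - s) / 2 : ℝ) : 𝕜) * ((s:𝕜) * b - a) := by
      push_cast
      ring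
    rw [e]
    exact norm_add_le _ _
  have k2 : s * ‖b - a‖ ≤ ((1 + s) / 2) * ‖(s:𝕜) * b - a‖ + ((1 - s) / 2) * ‖a + (s:𝕜) * b‖ := by
    rw [← hs s h0, ← hs _ (by linarith), ← hs _ (by linarith)]
    have e : (s:𝕜) * (b - a) = (((1 + s) / 2 : ℝ) : 𝕜) * ((s:𝕜) * b - a) +
        (((1 - s) / 2 : ℝ) : 𝕜) * (a + (s:𝕜) * b) := by
      push_cast
      ring
    rw [e]
    exact norm_add_le _ _
  set P := ‖a + b‖
  set Q := ‖b - a‖
  set p := ‖a + (s:𝕜) * b‖ with hp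
  set q := ‖(s:𝕜) * b - a‖ with hq
  have hp0 : 0 ≤ p := norm_nonneg _
  have hq0 : 0 ≤ q := norm_nonneg _
  have hP0 : 0 ≤ P := norm_nonneg _
  have hQ0 : 0 ≤ Q := norm_nonneg _
  have hle : s * (P + Q) ≤ p + q := by nlinarith
  have hid : |p - q| * (p + q) = s * (P + Q) * |P - Q| := by
    have e1 : |p - q| * (p + q) = |p ^ 2 - q ^ 2| := by
      rw [show p ^ 2 - q ^ 2 = (p - q) * (p + q) by ring, abs_mul,
        abs_of_nonneg (add_nonneg hp0 hq0)]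
    have e2 : s * (P + Q) * |P - Q| = |s * (P ^ 2 - Q ^ 2)| := by
      rw [show s * (P ^ 2 - Q ^ 2) = (s * (P + Q)) * (P - Q) by ring, abs_mul (s * (P + Q)),
        abs_of_nonneg (mul_nonneg h0 (add_nonneg hP0 hQ0))]
    rw [e1, e2, hsq]
  rcases (add_nonneg hp0 hq0).eq_or_lt with h | h
  · have hp' : p = 0 := by linarith
    have hq' : q = 0 := by linarith
    rw [hp', hq', sub_zero, abs_zero]
    exact abs_nonneg _
  · have h2 : |p - q| * (p + q) ≤ |P - Q| * (p + q) := by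
      rw [hid]
      nlinarith [abs_nonneg (P - Q)]
    exact le_of_mul_le_mul_right h2 h

end Pointwise

variable {𝕜 : Type*} [RCLike 𝕜] {H : Type*} [NormedAddCommGroup H] [InnerProductSpace 𝕜 H]

/-- Reduction to orthogonal pairs. -/
lemma reduce (v w : H) : ∃ c : 𝕜, ‖c‖ = 1 ∧ ∃ p q : H, (inner 𝕜 p q) = 0 ∧
    ‖p‖ ^ 2 + ‖q‖ ^ 2 = ‖v - c • w‖ ^ 2 ∧
    ∀ z : H, |‖(inner 𝕜 z p)‖ - ‖(inner 𝕜 z q)‖| ≤ |‖(inner 𝕜 z v)‖ - ‖(inner 𝕜 z w)‖| := by
  obtain ⟨c, hc, hcv⟩ := RCLike.exists_norm_eq_mul_self (inner 𝕜 v w)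
  refine ⟨c, hc, ?_⟩
  have hw : ∀ z : H, ‖(inner 𝕜 z w)‖ = ‖(inner 𝕜 z (c • w))‖ := by
    intro z
    rw [inner_smul_right, norm_mul, hc, one_mul]
  simp only [hw]
  have hvw : (inner 𝕜 v (c • w)) = ((‖(inner 𝕜 v w)‖ : ℝ) : 𝕜) := by rw [inner_smul_right, hcv]
  set r := ‖(inner 𝕜 v w)‖ with hr
  have hr0 : 0 ≤ r := norm_nonneg _
  clear hcv hw
  generalize c • w = w' at hvw ⊢
  have hwv : (inner 𝕜 w' v) = ((r : ℝ) : 𝕜) := by
    rw [← inner_conj_symm, hvw, RCLike.conj_ofReal]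
  obtain ⟨u, hu⟩ : ∃ u, u = v - w' := ⟨_, rfl⟩
  obtain ⟨y, hy⟩ : ∃ y, y = v + w' := ⟨_, rfl⟩
  rw [← hu]
  have huy : ‖u‖ ≤ ‖y‖ := by
    refine abs_le_of_sq_le_sq' ?_ (norm_nonneg _) |>.2
    rw [hu, hy, @norm_sub_sq 𝕜, @norm_add_sq 𝕜, hvw, RCLike.ofReal_re]
    linarith
  set s := ‖u‖ / ‖y‖ with hs
  have hs0 : 0 ≤ s := by positivity
  have hs1 : s ≤ 1 := div_le_one_of_le₀ huy (norm_nonneg _)
  have hsy : s * ‖y‖ = ‖u‖ := by
    rcases eq_or_ne ‖y‖ 0 with h | h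
    · rw [h, mul_zero]; exact (le_antisymm (h ▸ huy) (norm_nonneg _)).symm
    · rw [hs, div_mul_cancel₀ _ h]
  have hnsy : ‖(s:𝕜) • y‖ = ‖u‖ := by
    rw [norm_smul, RCLike.norm_ofReal, abs_of_nonneg hs0, hsy]
  refine ⟨(1/2:𝕜) • (u + (s:𝕜) • y), (1/2:𝕜) • ((s:𝕜) • y - u), ?_, ?_, ?_⟩
  · have e1 : (inner 𝕜 u y) = (inner 𝕜 y u) := by
      rw [hu, hy]
      simp only [inner_sub_left, inner_add_right, inner_add_left, inner_sub_right, hvw, hwv]
      ring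
    have e2 : (inner 𝕜 ((s:𝕜) • y) ((s:𝕜) • y)) = (inner 𝕜 u u) := by
      rw [inner_self_eq_norm_sq_to_K, inner_self_eq_norm_sq_to_K, hnsy]
    rw [inner_smul_left, inner_smul_right, inner_add_left, inner_sub_right, inner_sub_right, e2]
    have e3 : (inner 𝕜 u ((s:𝕜) • y)) = (inner 𝕜 ((s:𝕜) • y) u) := by
      rw [inner_smul_right, inner_smul_left, RCLike.conj_ofReal, e1]
    rw [e3]
    ring
  · rw [norm_smul, norm_smul, mul_pow, mul_pow]
    have h1 : ‖(1/2:𝕜)‖ = 1/2 := by simp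
    rw [h1]
    have h2 := parallelogram_law_with_norm 𝕜 ((s:𝕜) • y) u
    rw [hnsy] at h2
    rw [show u + (s:𝕜) • y = (s:𝕜) • y + u by abel]
    nlinarith
  · intro z
    have hm := mono_pt (inner 𝕜 z u) (inner 𝕜 z y) hs0 hs1
    have h1 : ‖(1/2:𝕜)‖ = 1/2 := by simp
    have a1 : ‖(inner 𝕜 z ((1/2:𝕜) • (u + (s:𝕜) • y)))‖ = (1/2) * ‖(inner 𝕜 z u) + (s:𝕜) * (inner 𝕜 z y)‖ := by
      rw [inner_smul_right, norm_mul, h1, inner_add_right, inner_smul_right]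
    have a2 : ‖(inner 𝕜 z ((1/2:𝕜) • ((s:𝕜) • y - u)))‖ = (1/2) * ‖(s:𝕜) * (inner 𝕜 z y) - (inner 𝕜 z u)‖ := by
      rw [inner_smul_right, norm_mul, h1, inner_sub_right, inner_smul_right]
    have a3 : ‖(inner 𝕜 z v)‖ = (1/2) * ‖(inner 𝕜 z u) + (inner 𝕜 z y)‖ := by
      rw [← inner_add_right, hu, hy, show v - w' + (v + w') = (2:𝕜) • v by rw [two_smul]; abel,
        inner_smul_right, norm_mul, RCLike.norm_ofNat]
      ring
    have a4 : ‖(inner 𝕜 z w')‖ = (1/2) * ‖(inner 𝕜 z y) - (inner 𝕜 z u)‖ := by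
      rw [← inner_sub_right, hu, hy, show v + w' - (v - w') = (2:𝕜) • w' by rw [two_smul]; abel,
        inner_smul_right, norm_mul, RCLike.norm_ofNat]
      ring
    rw [a1, a2, a3, a4, ← mul_sub, ← mul_sub, abs_mul, abs_mul]
    exact mul_le_mul_of_nonneg_left hm (abs_nonneg _)

variable {Ω : Type*} [MeasurableSpace Ω] {μ : Measure Ω} [IsProbabilityMeasure μ]

omit [MeasurableSpace Ω] in
lemma inner_bdd {x : Ω → H} {R : ℝ} (hR : ∀ t, ‖x t‖ ≤ R) (v : H) (t : Ω) :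
    ‖(inner 𝕜 (x t) v)‖ ≤ R * ‖v‖ := by
  refine (norm_inner_le_norm _ _).trans ?_
  exact mul_le_mul_of_nonneg_right (hR t) (norm_nonneg _)

lemma integrable_norm {x : Ω → H} (hx : ∀ v, Measurable fun t => (inner 𝕜 (x t) v)) {R : ℝ}
    (hR : ∀ t, ‖x t‖ ≤ R) (v : H) : Integrable (fun t => ‖(inner 𝕜 (x t) v)‖) μ := by
  refine Integrable.of_bound (C := R * ‖v‖) (hx v).norm.aestronglyMeasurable
    (Filter.Eventually.of_forall fun t => ?_)
  rw [norm_norm]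
  exact inner_bdd hR v t

lemma integrable_sq {x : Ω → H} (hx : ∀ v, Measurable fun t => (inner 𝕜 (x t) v)) {R : ℝ}
    (hR : ∀ t, ‖x t‖ ≤ R) (v : H) : Integrable (fun t => ‖(inner 𝕜 (x t) v)‖ ^ 2) μ := by
  refine Integrable.of_bound (C := (R * ‖v‖) ^ 2)
    ((hx v).norm.pow_const 2).aestronglyMeasurable (Filter.Eventually.of_forall fun t => ?_)
  rw [norm_pow, norm_norm]
  exact pow_le_pow_left₀ (norm_nonneg _) (inner_bdd hR v t) 2

lemma integrable_diff_sq {x : Ω → H} (hx : ∀ v, Measurable fun t => (inner 𝕜 (x t) v)) {R : ℝ}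
    (hR : ∀ t, ‖x t‖ ≤ R) (v w : H) :
    Integrable (fun t => (‖(inner 𝕜 (x t) v)‖ - ‖(inner 𝕜 (x t) w)‖) ^ 2) μ := by
  refine Integrable.of_bound (C := (R * ‖v‖ + R * ‖w‖) ^ 2)
    (((hx v).norm.sub (hx w).norm).pow_const 2).aestronglyMeasurable
    (Filter.Eventually.of_forall fun t => ?_)
  rw [norm_pow]
  refine pow_le_pow_left₀ (norm_nonneg _) ?_ 2
  rw [Real.norm_eq_abs, abs_le]
  have h1 := inner_bdd (𝕜 := 𝕜) hR v t
  have h2 := inner_bdd (𝕜 := 𝕜) hR w t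
  constructor <;> linarith [norm_nonneg (inner 𝕜 (x t) v), norm_nonneg (inner 𝕜 (x t) w)]

/-- The `L_1` norm controls the norm. -/
lemma l1_lower [FiniteDimensional 𝕜 H] {n : ℕ} (hn : 1 ≤ n) (hfin : Module.finrank 𝕜 H = n)
    {x : Ω → H} (hx : ∀ v, Measurable fun t => (inner 𝕜 (x t) v)) {β : ℝ} (hβ : 0 < β)
    (hR : ∀ t, ‖x t‖ ≤ β * √n) (hP : ∀ v, ∫ t, ‖(inner 𝕜 (x t) v)‖ ^ 2 ∂μ = ‖v‖ ^ 2) {C : ℝ} (hC : 0 < C)
    (h2 : ∀ v w : H, ∃ c : 𝕜, ‖c‖ = 1 ∧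
      ‖v - c • w‖ ^ 2 ≤ C ^ 2 * ∫ t, (‖(inner 𝕜 (x t) v)‖ - ‖(inner 𝕜 (x t) w)‖) ^ 2 ∂μ)
    (e : H) (he : ‖e‖ = 1) :
    min (1 / (C ^ 2 * (1 + 2 * β ^ 2))) (1 / β) ≤ ∫ t, ‖(inner 𝕜 (x t) e)‖ ∂μ := by
  rcases hn.eq_or_lt with hn1 | hn2
  · -- `n = 1`
    refine (min_le_right _ _).trans ?_
    have hb : ∀ t, ‖(inner 𝕜 (x t) e)‖ ≤ β := by
      intro t
      have := inner_bdd (𝕜 := 𝕜) hR e t
      rw [← hn1, he] at this
      simpa using this
    have h1 := hP e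
    rw [he, one_pow] at h1
    have h3 : ∫ t, ‖(inner 𝕜 (x t) e)‖ ^ 2 ∂μ ≤ ∫ t, β * ‖(inner 𝕜 (x t) e)‖ ∂μ := by
      refine integral_mono (integrable_sq hx hR e) ((integrable_norm hx hR e).const_mul β)
        fun t => ?_
      have := hb t
      have := norm_nonneg (inner 𝕜 (x t) e)
      simp only
      nlinarith
    rw [h1, integral_const_mul] at h3
    rw [div_le_iff₀ hβ]
    linarith
  · refine (min_le_left _ _).trans ?_
    obtain ⟨k, rfl⟩ : ∃ k, n = k + 2 := ⟨n - 2, by omega⟩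
    obtain ⟨b, hb⟩ := Orthonormal.exists_orthonormalBasis_extension_of_card_eq (𝕜 := 𝕜)
      (ι := Fin (k + 2)) (by rw [hfin, Fintype.card_fin]) (v := fun _ => e) (s := {0}) (by
        rw [orthonormal_iff_ite]
        intro i j
        have : i = j := Subsingleton.elim _ _
        subst this
        simp [Set.domRestrict, inner_self_eq_norm_sq_to_K, he])
    have hb0 : b 0 = e := hb 0 rfl
    set f : Ω → ℝ := fun t => ‖(inner 𝕜 (x t) e)‖ with hf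
    set ps : Fin (k + 1) → Ω → ℝ := fun i t =>
      (‖(inner 𝕜 (x t) (e + b i.succ))‖ - ‖(inner 𝕜 (x t) (e - b i.succ))‖) ^ 2 with hps
    have hpsi : ∀ i, Integrable (ps i) μ := fun i => integrable_diff_sq hx hR _ _
    have hlow : ∀ i, 4 ≤ C ^ 2 * ∫ t, ps i t ∂μ := by
      intro i
      obtain ⟨c, hc, hle⟩ := h2 (e + b i.succ) (e - b i.succ)
      refine le_trans ?_ hle
      have horth : (inner 𝕜 e (b i.succ)) = 0 := by
        rw [← hb0]
        exact b.orthonormal.2 (Fin.succ_ne_zero i).symm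
      have horth' : (inner 𝕜 (b i.succ) e) = 0 := by rw [← inner_conj_symm, horth, map_zero]
      have hbi : ‖b i.succ‖ = 1 := b.orthonormal.1 _
      have n1 : ‖e + b i.succ‖ ^ 2 = 2 := by
        rw [@norm_add_sq 𝕜, horth, he, hbi]; simp; norm_num
      have n2 : ‖e - b i.succ‖ ^ 2 = 2 := by
        rw [@norm_sub_sq 𝕜, horth, he, hbi]; simp; norm_num
      have n3 : (inner 𝕜 (e + b i.succ) (c • (e - b i.succ))) = 0 := by
        rw [inner_smul_right, inner_add_left, inner_sub_right, inner_sub_right, horth, horth',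
          inner_self_eq_norm_sq_to_K, inner_self_eq_norm_sq_to_K, he, hbi]
        simp
      rw [@norm_sub_sq 𝕜, n3, norm_smul, hc, one_mul, n1, n2]
      simp
      norm_num
    have hpt : ∀ t, ∑ i, ps i t ≤ 4 * ((k + 1) + β ^ 2 * (k + 2)) * f t := by
      intro t
      have hft : 0 ≤ f t := norm_nonneg _
      have a1 : ∀ i, ps i t ≤ 4 * f t ^ 2 := by
        intro i
        simp only [hps, hf, inner_add_right, inner_sub_right]
        have h5 : |‖(inner 𝕜 (x t) e) + (inner 𝕜 (x t) (b i.succ))‖ - ‖(inner 𝕜 (x t) e) - (inner 𝕜 (x t) (b i.succ))‖| ≤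
            2 * ‖(inner 𝕜 (x t) e)‖ := by
          rw [norm_sub_rev (inner 𝕜 (x t) e) (inner 𝕜 (x t) (b i.succ))]
          refine (abs_norm_sub_norm_le _ _).trans ?_
          rw [show (inner 𝕜 (x t) e) + (inner 𝕜 (x t) (b i.succ)) - ((inner 𝕜 (x t) (b i.succ)) - (inner 𝕜 (x t) e)) = 2 * (inner 𝕜 (x t) e) by ring,
            norm_mul, RCLike.norm_ofNat]
        have h6 := abs_nonneg (‖(inner 𝕜 (x t) e) + (inner 𝕜 (x t) (b i.succ))‖ - ‖(inner 𝕜 (x t) e) - (inner 𝕜 (x t) (b i.succ))‖)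
        rw [← sq_abs]
        nlinarith
      have a2 : ∀ i, ps i t ≤ 4 * ‖(inner 𝕜 (x t) (b i.succ))‖ ^ 2 := by
        intro i
        simp only [hps, inner_add_right, inner_sub_right]
        have h5 : |‖(inner 𝕜 (x t) e) + (inner 𝕜 (x t) (b i.succ))‖ - ‖(inner 𝕜 (x t) e) - (inner 𝕜 (x t) (b i.succ))‖| ≤
            2 * ‖(inner 𝕜 (x t) (b i.succ))‖ := by
          refine (abs_norm_sub_norm_le _ _).trans ?_
          rw [show (inner 𝕜 (x t) e) + (inner 𝕜 (x t) (b i.succ)) - ((inner 𝕜 (x t) e) - (inner 𝕜 (x t) (b i.succ))) =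
            2 * (inner 𝕜 (x t) (b i.succ)) by ring, norm_mul, RCLike.norm_ofNat]
        have h6 := abs_nonneg (‖(inner 𝕜 (x t) e) + (inner 𝕜 (x t) (b i.succ))‖ - ‖(inner 𝕜 (x t) e) - (inner 𝕜 (x t) (b i.succ))‖)
        rw [← sq_abs]
        nlinarith
      rcases le_total (f t) 1 with hle | hge
      · calc ∑ i, ps i t ≤ ∑ _i : Fin (k + 1), 4 * f t := by
              refine Finset.sum_le_sum fun i _ => (a1 i).trans ?_
              nlinarith
          _ = 4 * ((k + 1)) * f t := by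
              simp only [Finset.sum_const, Finset.card_univ, Fintype.card_fin, nsmul_eq_mul]
              push_cast
              ring
          _ ≤ _ := by
              have : 0 ≤ β ^ 2 * ((k:ℝ) + 2) * f t := by positivity
              nlinarith
      · have hbes : ∑ i : Fin (k + 1), ‖(inner 𝕜 (x t) (b i.succ))‖ ^ 2 ≤ β ^ 2 * (k + 2) := by
          have h7 := b.sum_sq_norm_inner_left (x t)
          rw [Fin.sum_univ_succ] at h7
          have h8 : ‖x t‖ ^ 2 ≤ (β * √((k + 2 : ℕ) : ℝ)) ^ 2 :=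
            pow_le_pow_left₀ (norm_nonneg _) (hR t) 2
          rw [mul_pow, Real.sq_sqrt (by positivity)] at h8
          push_cast at h8
          have h9 : 0 ≤ ‖(inner 𝕜 (x t) (b 0))‖ ^ 2 := by positivity
          linarith
        calc ∑ i, ps i t ≤ ∑ i : Fin (k + 1), 4 * ‖(inner 𝕜 (x t) (b i.succ))‖ ^ 2 :=
              Finset.sum_le_sum fun i _ => a2 i
          _ = 4 * ∑ i : Fin (k + 1), ‖(inner 𝕜 (x t) (b i.succ))‖ ^ 2 := by rw [Finset.mul_sum]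
          _ ≤ 4 * (β ^ 2 * (k + 2)) := by linarith
          _ ≤ 4 * (β ^ 2 * (k + 2)) * f t := by
              have : 0 ≤ 4 * (β ^ 2 * ((k:ℝ) + 2)) := by positivity
              nlinarith
          _ ≤ _ := by
              have : 0 ≤ ((k:ℝ) + 1) * f t := by positivity
              nlinarith
    have hint : ∫ t, ∑ i, ps i t ∂μ ≤ ∫ t, 4 * ((k + 1) + β ^ 2 * (k + 2)) * f t ∂μ :=
      integral_mono (integrable_finsetSum _ fun i _ => hpsi i)
        ((integrable_norm hx hR e).const_mul _) hpt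
    rw [integral_finsetSum _ (fun i _ => hpsi i), integral_const_mul] at hint
    have hsum : ∑ _i : Fin (k + 1), (4:ℝ) ≤ ∑ i, C ^ 2 * ∫ t, ps i t ∂μ :=
      Finset.sum_le_sum fun i _ => hlow i
    rw [← Finset.mul_sum] at hsum
    simp only [Finset.sum_const, Finset.card_univ, Fintype.card_fin, nsmul_eq_mul] at hsum
    push_cast at hsum
    have hC2 : 0 < C ^ 2 := by positivity
    have h10 : ((k:ℝ) + 1) * 4 ≤
        C ^ 2 * (4 * ((k + 1) + β ^ 2 * (k + 2)) * ∫ t, f t ∂μ) :=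
      hsum.trans (mul_le_mul_of_nonneg_left hint hC2.le)
    have hF0 : 0 ≤ ∫ t, f t ∂μ := integral_nonneg fun t => norm_nonneg _
    have h11 : ((k:ℝ) + 1) * 4 ≤ ((k:ℝ) + 1) * 4 * (C ^ 2 * (1 + 2 * β ^ 2) * ∫ t, f t ∂μ) := by
      refine h10.trans ?_
      have h12 : (k + 1) + β ^ 2 * (k + 2) ≤ ((k:ℝ) + 1) * (1 + 2 * β ^ 2) := by
        have : 0 ≤ β ^ 2 * (k:ℝ) := by positivity
        nlinarith
      have h13 : 0 ≤ C ^ 2 * 4 * ∫ t, f t ∂μ := by positivity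
      nlinarith
    have h14 : 1 ≤ C ^ 2 * (1 + 2 * β ^ 2) * ∫ t, f t ∂μ := by
      have h15 : (0:ℝ) < ((k:ℝ) + 1) * 4 := by positivity
      by_contra hcon
      push Not at hcon
      nlinarith
    rw [div_le_iff₀ (by positivity)]
    linarith

end Pool.H164.Spr
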