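import Pool.Agent.H164R3.SprFrame

/-!
# Selection of sample points: quantitative form
-/

open MeasureTheory

namespace Pool.H164.Spr

variable {𝕜 : Type*} [RCLike 𝕜] {H : Type*} [NormedAddCommGroup H] [InnerProductSpace 𝕜 H]

variable {Ω : Type*} [MeasurableSpace Ω] {μ : Measure Ω} [IsProbabilityMeasure μ]

lemma phi_diff {z p q p' q' : H} {R ε : ℝ} (hz : ‖z‖ ≤ R) (hp : ‖p - p'‖ ≤ ε)
    (hq : ‖q - q'‖ ≤ ε) :
    |‖(inner 𝕜 z p)‖ - ‖(inner 𝕜 z q)‖| ≤ |‖(inner 𝕜 z p')‖ - ‖(inner 𝕜 z q')‖| + 2 * (ε * R) := by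
  have hb : ∀ d : H, ‖d‖ ≤ ε → ‖(inner 𝕜 z d)‖ ≤ ε * R := by
    intro d hd
    have h1 := norm_inner_le_norm (𝕜 := 𝕜) z d
    have h2 : ‖z‖ * ‖d‖ ≤ R * ε :=
      mul_le_mul hz hd (norm_nonneg _) ((norm_nonneg _).trans hz)
    linarith
  have h3 := abs_norm_sub_norm_le (inner 𝕜 z p) (inner 𝕜 z p')
  have h4 := abs_norm_sub_norm_le (inner 𝕜 z q) (inner 𝕜 z q')
  rw [← inner_sub_right] at h3 h4
  have h5 := hb _ hp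
  have h6 := hb _ hq
  have h7 : |‖(inner 𝕜 z p)‖ - ‖(inner 𝕜 z q)‖| - |‖(inner 𝕜 z p')‖ - ‖(inner 𝕜 z q')‖| ≤
      |‖(inner 𝕜 z p)‖ - ‖(inner 𝕜 z p')‖| + |‖(inner 𝕜 z q)‖ - ‖(inner 𝕜 z q')‖| := by
    refine (abs_sub_abs_le_abs_sub _ _).trans ?_
    have e : ‖(inner 𝕜 z p)‖ - ‖(inner 𝕜 z q)‖ - (‖(inner 𝕜 z p')‖ - ‖(inner 𝕜 z q')‖) =
      (‖(inner 𝕜 z p)‖ - ‖(inner 𝕜 z p')‖) - (‖(inner 𝕜 z q)‖ - ‖(inner 𝕜 z q')‖) := by ring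
    rw [e]
    exact abs_sub _ _
  linarith

lemma integrable_abs_diff {x : Ω → H} (hx : ∀ v, Measurable fun t => (inner 𝕜 (x t) v)) {R : ℝ}
    (hR : ∀ t, ‖x t‖ ≤ R) (v w : H) :
    Integrable (fun t => |‖(inner 𝕜 (x t) v)‖ - ‖(inner 𝕜 (x t) w)‖|) μ :=
  ((integrable_norm hx hR v).sub (integrable_norm hx hR w)).abs

lemma selection [FiniteDimensional 𝕜 H] {x : Ω → H} (hx : ∀ v, Measurable fun t => (inner 𝕜 (x t) v))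
    {R : ℝ} (hR0 : 0 < R) (hR : ∀ t, ‖x t‖ ≤ R) {C δ : ℝ} (hC : 0 < C) (hδ : 0 < δ)
    (hl1 : ∀ e : H, ‖e‖ = 1 → δ ≤ ∫ t, ‖(inner 𝕜 (x t) e)‖ ∂μ)
    (h1 : ∀ v w : H, ∃ c : 𝕜, ‖c‖ = 1 ∧
      ∫ t, ‖(inner 𝕜 (x t) (v - c • w))‖ ∂μ ≤ C * ∫ t, |‖(inner 𝕜 (x t) v)‖ - ‖(inner 𝕜 (x t) w)‖| ∂μ)
    {m : ℕ} (hm : 16 * R * √m ≤ m * (δ / (4 * C))) :
    ∃ t : Fin m → Ω, ∀ p q : H, (inner 𝕜 p q) = 0 → ‖p‖ ^ 2 + ‖q‖ ^ 2 = 1 →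
      m * (δ / (2 * C)) ≤ ∑ j, |‖(inner 𝕜 (x (t j)) p)‖ - ‖(inner 𝕜 (x (t j)) q)‖| := by
  have : ProperSpace H := FiniteDimensional.proper_rclike 𝕜 H
  obtain ⟨ε, hε⟩ : ∃ ε, ε = δ / (16 * C * R) := ⟨_, rfl⟩
  have hε0 : 0 < ε := by rw [hε]; positivity
  have hεR : 4 * (ε * R) = δ / (4 * C) := by rw [hε]; field_simp; norm_num
  obtain ⟨T, hTs, hTf, hTc⟩ := (isCompact_closedBall (0:H) 1).finite_cover_balls hε0
  have : Fintype T := hTf.fintype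
  have hnet : ∀ p : H, ‖p‖ ≤ 1 → ∃ p' : T, ‖p - p'‖ ≤ ε := by
    intro p hp
    have := hTc (show p ∈ Metric.closedBall (0:H) 1 by simpa using hp)
    simp only [Set.mem_iUnion, Metric.mem_ball, exists_prop] at this
    obtain ⟨y, hy, hd⟩ := this
    exact ⟨⟨y, hy⟩, by rw [← dist_eq_norm]; exact hd.le⟩
  have : Nonempty T := ⟨(hnet 0 (by simp)).choose⟩
  have hT1 : ∀ y : T, ‖(y : H)‖ ≤ 1 := by
    intro y
    simpa using hTs y.2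
  obtain ⟨t, ht⟩ := sample (𝕜 := 𝕜) (μ := μ) hx hR0.le hR (a := fun τ : T × T => (τ.1 : H))
    (b := fun τ : T × T => (τ.2 : H)) (fun τ => hT1 _) (fun τ => hT1 _) m
  refine ⟨t, fun p q hpq hn => ?_⟩
  have hp1 : ‖p‖ ≤ 1 := by
    by_contra hcon
    push Not at hcon
    nlinarith [sq_nonneg ‖q‖]
  have hq1 : ‖q‖ ≤ 1 := by
    by_contra hcon
    push Not at hcon
    nlinarith [sq_nonneg ‖p‖]
  obtain ⟨p', hp'⟩ := hnet p hp1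
  obtain ⟨q', hq'⟩ := hnet q hq1
  have hs := ht (p', q')
  simp only at hs
  -- lower bound for the integral
  obtain ⟨c, hc, hle⟩ := h1 p q
  have hnorm : ‖p - c • q‖ = 1 := by
    have h : ‖p - c • q‖ ^ 2 = 1 := by
      rw [@norm_sub_sq 𝕜, inner_smul_right, hpq, mul_zero, map_zero, norm_smul, hc, one_mul]
      linarith
    nlinarith [norm_nonneg (p - c • q)]
  have hlow := (hl1 _ hnorm).trans hle
  have hint : ∫ s, |‖(inner 𝕜 (x s) p)‖ - ‖(inner 𝕜 (x s) q)‖| ∂μ ≤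
      (∫ s, |‖(inner 𝕜 (x s) ((p' : H)))‖ - ‖(inner 𝕜 (x s) ((q' : H)))‖| ∂μ) + 2 * (ε * R) := by
    have := integral_mono (integrable_abs_diff (μ := μ) hx hR p q)
      ((integrable_abs_diff (μ := μ) hx hR (p' : H) (q' : H)).add
        (integrable_const (2 * (ε * R)))) fun s => phi_diff (𝕜 := 𝕜) (hR s) hp' hq'
    refine this.trans (le_of_eq ?_)
    simp only [Pi.add_apply]
    rw [integral_add (integrable_abs_diff hx hR _ _) (integrable_const _), integral_const,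
      probReal_univ, one_smul]
  have hsum : ∑ j, |‖(inner 𝕜 (x (t j)) ((p' : H)))‖ - ‖(inner 𝕜 (x (t j)) ((q' : H)))‖| ≤
      ∑ j, |‖(inner 𝕜 (x (t j)) p)‖ - ‖(inner 𝕜 (x (t j)) q)‖| + m * (2 * (ε * R)) := by
    have := Finset.sum_le_sum fun j (_ : j ∈ (Finset.univ : Finset (Fin m))) =>
      phi_diff (𝕜 := 𝕜) (p := (p' : H)) (q := (q' : H)) (p' := p) (q' := q) (ε := ε) (hR (t j))
        (by rw [norm_sub_rev]; exact hp') (by rw [norm_sub_rev]; exact hq')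
    rw [Finset.sum_add_distrib] at this
    simpa using this
  have hm0 : (0:ℝ) ≤ m := Nat.cast_nonneg m
  set I1 := ∫ s, |‖(inner 𝕜 (x s) p)‖ - ‖(inner 𝕜 (x s) q)‖| ∂μ
  set I2 := ∫ s, |‖(inner 𝕜 (x s) ((p' : H)))‖ - ‖(inner 𝕜 (x s) ((q' : H)))‖| ∂μ
  have hd : δ / C ≤ I1 := by
    rw [div_le_iff₀ hC]; linarith
  have e1 : δ / C = 4 * (δ / (4 * C)) := by field_simp
  have e2 : δ / (2 * C) = 2 * (δ / (4 * C)) := by field_simp; norm_num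
  rw [e2]
  rw [e1] at hd
  set κ := δ / (4 * C)
  have h9 : 4 * κ - 2 * (ε * R) ≤ I2 := by linarith
  have h10 : (m:ℝ) * (4 * κ - 2 * (ε * R)) ≤ m * I2 := mul_le_mul_of_nonneg_left h9 hm0
  have h11 : (m:ℝ) * (4 * (ε * R)) = m * κ := by rw [hεR]
  nlinarith

theorem selection' [FiniteDimensional 𝕜 H] {x : Ω → H}
    (hx : ∀ v, Measurable fun t => (inner 𝕜 (x t) v))
    {R : ℝ} (hR0 : 0 < R) (hR : ∀ t, ‖x t‖ ≤ R) {C δ : ℝ} (hC : 0 < C) (hδ : 0 < δ)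
    (hl1 : ∀ e : H, ‖e‖ = 1 → δ ≤ ∫ t, ‖(inner 𝕜 (x t) e)‖ ∂μ)
    (h1 : ∀ v w : H, ∃ c : 𝕜, ‖c‖ = 1 ∧
      ∫ t, ‖(inner 𝕜 (x t) (v - c • w))‖ ∂μ ≤ C * ∫ t, |‖(inner 𝕜 (x t) v)‖ - ‖(inner 𝕜 (x t) w)‖| ∂μ)
    {m : ℕ} (hm : 16 * R * √m ≤ m * (δ / (4 * C))) (hm1 : 0 < m) :
    ∃ t : Fin m → Ω, ∀ v w : H, ∃ c : 𝕜, ‖c‖ = 1 ∧ ‖v - c • w‖ ≤ (2 * C / δ) *
      √(∑ j, (‖(inner 𝕜 ((((√m)⁻¹ : ℝ) : 𝕜) • x (t j)) v)‖ -
        ‖(inner 𝕜 ((((√m)⁻¹ : ℝ) : 𝕜) • x (t j)) w)‖) ^ 2) := by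
  obtain ⟨t, ht⟩ := selection hx hR0 hR hC hδ hl1 h1 hm
  refine ⟨t, fun v w => ?_⟩
  obtain ⟨c, hc, p, q, hpq, hn, hpt⟩ := reduce (𝕜 := 𝕜) v w
  refine ⟨c, hc, ?_⟩
  have hmR : (0:ℝ) < m := by exact_mod_cast hm1
  have hsm : 0 < √(m:ℝ) := Real.sqrt_pos.2 hmR
  have key : m * (δ / (2 * C)) * ‖v - c • w‖ ≤ ∑ j, |‖(inner 𝕜 (x (t j)) v)‖ - ‖(inner 𝕜 (x (t j)) w)‖| := by
    rcases (norm_nonneg (v - c • w)).eq_or_lt with h0 | h0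
    · rw [← h0, mul_zero]
      exact Finset.sum_nonneg fun j _ => abs_nonneg _
    · set N := ‖v - c • w‖ with hN
      have hinv : ‖((N⁻¹ : ℝ) : 𝕜)‖ = N⁻¹ := by
        rw [RCLike.norm_ofReal, abs_of_pos (by positivity)]
      have h2 := ht (((N⁻¹ : ℝ) : 𝕜) • p) (((N⁻¹ : ℝ) : 𝕜) • q)
        (by rw [inner_smul_left, inner_smul_right, hpq]; simp)
        (by
          rw [norm_smul, norm_smul, hinv, mul_pow, mul_pow, ← mul_add, hn, ← mul_pow,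
            inv_mul_cancel₀ h0.ne', one_pow])
      have h3 : ∑ j, |‖(inner 𝕜 (x (t j)) (((N⁻¹ : ℝ) : 𝕜) • p))‖ - ‖(inner 𝕜 (x (t j)) (((N⁻¹ : ℝ) : 𝕜) • q))‖| =
          N⁻¹ * ∑ j, |‖(inner 𝕜 (x (t j)) p)‖ - ‖(inner 𝕜 (x (t j)) q)‖| := by
        rw [Finset.mul_sum]
        refine Finset.sum_congr rfl fun j _ => ?_
        rw [inner_smul_right, inner_smul_right, norm_mul, norm_mul, hinv, ← mul_sub, abs_mul,
          abs_of_pos (inv_pos.2 h0)]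
      rw [h3] at h2
      have h4 : ∑ j, |‖(inner 𝕜 (x (t j)) p)‖ - ‖(inner 𝕜 (x (t j)) q)‖| ≤
          ∑ j, |‖(inner 𝕜 (x (t j)) v)‖ - ‖(inner 𝕜 (x (t j)) w)‖| := Finset.sum_le_sum fun j _ => hpt _
      have h5 : m * (δ / (2 * C)) * N ≤ ∑ j, |‖(inner 𝕜 (x (t j)) p)‖ - ‖(inner 𝕜 (x (t j)) q)‖| := by
        have := mul_le_mul_of_nonneg_right h2 h0.le
        rw [mul_comm N⁻¹, mul_assoc _ N⁻¹, inv_mul_cancel₀ h0.ne', mul_one] at this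
        exact this
      exact h5.trans h4
  set N := ‖v - c • w‖ with hN
  set S := ∑ j, |‖(inner 𝕜 (x (t j)) v)‖ - ‖(inner 𝕜 (x (t j)) w)‖| ^ 2 with hS
  have hS0 : 0 ≤ S := Finset.sum_nonneg fun j _ => by positivity
  have hcs : (∑ j, |‖(inner 𝕜 (x (t j)) v)‖ - ‖(inner 𝕜 (x (t j)) w)‖|) ^ 2 ≤ m * S := by
    have := sq_sum_le_card_mul_sum_sq (s := (Finset.univ : Finset (Fin m)))
      (f := fun j => |‖(inner 𝕜 (x (t j)) v)‖ - ‖(inner 𝕜 (x (t j)) w)‖|)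
    rw [Finset.card_univ, Fintype.card_fin] at this
    exact this
  have e : ∑ j, (‖(inner 𝕜 ((((√m)⁻¹ : ℝ) : 𝕜) • x (t j)) v)‖ -
        ‖(inner 𝕜 ((((√m)⁻¹ : ℝ) : 𝕜) • x (t j)) w)‖) ^ 2 = S / m := by
    rw [hS, Finset.sum_div]
    refine Finset.sum_congr rfl fun j _ => ?_
    rw [inner_smul_left, inner_smul_left, norm_mul, norm_mul, RCLike.conj_ofReal,
      RCLike.norm_ofReal, abs_of_pos (inv_pos.2 hsm), ← mul_sub, mul_pow, inv_pow,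
      Real.sq_sqrt hmR.le, sq_abs]
    rw [div_eq_inv_mul]
  rw [e]
  have hN0 : 0 ≤ N := norm_nonneg _
  have hδC : 0 < δ / (2 * C) := by positivity
  have h6 : (m * (δ / (2 * C)) * N) ^ 2 ≤ m * S :=
    (pow_le_pow_left₀ (by positivity) key 2).trans hcs
  have h7 : ((δ / (2 * C)) * N) ^ 2 ≤ S / m := by
    rw [le_div_iff₀ hmR]
    have h8 : (m:ℝ) * (((δ / (2 * C)) * N) ^ 2 * m) ≤ m * S := by
      calc (m:ℝ) * (((δ / (2 * C)) * N) ^ 2 * m) = (m * (δ / (2 * C)) * N) ^ 2 := by ring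
        _ ≤ m * S := h6
    exact le_of_mul_le_mul_left h8 hmR
  have h8 : (δ / (2 * C)) * N ≤ √(S / m) := Real.le_sqrt_of_sq_le h7
  have h9 : N = (2 * C / δ) * ((δ / (2 * C)) * N) := by field_simp
  rw [h9]
  exact mul_le_mul_of_nonneg_left h8 (by positivity)

end Pool.H164.Spr
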