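import Mathlib

/-!
# Potentials for the greedy selection of sample points

A `Good` functional `F : (ι → ℝ) → ℝ` is convex, 1-Lipschitz and satisfies a contraction
inequality.  The maximum is good, and averages of translates of good functionals are good.
-/

open MeasureTheory

namespace Pool.H164.Spr

variable {ι : Type*} [Fintype ι]

structure Good (F : (ι → ℝ) → ℝ) : Prop where
  conv : ConvexOn ℝ Set.univ F
  lip : LipschitzWith 1 F
  contr : ∀ (A φ : ι → ℝ) (D : Fin 4 → ι → ℝ),
    (∀ τ τ', φ τ - φ τ' ≤ ∑ k, |D k τ - D k τ'|) →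
    F (A + φ) + F (A - φ) ≤ (1/4) * ∑ k, (F (A + (4:ℝ) • D k) + F (A - (4:ℝ) • D k))

/-- The maximum of a finite family. -/
noncomputable def mx (A : ι → ℝ) : ℝ := ⨆ τ, A τ

lemma le_mx (A : ι → ℝ) (τ : ι) : A τ ≤ mx A := le_ciSup (Set.finite_range A).bddAbove τ

lemma mx_le [Nonempty ι] {A : ι → ℝ} {c : ℝ} (h : ∀ τ, A τ ≤ c) : mx A ≤ c := ciSup_le h

lemma exists_mx [Nonempty ι] (A : ι → ℝ) : ∃ τ, A τ = mx A := exists_eq_ciSup_of_finite

lemma good_sup [Nonempty ι] : Good (mx : (ι → ℝ) → ℝ) where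
  conv := by
    refine ⟨convex_univ, fun A _ B _ a b ha hb hab => ?_⟩
    refine mx_le fun τ => ?_
    simp only [Pi.add_apply, Pi.smul_apply, smul_eq_mul]
    have h1 := le_mx A τ
    have h2 := le_mx B τ
    nlinarith [mul_le_mul_of_nonneg_left h1 ha, mul_le_mul_of_nonneg_left h2 hb]
  lip := by
    refine LipschitzWith.of_le_add fun A B => ?_
    refine mx_le fun τ => ?_
    have h2 := le_mx B τ
    have h3 := dist_le_pi_dist A B τ
    rw [Real.dist_eq] at h3
    have := le_abs_self (A τ - B τ)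
    linarith
  contr := by
    intro A φ D h
    obtain ⟨τ, hτ⟩ := exists_mx (A + φ)
    obtain ⟨τ', hτ'⟩ := exists_mx (A - φ)
    rw [← hτ, ← hτ']
    have key : ∀ k, A τ + A τ' + 4 * |D k τ - D k τ'| ≤
        mx (A + (4:ℝ) • D k) + mx (A - (4:ℝ) • D k) := by
      intro k
      have a1 := le_mx (A + (4:ℝ) • D k) τ
      have a2 := le_mx (A + (4:ℝ) • D k) τ'
      have a3 := le_mx (A - (4:ℝ) • D k) τ
      have a4 := le_mx (A - (4:ℝ) • D k) τ'
      simp only [Pi.add_apply, Pi.sub_apply, Pi.smul_apply, smul_eq_mul] at a1 a2 a3 a4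
      rcases abs_cases (D k τ - D k τ') with ⟨h1, _⟩ | ⟨h1, _⟩ <;> rw [h1] <;> linarith
    have key2 := Finset.sum_le_sum fun k (_ : k ∈ (Finset.univ : Finset (Fin 4))) => key k
    rw [Finset.sum_add_distrib, ← Finset.mul_sum] at key2
    simp only [Finset.sum_const, Finset.card_univ, Fintype.card_fin, nsmul_eq_mul] at key2
    have h4 := h τ τ'
    simp only [Pi.add_apply, Pi.sub_apply] at h4 ⊢
    push_cast at key2
    linarith

lemma Good.comp_add {F : (ι → ℝ) → ℝ} (hF : Good F) (c : ι → ℝ) :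
    Good (fun A => F (A + c)) where
  conv := by
    refine ⟨convex_univ, fun A _ B _ a b ha hb hab => ?_⟩
    have h := hF.conv.2 (Set.mem_univ (A + c)) (Set.mem_univ (B + c)) ha hb hab
    have e : a • (A + c) + b • (B + c) = a • A + b • B + c := by
      rw [smul_add, smul_add]
      have : c = (a + b) • c := by rw [hab, one_smul]
      rw [add_smul] at this
      nth_rewrite 3 [this]
      abel
    rw [e] at h
    exact h
  lip := by
    refine LipschitzWith.of_le_add fun A B => ?_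
    have h := hF.lip.dist_le_mul (A + c) (B + c)
    rw [dist_add_right, Real.dist_eq] at h
    have h2 := le_abs_self (F (A + c) - F (B + c))
    simp only [NNReal.coe_one, one_mul] at h
    linarith
  contr := by
    intro A φ D h
    have h1 := hF.contr (A + c) φ D h
    have e1 : A + c + φ = A + φ + c := by abel
    have e2 : A + c - φ = A - φ + c := by abel
    have e3 : ∀ k, A + c + (4:ℝ) • D k = A + (4:ℝ) • D k + c := fun k => by abel
    have e4 : ∀ k, A + c - (4:ℝ) • D k = A - (4:ℝ) • D k + c := fun k => by abel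
    simp only [e1, e2, e3, e4] at h1
    exact h1

lemma Good.le_add {F : (ι → ℝ) → ℝ} (hF : Good F) (A B : ι → ℝ) : F A ≤ F B + dist A B := by
  have h := hF.lip.dist_le_mul A B
  rw [Real.dist_eq] at h
  have h2 := le_abs_self (F A - F B)
  simp only [NNReal.coe_one, one_mul] at h
  linarith

/-- Finite averages. -/
lemma Good.avg {κ : Type*} [Fintype κ] [Nonempty κ] {F : κ → (ι → ℝ) → ℝ}
    (hF : ∀ i, Good (F i)) :
    Good (fun A => (1 / (Fintype.card κ : ℝ)) * ∑ i, F i A) := by
  have hc : (0:ℝ) < Fintype.card κ := by exact_mod_cast Fintype.card_pos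
  refine ⟨⟨convex_univ, fun A _ B _ a b ha hb hab => ?_⟩,
    LipschitzWith.of_le_add fun A B => ?_, fun A φ D h => ?_⟩
  · have h : ∑ i, F i (a • A + b • B) ≤ ∑ i, (a * F i A + b * F i B) :=
      Finset.sum_le_sum fun i _ => (hF i).conv.2 (Set.mem_univ A) (Set.mem_univ B) ha hb hab
    rw [Finset.sum_add_distrib, ← Finset.mul_sum, ← Finset.mul_sum] at h
    simp only [smul_eq_mul]
    calc (1 / (Fintype.card κ : ℝ)) * ∑ i, F i (a • A + b • B)
        ≤ (1 / (Fintype.card κ : ℝ)) * (a * ∑ i, F i A + b * ∑ i, F i B) :=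
          mul_le_mul_of_nonneg_left h (by positivity)
      _ = _ := by ring
  · have h : ∑ i, F i A ≤ ∑ i, (F i B + dist A B) :=
      Finset.sum_le_sum fun i _ => (hF i).le_add A B
    rw [Finset.sum_add_distrib] at h
    simp only [Finset.sum_const, Finset.card_univ, nsmul_eq_mul] at h
    calc (1 / (Fintype.card κ : ℝ)) * ∑ i, F i A
        ≤ (1 / (Fintype.card κ : ℝ)) * (∑ i, F i B + (Fintype.card κ : ℝ) * dist A B) :=
          mul_le_mul_of_nonneg_left h (by positivity)
      _ = _ := by field_simp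
  · have h1 : ∑ i, (F i (A + φ) + F i (A - φ)) ≤
        ∑ i, ((1/4) * ∑ k, (F i (A + (4:ℝ) • D k) + F i (A - (4:ℝ) • D k))) :=
      Finset.sum_le_sum fun i _ => (hF i).contr A φ D h
    rw [Finset.sum_add_distrib, ← Finset.mul_sum, Finset.sum_comm] at h1
    calc (1 / (Fintype.card κ : ℝ)) * ∑ i, F i (A + φ) +
          (1 / (Fintype.card κ : ℝ)) * ∑ i, F i (A - φ)
        = (1 / (Fintype.card κ : ℝ)) * (∑ i, F i (A + φ) + ∑ i, F i (A - φ)) := by ring
      _ ≤ (1 / (Fintype.card κ : ℝ)) *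
          ((1/4) * ∑ k, ∑ i, (F i (A + (4:ℝ) • D k) + F i (A - (4:ℝ) • D k))) :=
          mul_le_mul_of_nonneg_left h1 (by positivity)
      _ = _ := by
          simp only [Finset.sum_add_distrib, Finset.mul_sum, mul_add]
          congr 1 <;>
          · refine Finset.sum_congr rfl fun k _ => Finset.sum_congr rfl fun i _ => ?_
            ring

variable {Ω : Type*} [MeasurableSpace Ω] {μ : Measure Ω} [IsProbabilityMeasure μ]

/-- Averages over a probability space. -/
lemma Good.integral {G : Ω → (ι → ℝ) → ℝ} (hG : ∀ t, Good (G t))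
    (hi : ∀ A, Integrable (fun t => G t A) μ) :
    Good (fun A => ∫ t, G t A ∂μ) := by
  refine ⟨⟨convex_univ, fun A _ B _ a b ha hb hab => ?_⟩,
    LipschitzWith.of_le_add fun A B => ?_, fun A φ D h => ?_⟩
  · simp only [smul_eq_mul]
    rw [← integral_const_mul, ← integral_const_mul, ← integral_add]
    · refine integral_mono (hi _) (((hi A).const_mul a).add ((hi B).const_mul b)) fun t => ?_
      exact (hG t).conv.2 (Set.mem_univ A) (Set.mem_univ B) ha hb hab
    · exact (hi A).const_mul a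
    · exact (hi B).const_mul b
  · have : ∫ t, G t A ∂μ ≤ ∫ t, (G t B + dist A B) ∂μ :=
      integral_mono (hi A) ((hi B).add (integrable_const _)) fun t => (hG t).le_add A B
    rw [integral_add (hi B) (integrable_const _)] at this
    simpa using this
  · rw [← integral_add (hi _) (hi _)]
    have hi2 : ∀ k : Fin 4, Integrable
        (fun t => G t (A + (4:ℝ) • D k) + G t (A - (4:ℝ) • D k)) μ := fun k =>
      (hi _).add (hi _)
    have e : (1/4) * ∑ k, (∫ t, G t (A + (4:ℝ) • D k) ∂μ + ∫ t, G t (A - (4:ℝ) • D k) ∂μ) =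
        ∫ t, (1/4) * ∑ k, (G t (A + (4:ℝ) • D k) + G t (A - (4:ℝ) • D k)) ∂μ := by
      rw [integral_const_mul, integral_finsetSum _ (fun k _ => hi2 k)]
      congr 1
      exact Finset.sum_congr rfl fun k _ => (integral_add (hi _) (hi _)).symm
    rw [e]
    refine integral_mono ((hi _).add (hi _)) ?_ fun t => (hG t).contr A φ D h
    refine Integrable.const_mul ?_ _
    exact integrable_finsetSum _ fun k _ => hi2 k

/-- The step operator. -/
noncomputable def step (μ : Measure Ω) (D : Ω → Fin 4 → ι → ℝ) (F : (ι → ℝ) → ℝ) :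
    (ι → ℝ) → ℝ :=
  fun A => ∫ t, (1 / (Fintype.card (Fin 4 × Bool) : ℝ)) *
    ∑ i : Fin 4 × Bool, F (A + (if i.2 then (8:ℝ) else -8) • D t i.1) ∂μ

lemma integrable_good {F : (ι → ℝ) → ℝ} (hF : Good F) {c : Ω → ι → ℝ} (hc : Measurable c)
    {M : ℝ} (hM : ∀ t τ, |c t τ| ≤ M) (A : ι → ℝ) : Integrable (fun t => F (A + c t)) μ := by
  have hM' : ∀ t, dist (A + c t) A ≤ |M| := by
    intro t
    rw [dist_pi_le_iff (abs_nonneg M)]
    intro τ
    rw [Real.dist_eq]
    simp only [Pi.add_apply, add_sub_cancel_left]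
    exact (hM t τ).trans (le_abs_self M)
  refine Integrable.of_bound (C := |F A| + |M|) ?_ (Filter.Eventually.of_forall fun t => ?_)
  · exact (hF.lip.continuous.measurable.comp (measurable_const.add hc)).aestronglyMeasurable
  · rw [Real.norm_eq_abs, abs_le]
    have h1 := hF.le_add (A + c t) A
    have h2 := hF.le_add A (A + c t)
    rw [dist_comm] at h2
    have h3 := hM' t
    constructor
    · have := neg_abs_le (F A); linarith
    · have := le_abs_self (F A); linarith

lemma step_integrable {F : (ι → ℝ) → ℝ} (hF : Good F) {D : Ω → Fin 4 → ι → ℝ}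
    (hD : Measurable D) {M : ℝ} (hM : ∀ t k τ, |D t k τ| ≤ M) (A : ι → ℝ) :
    Integrable (fun t => (1 / (Fintype.card (Fin 4 × Bool) : ℝ)) *
    ∑ i : Fin 4 × Bool, F (A + (if i.2 then (8:ℝ) else -8) • D t i.1)) μ := by
  refine Integrable.const_mul ?_ _
  refine integrable_finsetSum _ fun i _ => ?_
  refine integrable_good hF (c := fun t => (if i.2 then (8:ℝ) else -8) • D t i.1)
    (M := 8 * M) ?_ ?_ A
  · have : Measurable (fun t => D t i.1) := (measurable_pi_apply i.1).comp hD
    exact this.const_smul (if i.2 then (8:ℝ) else -8)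
  · intro t τ
    simp only [Pi.smul_apply, smul_eq_mul, abs_mul]
    have : |(if i.2 then (8:ℝ) else -8)| = 8 := by split_ifs <;> simp
    rw [this]
    exact mul_le_mul_of_nonneg_left (hM t _ τ) (by norm_num)

lemma Good.step {F : (ι → ℝ) → ℝ} (hF : Good F) {D : Ω → Fin 4 → ι → ℝ}
    (hD : Measurable D) {M : ℝ} (hM : ∀ t k τ, |D t k τ| ≤ M) : Good (step μ D F) :=
  Good.integral (fun _ => Good.avg fun _ => hF.comp_add _)
    (fun A => step_integrable hF hD hM A)

lemma step_select {F : (ι → ℝ) → ℝ} (hF : Good F) {D : Ω → Fin 4 → ι → ℝ}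
    (hD : Measurable D) {M : ℝ} (hM : ∀ t k τ, |D t k τ| ≤ M)
    {φ : Ω → ι → ℝ} (hφ : Measurable φ) {M' : ℝ} (hM' : ∀ t τ, |φ t τ| ≤ M')
    (hφD : ∀ t τ τ', φ t τ - φ t τ' ≤ ∑ k, |D t k τ - D t k τ'|) (A : ι → ℝ) :
    ∃ t, F (A + (∫ s, φ s ∂μ) - φ t) ≤ step μ D F A := by
  have hφi : Integrable φ μ := by
    refine Integrable.of_bound (C := |M'|) hφ.aestronglyMeasurable
      (Filter.Eventually.of_forall fun t => ?_)
    rw [pi_norm_le_iff_of_nonneg (abs_nonneg _)]
    intro τ
    exact (hM' t τ).trans (le_abs_self _)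
  set E := ∫ s, φ s ∂μ with hE
  have i1 : Integrable (fun t => F (A + E - φ t)) μ := by
    have := integrable_good (μ := μ) hF (c := fun t => - φ t) hφ.neg (M := M')
      (fun t τ => by simpa using hM' t τ) (A + E)
    simpa [sub_eq_add_neg] using this
  have i2 : Integrable (fun t => F (A + (2:ℝ) • φ t)) μ := by
    refine integrable_good hF (c := fun t => (2:ℝ) • φ t) (hφ.const_smul (2:ℝ)) (M := 2 * M') ?_ A
    intro t τ
    simp only [Pi.smul_apply, smul_eq_mul, abs_mul]
    rw [show |(2:ℝ)| = 2 by norm_num]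
    exact mul_le_mul_of_nonneg_left (hM' t τ) (by norm_num)
  have i3 : Integrable (fun t => F (A - (2:ℝ) • φ t)) μ := by
    have := integrable_good (μ := μ) hF (c := fun t => (-2:ℝ) • φ t) (hφ.const_smul (-2:ℝ))
      (M := 2 * M') (fun t τ => by
      simp only [Pi.smul_apply, smul_eq_mul, abs_mul]
      rw [show |(-2:ℝ)| = 2 by norm_num]
      exact mul_le_mul_of_nonneg_left (hM' t τ) (by norm_num)) A
    simpa [sub_eq_add_neg] using this
  obtain ⟨t, ht⟩ := exists_le_integral i1
  refine ⟨t, ht.trans ?_⟩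
  -- Jensen
  have hj : F (A + (2:ℝ) • E) ≤ ∫ t, F (A + (2:ℝ) • φ t) ∂μ := by
    have hG : Good (fun B => F (B + A)) := hF.comp_add A
    have hi : Integrable (fun t => (2:ℝ) • φ t) μ := hφi.smul (2:ℝ)
    have := ConvexOn.map_integral_le (μ := μ) (f := fun t => (2:ℝ) • φ t) hG.conv
      hG.lip.continuous.continuousOn isClosed_univ (Filter.Eventually.of_forall fun t => Set.mem_univ _)
      hi (by
        have : (fun B => F (B + A)) ∘ (fun t => (2:ℝ) • φ t) = fun t => F (A + (2:ℝ) • φ t) := by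
          funext t; simp [add_comm]
        rw [this]; exact i2)
    rw [integral_smul] at this
    simpa [add_comm] using this
  have hmid : ∫ t, F (A + E - φ t) ∂μ ≤
      ∫ t, ((1/2) * F (A + (2:ℝ) • E) + (1/2) * F (A - (2:ℝ) • φ t)) ∂μ := by
    refine integral_mono i1 ((integrable_const _).add (i3.const_mul _)) fun t => ?_
    have h := hF.conv.2 (Set.mem_univ (A + (2:ℝ) • E)) (Set.mem_univ (A - (2:ℝ) • φ t))
      (show (0:ℝ) ≤ 1/2 by norm_num) (show (0:ℝ) ≤ 1/2 by norm_num) (by norm_num)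
    have e : (1/2:ℝ) • (A + (2:ℝ) • E) + (1/2:ℝ) • (A - (2:ℝ) • φ t) = A + E - φ t := by
      funext τ
      simp only [Pi.add_apply, Pi.sub_apply, Pi.smul_apply, smul_eq_mul]
      ring
    rw [e] at h
    simpa using h
  rw [integral_add (integrable_const _) (i3.const_mul _), integral_const_mul] at hmid
  rw [integral_const_mul, integral_const, probReal_univ, one_smul] at hmid
  refine hmid.trans ?_
  have h5 : (1/2) * F (A + (2:ℝ) • E) + (1/2) * ∫ t, F (A - (2:ℝ) • φ t) ∂μ ≤
      ∫ t, (1/2) * (F (A + (2:ℝ) • φ t) + F (A - (2:ℝ) • φ t)) ∂μ := by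
    rw [integral_const_mul, integral_add i2 i3]
    linarith
  refine h5.trans ?_
  refine integral_mono ((i2.add i3).const_mul _) (step_integrable hF hD hM A) fun t => ?_
  have h6 := hF.contr A ((2:ℝ) • φ t) (fun k => (2:ℝ) • D t k) (by
    intro τ τ'
    have := hφD t τ τ'
    simp only [Pi.smul_apply, smul_eq_mul, ← mul_sub, abs_mul, ← Finset.mul_sum]
    rw [show |(2:ℝ)| = 2 by norm_num]
    linarith)
  have e3 : ∀ k, (4:ℝ) • (2:ℝ) • D t k = (8:ℝ) • D t k := fun k => by
    rw [smul_smul]; norm_num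
  simp only [e3] at h6
  have e4 : ∀ k, A - (8:ℝ) • D t k = A + (-8:ℝ) • D t k := fun k => by
    rw [neg_smul, sub_eq_add_neg]
  simp only [e4] at h6
  rw [Fintype.sum_prod_type]
  simp only [Fintype.sum_bool, if_true, Bool.false_eq_true, if_false, Fintype.card_prod,
    Fintype.card_fin, Fintype.card_bool]
  push_cast
  linarith

/-- The iterated potential. -/
noncomputable def pot (μ : Measure Ω) (D : Ω → Fin 4 → ι → ℝ) : ℕ → (ι → ℝ) → ℝ
  | 0 => mx
  | k + 1 => step μ D (pot μ D k)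

lemma good_pot [Nonempty ι] {D : Ω → Fin 4 → ι → ℝ}
    (hD : Measurable D) {M : ℝ} (hM : ∀ t k τ, |D t k τ| ≤ M) (k : ℕ) : Good (pot μ D k) := by
  induction k with
  | zero => exact good_sup
  | succ k ih => exact ih.step hD hM

theorem select [Nonempty ι] {D : Ω → Fin 4 → ι → ℝ}
    (hD : Measurable D) {M : ℝ} (hM : ∀ t k τ, |D t k τ| ≤ M)
    {φ : Ω → ι → ℝ} (hφ : Measurable φ) {M' : ℝ} (hM' : ∀ t τ, |φ t τ| ≤ M')
    (hφD : ∀ t τ τ', φ t τ - φ t τ' ≤ ∑ k, |D t k τ - D t k τ'|) (m : ℕ) (A : ι → ℝ) :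
    ∃ t : Fin m → Ω, ∀ τ, A τ + m * (∫ s, φ s τ ∂μ) - ∑ j, φ (t j) τ ≤ pot μ D m A := by
  induction m generalizing A with
  | zero =>
    refine ⟨fun i => i.elim0, fun τ => ?_⟩
    simp only [pot]
    simpa using le_mx A τ
  | succ m ih =>
    have hφi : Integrable φ μ := by
      refine Integrable.of_bound (C := |M'|) hφ.aestronglyMeasurable
        (Filter.Eventually.of_forall fun t => ?_)
      rw [pi_norm_le_iff_of_nonneg (abs_nonneg _)]
      intro τ
      exact (hM' t τ).trans (le_abs_self _)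
    obtain ⟨t₀, ht₀⟩ := step_select (μ := μ) (good_pot (μ := μ) hD hM m) hD hM hφ hM' hφD A
    obtain ⟨t, ht⟩ := ih (A + (∫ s, φ s ∂μ) - φ t₀)
    refine ⟨Fin.cons t₀ t, fun τ => ?_⟩
    have h1 := (ht τ).trans ht₀
    have e : (∫ s, φ s ∂μ) τ = ∫ s, φ s τ ∂μ := by
      exact MeasureTheory.eval_integral (fun i => (integrable_pi_iff.1 hφi i)) τ
    rw [Fin.sum_univ_succ]
    simp only [Fin.cons_zero, Fin.cons_succ, Pi.add_apply, Pi.sub_apply, e] at h1 ⊢
    simp only [pot]
    push_cast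
    linarith

end Pool.H164.Spr
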