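import Pool.Agent.H164R3.SprPot

/-!
# Selecting sample points for the functions `||⟨a,x_t⟩| - |⟨b,x_t⟩||`
-/

open MeasureTheory

namespace Pool.H164.Spr

lemma sqrt_pair {a b c : ℝ} (ha : 0 ≤ a) (hb : 0 ≤ b) (hc : a + b ≤ 2 * c) :
    √a + √b ≤ 2 * √c := by
  have hc0 : 0 ≤ c := by linarith
  have h1 := Real.sq_sqrt ha
  have h2 := Real.sq_sqrt hb
  have h3 := Real.sq_sqrt hc0
  by_contra h
  push Not at h
  nlinarith [Real.sqrt_nonneg a, Real.sqrt_nonneg b, Real.sqrt_nonneg c, sq_nonneg (√a - √b)]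

variable {𝕜 : Type*} [RCLike 𝕜] {H : Type*} [NormedAddCommGroup H] [InnerProductSpace 𝕜 H]

lemma re8 (w v : H) : RCLike.re (inner 𝕜 ((8:𝕜) • w) v) = 8 * RCLike.re (inner 𝕜 w v) := by
  rw [inner_smul_left, map_ofNat,
    show ((8:𝕜) * (inner 𝕜 w v)) = ((8:ℝ):𝕜) * (inner 𝕜 w v) by push_cast; rfl, RCLike.re_ofReal_mul]

lemma norm_le_re_im (z : 𝕜) : ‖z‖ ≤ |RCLike.re z| + |RCLike.im z| := by
  have h1 : ‖z‖ ^ 2 = RCLike.re z * RCLike.re z + RCLike.im z * RCLike.im z := by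
    rw [← RCLike.normSq_eq_def', RCLike.normSq_apply]
  refine abs_le_of_sq_le_sq' ?_ (by positivity) |>.2
  rw [h1]
  nlinarith [sq_abs (RCLike.re z), sq_abs (RCLike.im z), abs_nonneg (RCLike.re z),
    abs_nonneg (RCLike.im z), mul_nonneg (abs_nonneg (RCLike.re z)) (abs_nonneg (RCLike.im z))]

lemma norm_pair (𝕜 : Type*) [RCLike 𝕜] {H : Type*} [NormedAddCommGroup H]
    [InnerProductSpace 𝕜 H] (p q : H) {c r : ℝ} (hc : 0 ≤ c) (hr : ‖q‖ ^ 2 ≤ r) :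
    √(‖p + q‖ ^ 2 + c) + √(‖p - q‖ ^ 2 + c) ≤ 2 * √(‖p‖ ^ 2 + (r + c)) := by
  refine sqrt_pair (by positivity) (by positivity) ?_
  have h := parallelogram_law_with_norm 𝕜 p q
  nlinarith

variable {ι : Type*} [Fintype ι] [Nonempty ι] {Ω : Type*} [MeasurableSpace Ω]
  {μ : Measure Ω} [IsProbabilityMeasure μ]

/-- The four real coordinates. -/
noncomputable def dd (𝕜 : Type*) [RCLike 𝕜] {H : Type*} [NormedAddCommGroup H]
    [InnerProductSpace 𝕜 H] {ι Ω : Type*} (x : Ω → H) (a b : ι → H) : Ω → Fin 4 → ι → ℝ :=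
  fun t => ![fun τ => RCLike.re (inner 𝕜 (x t) (a τ)), fun τ => RCLike.im (inner 𝕜 (x t) (a τ)),
    fun τ => RCLike.re (inner 𝕜 (x t) (b τ)), fun τ => RCLike.im (inner 𝕜 (x t) (b τ))]

/-- Linear functionals. -/
noncomputable def lin (𝕜 : Type*) [RCLike 𝕜] {H : Type*} [NormedAddCommGroup H]
    [InnerProductSpace 𝕜 H] {ι : Type*} (a b : ι → H) (u v : H) : ι → ℝ :=
  fun τ => RCLike.re (inner 𝕜 u (a τ)) + RCLike.re (inner 𝕜 v (b τ))

omit [Fintype ι] [Nonempty ι] in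
lemma dd_measurable {x : Ω → H} (hx : ∀ v, Measurable fun t => (inner 𝕜 (x t) v)) (a b : ι → H) :
    Measurable (dd 𝕜 x a b) := by
  rw [measurable_pi_iff]
  intro k
  rw [measurable_pi_iff]
  intro τ
  fin_cases k
  · exact RCLike.measurable_re.comp (hx (a τ))
  · exact RCLike.measurable_im.comp (hx (a τ))
  · exact RCLike.measurable_re.comp (hx (b τ))
  · exact RCLike.measurable_im.comp (hx (b τ))

omit [Fintype ι] [Nonempty ι] [MeasurableSpace Ω] in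
lemma dd_bdd {x : Ω → H} {R : ℝ} (hR : ∀ t, ‖x t‖ ≤ R) {a b : ι → H}
    (ha : ∀ τ, ‖a τ‖ ≤ 1) (hb : ∀ τ, ‖b τ‖ ≤ 1) (t : Ω) (k : Fin 4) (τ : ι) :
    |dd 𝕜 x a b t k τ| ≤ R := by
  have h1 : ∀ w : H, ‖w‖ ≤ 1 → ‖(inner 𝕜 (x t) w)‖ ≤ R := by
    intro w hw
    have := norm_inner_le_norm (𝕜 := 𝕜) (x t) w
    nlinarith [norm_nonneg (x t), norm_nonneg w, hR t]
  fin_cases k
  · exact (RCLike.abs_re_le_norm _).trans (h1 _ (ha τ))
  · exact (RCLike.abs_im_le_norm _).trans (h1 _ (ha τ))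
  · exact (RCLike.abs_re_le_norm _).trans (h1 _ (hb τ))
  · exact (RCLike.abs_im_le_norm _).trans (h1 _ (hb τ))

lemma im_eq (w v : H) : RCLike.im (inner 𝕜 w v) = RCLike.re (inner 𝕜 ((RCLike.I : 𝕜) • w) v) := by
  rw [inner_smul_left, RCLike.conj_I, neg_mul, map_neg, RCLike.I_mul_re, neg_neg]

lemma norm_I_smul_le (w : H) : ‖(RCLike.I : 𝕜) • w‖ ≤ ‖w‖ := by
  rw [norm_smul]
  have : ‖(RCLike.I : 𝕜)‖ ≤ 1 := by
    rcases eq_or_ne (RCLike.I : 𝕜) 0 with h | h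
    · rw [h]; simp
    · rw [RCLike.norm_I_of_ne_zero h]
  nlinarith [norm_nonneg w, norm_nonneg (RCLike.I : 𝕜)]

lemma pot_bound {x : Ω → H} (hx : ∀ v, Measurable fun t => (inner 𝕜 (x t) v)) {R : ℝ}
    (hR : ∀ t, ‖x t‖ ≤ R) {a b : ι → H} (ha : ∀ τ, ‖a τ‖ ≤ 1) (hb : ∀ τ, ‖b τ‖ ≤ 1)
    (k : ℕ) (u v : H) :
    pot μ (dd 𝕜 x a b) k (lin 𝕜 a b u v) ≤
      √(‖u‖ ^ 2 + 64 * R ^ 2 * k) + √(‖v‖ ^ 2 + 64 * R ^ 2 * k) := by
  induction k generalizing u v with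
  | zero =>
    simp only [pot, Nat.cast_zero, mul_zero, add_zero, Real.sqrt_sq (norm_nonneg _)]
    refine mx_le fun τ => ?_
    have h1 : RCLike.re (inner 𝕜 u (a τ)) ≤ ‖u‖ := by
      refine (RCLike.re_le_norm _).trans ?_
      have := norm_inner_le_norm (𝕜 := 𝕜) u (a τ)
      nlinarith [norm_nonneg u, ha τ, norm_nonneg (a τ)]
    have h2 : RCLike.re (inner 𝕜 v (b τ)) ≤ ‖v‖ := by
      refine (RCLike.re_le_norm _).trans ?_
      have := norm_inner_le_norm (𝕜 := 𝕜) v (b τ)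
      nlinarith [norm_nonneg v, hb τ, norm_nonneg (b τ)]
    exact add_le_add h1 h2
  | succ k ih =>
    have hDm := dd_measurable (𝕜 := 𝕜) hx a b
    have hDb := dd_bdd (𝕜 := 𝕜) hR ha hb
    have hG := good_pot (μ := μ) hDm hDb k
    simp only [pot, step]
    set c : ℝ := 64 * R ^ 2 * k with hc
    have hc0 : 0 ≤ c := by positivity
    have hbound : ∀ t, (1 / (Fintype.card (Fin 4 × Bool) : ℝ)) *
        ∑ i : Fin 4 × Bool, pot μ (dd 𝕜 x a b) k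
          (lin 𝕜 a b u v + (if i.2 then (8:ℝ) else -8) • dd 𝕜 x a b t i.1) ≤
        √(‖u‖ ^ 2 + (64 * R ^ 2 + c)) + √(‖v‖ ^ 2 + (64 * R ^ 2 + c)) := by
      intro t
      rw [Fintype.sum_prod_type, Fin.sum_univ_four]
      simp only [Fintype.sum_bool, if_true, Bool.false_eq_true, if_false, Fintype.card_prod,
        Fintype.card_fin, Fintype.card_bool]
      have e1 : lin 𝕜 a b u v + (8:ℝ) • dd 𝕜 x a b t 0 =
          lin 𝕜 a b (u + (8:𝕜) • x t) v := by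
        funext τ
        simp only [lin, dd, Pi.add_apply, Pi.smul_apply, Matrix.cons_val, smul_eq_mul,
          inner_add_left, map_add, re8]
        ring
      have e2 : lin 𝕜 a b u v + (-8:ℝ) • dd 𝕜 x a b t 0 =
          lin 𝕜 a b (u - (8:𝕜) • x t) v := by
        funext τ
        simp only [lin, dd, Pi.add_apply, Pi.smul_apply, Matrix.cons_val, smul_eq_mul,
          inner_sub_left, map_sub, re8]
        ring
      have e3 : lin 𝕜 a b u v + (8:ℝ) • dd 𝕜 x a b t 1 =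
          lin 𝕜 a b (u + (8:𝕜) • (RCLike.I : 𝕜) • x t) v := by
        funext τ
        simp only [lin, dd, Pi.add_apply, Pi.smul_apply, Matrix.cons_val, smul_eq_mul,
          inner_add_left, map_add, re8, im_eq]
        ring
      have e4 : lin 𝕜 a b u v + (-8:ℝ) • dd 𝕜 x a b t 1 =
          lin 𝕜 a b (u - (8:𝕜) • (RCLike.I : 𝕜) • x t) v := by
        funext τ
        simp only [lin, dd, Pi.add_apply, Pi.smul_apply, Matrix.cons_val, smul_eq_mul,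
          inner_sub_left, map_sub, re8, im_eq]
        ring
      have e5 : lin 𝕜 a b u v + (8:ℝ) • dd 𝕜 x a b t 2 =
          lin 𝕜 a b u (v + (8:𝕜) • x t) := by
        funext τ
        simp only [lin, dd, Pi.add_apply, Pi.smul_apply, Matrix.cons_val, smul_eq_mul,
          inner_add_left, map_add, re8]
        ring
      have e6 : lin 𝕜 a b u v + (-8:ℝ) • dd 𝕜 x a b t 2 =
          lin 𝕜 a b u (v - (8:𝕜) • x t) := by
        funext τ
        simp only [lin, dd, Pi.add_apply, Pi.smul_apply, Matrix.cons_val, smul_eq_mul,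
          inner_sub_left, map_sub, re8]
        ring
      have e7 : lin 𝕜 a b u v + (8:ℝ) • dd 𝕜 x a b t 3 =
          lin 𝕜 a b u (v + (8:𝕜) • (RCLike.I : 𝕜) • x t) := by
        funext τ
        simp only [lin, dd, Pi.add_apply, Pi.smul_apply, Matrix.cons_val, smul_eq_mul,
          inner_add_left, map_add, re8, im_eq]
        ring
      have e8 : lin 𝕜 a b u v + (-8:ℝ) • dd 𝕜 x a b t 3 =
          lin 𝕜 a b u (v - (8:𝕜) • (RCLike.I : 𝕜) • x t) := by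
        funext τ
        simp only [lin, dd, Pi.add_apply, Pi.smul_apply, Matrix.cons_val, smul_eq_mul,
          inner_sub_left, map_sub, re8, im_eq]
        ring
      rw [e1, e2, e3, e4, e5, e6, e7, e8]
      have hw1 : ‖(8:𝕜) • x t‖ ^ 2 ≤ 64 * R ^ 2 := by
        rw [norm_smul, RCLike.norm_ofNat, mul_pow]
        have := pow_le_pow_left₀ (norm_nonneg (x t)) (hR t) 2
        nlinarith
      have hw2 : ‖(8:𝕜) • (RCLike.I : 𝕜) • x t‖ ^ 2 ≤ 64 * R ^ 2 := by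
        rw [norm_smul, RCLike.norm_ofNat, mul_pow]
        have := pow_le_pow_left₀ (norm_nonneg _) ((norm_I_smul_le (𝕜 := 𝕜) (x t)).trans (hR t)) 2
        nlinarith
      have p1 := norm_pair 𝕜 u ((8:𝕜) • x t) hc0 hw1
      have p2 := norm_pair 𝕜 u ((8:𝕜) • (RCLike.I : 𝕜) • x t) hc0 hw2
      have p3 := norm_pair 𝕜 v ((8:𝕜) • x t) hc0 hw1
      have p4 := norm_pair 𝕜 v ((8:𝕜) • (RCLike.I : 𝕜) • x t) hc0 hw2
      have q1 : √(‖u‖ ^ 2 + c) ≤ √(‖u‖ ^ 2 + (64 * R ^ 2 + c)) :=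
        Real.sqrt_le_sqrt (by nlinarith [sq_nonneg R])
      have q2 : √(‖v‖ ^ 2 + c) ≤ √(‖v‖ ^ 2 + (64 * R ^ 2 + c)) :=
        Real.sqrt_le_sqrt (by nlinarith [sq_nonneg R])
      have i1 := ih (u + (8:𝕜) • x t) v
      have i2 := ih (u - (8:𝕜) • x t) v
      have i3 := ih (u + (8:𝕜) • (RCLike.I : 𝕜) • x t) v
      have i4 := ih (u - (8:𝕜) • (RCLike.I : 𝕜) • x t) v
      have i5 := ih u (v + (8:𝕜) • x t)
      have i6 := ih u (v - (8:𝕜) • x t)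
      have i7 := ih u (v + (8:𝕜) • (RCLike.I : 𝕜) • x t)
      have i8 := ih u (v - (8:𝕜) • (RCLike.I : 𝕜) • x t)
      push_cast
      linarith
    have hfin := integral_mono (step_integrable (μ := μ) hG hDm hDb (lin 𝕜 a b u v))
      (integrable_const (√(‖u‖ ^ 2 + (64 * R ^ 2 + c)) + √(‖v‖ ^ 2 + (64 * R ^ 2 + c)))) hbound
    rw [integral_const, probReal_univ, one_smul] at hfin
    have e : 64 * R ^ 2 + c = 64 * R ^ 2 * ((k + 1 : ℕ) : ℝ) := by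
      rw [hc]; push_cast; ring
    rw [← e]
    exact hfin

theorem sample {x : Ω → H} (hx : ∀ v, Measurable fun t => (inner 𝕜 (x t) v)) {R : ℝ} (hR0 : 0 ≤ R)
    (hR : ∀ t, ‖x t‖ ≤ R) {a b : ι → H} (ha : ∀ τ, ‖a τ‖ ≤ 1) (hb : ∀ τ, ‖b τ‖ ≤ 1)
    (m : ℕ) :
    ∃ t : Fin m → Ω, ∀ τ,
      m * (∫ s, |‖(inner 𝕜 (x s) (a τ))‖ - ‖(inner 𝕜 (x s) (b τ))‖| ∂μ) -
        ∑ j, |‖(inner 𝕜 (x (t j)) (a τ))‖ - ‖(inner 𝕜 (x (t j)) (b τ))‖| ≤ 16 * R * √m := by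
  obtain ⟨t, ht⟩ := select (μ := μ) (dd_measurable (𝕜 := 𝕜) hx a b)
    (dd_bdd (𝕜 := 𝕜) hR ha hb)
    (φ := fun s τ => |‖(inner 𝕜 (x s) (a τ))‖ - ‖(inner 𝕜 (x s) (b τ))‖|) (by
      rw [measurable_pi_iff]
      intro τ
      have h1 := (hx (a τ)).norm
      have h2 := (hx (b τ)).norm
      exact (h1.sub h2).abs) (M' := R) (by
      intro s τ
      rw [abs_abs]
      have h1 := norm_inner_le_norm (𝕜 := 𝕜) (x s) (a τ)
      have h2 := norm_inner_le_norm (𝕜 := 𝕜) (x s) (b τ)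
      have h3 : ‖(inner 𝕜 (x s) (a τ))‖ ≤ R := by
        nlinarith [norm_nonneg (x s), norm_nonneg (a τ), hR s, ha τ]
      have h4 : ‖(inner 𝕜 (x s) (b τ))‖ ≤ R := by
        nlinarith [norm_nonneg (x s), norm_nonneg (b τ), hR s, hb τ]
      rw [abs_le]
      constructor <;> linarith [norm_nonneg (inner 𝕜 (x s) (a τ)), norm_nonneg (inner 𝕜 (x s) (b τ))]) (by
      intro s τ τ'
      rw [Fin.sum_univ_four]
      simp only [dd, Matrix.cons_val]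
      have h1 := norm_le_re_im ((inner 𝕜 (x s) (a τ)) - (inner 𝕜 (x s) (a τ')))
      have h2 := norm_le_re_im ((inner 𝕜 (x s) (b τ)) - (inner 𝕜 (x s) (b τ')))
      rw [map_sub, map_sub] at h1 h2
      have h3 := abs_norm_sub_norm_le (inner 𝕜 (x s) (a τ)) (inner 𝕜 (x s) (a τ'))
      have h4 := abs_norm_sub_norm_le (inner 𝕜 (x s) (b τ)) (inner 𝕜 (x s) (b τ'))
      have h5 : |‖(inner 𝕜 (x s) (a τ))‖ - ‖(inner 𝕜 (x s) (b τ))‖| - |‖(inner 𝕜 (x s) (a τ'))‖ - ‖(inner 𝕜 (x s) (b τ'))‖| ≤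
          |‖(inner 𝕜 (x s) (a τ))‖ - ‖(inner 𝕜 (x s) (a τ'))‖| + |‖(inner 𝕜 (x s) (b τ))‖ - ‖(inner 𝕜 (x s) (b τ'))‖| := by
        refine (abs_sub_abs_le_abs_sub _ _).trans ?_
        have e : ‖(inner 𝕜 (x s) (a τ))‖ - ‖(inner 𝕜 (x s) (b τ))‖ - (‖(inner 𝕜 (x s) (a τ'))‖ - ‖(inner 𝕜 (x s) (b τ'))‖) =
          (‖(inner 𝕜 (x s) (a τ))‖ - ‖(inner 𝕜 (x s) (a τ'))‖) - (‖(inner 𝕜 (x s) (b τ))‖ - ‖(inner 𝕜 (x s) (b τ'))‖) := by ring
        rw [e]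
        exact abs_sub _ _
      linarith) m (lin 𝕜 a b 0 0)
  refine ⟨t, fun τ => ?_⟩
  have h1 := (ht τ).trans (pot_bound (μ := μ) (𝕜 := 𝕜) hx hR ha hb m 0 0)
  have e0 : lin 𝕜 a b (0:H) 0 τ = 0 := by simp [lin]
  have e1 : √(‖(0:H)‖ ^ 2 + 64 * R ^ 2 * m) = 8 * R * √m := by
    rw [norm_zero]
    have : (0:ℝ) ^ 2 + 64 * R ^ 2 * m = (8 * R) ^ 2 * m := by ring
    rw [this, Real.sqrt_mul (by positivity), Real.sqrt_sq (by positivity)]
  rw [e0, e1] at h1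
  linarith

end Pool.H164.Spr
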